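import Pool.Agent.W684.FM.Defs

/-!
# The continuum hypothesis can be forced

The conditions are the bounded (that is, countable) partial functions from `ω₁` to the set of all
functions from the natural numbers to themselves. Decreasing sequences of conditions have lower
bounds, so that every name for a function on the natural numbers is densely often equal to a ground
model function.
-/

set_option autoImplicit false

namespace Pool.Agent.W352.CHF

open Cardinal Pool.Agent.Helper669.Forcing Pool.Agent.W684.FM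

section

variable {Q : Type} [Preorder Q]

/-- decreasing sequences of conditions have lower bounds -/
def SClosed (Q : Type) [Preorder Q] : Prop :=
  ∀ C : ℕ → Q, (∀ n, C (n + 1) ≤ C n) → ∃ q, ∀ n, q ≤ C n

/-- a name for a function on the natural numbers is decided below some condition -/
theorem decide (hQ : SClosed Q) {Y : Type} {R : ℕ → Y → Set Q} {q0 : Q} (h : q0 ∈ IsFun R) :
    ∃ q ≤ q0, ∃ F : ℕ → Y, ∀ n, q ∈ meets (R n (F n)) := by
  classical
  have step : ∀ (n : ℕ) (q : Q), ∃ r : Q, r ≤ q ∧ (q ≤ q0 → ∃ y, r ∈ meets (R n y)) := by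
    intro n q
    by_cases hq : q ≤ q0
    · obtain ⟨r, hr, y, hy⟩ := mem_fex.1 (h.1 n) q hq
      exact ⟨r, hr, fun _ => ⟨y, hy⟩⟩
    · exact ⟨q, le_rfl, fun h => absurd h hq⟩
  choose S hS1 hS2 using step
  let C : ℕ → Q := fun n => Nat.rec q0 (fun k q => S k q) n
  have hC0 : C 0 = q0 := rfl
  have hCs : ∀ n, C (n + 1) = S n (C n) := fun n => rfl
  have hle : ∀ n, C (n + 1) ≤ C n := fun n => by rw [hCs]; exact hS1 n _
  have hle0 : ∀ n, C n ≤ q0 := by
    intro n
    induction n with
    | zero => exact hC0.le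
    | succ n ih => exact (hle n).trans ih
  obtain ⟨q, hq⟩ := hQ C hle
  have : ∀ n, ∃ y, q ∈ meets (R n y) := by
    intro n
    obtain ⟨y, hy⟩ := hS2 n (C n) (hle0 n)
    refine ⟨y, ?_⟩
    rw [← hCs] at hy
    exact down_meets _ _ hy _ (hq (n + 1))
  choose F hF using this
  exact ⟨q, (hq 0).trans hC0.le, F, hF⟩

theorem omegaOnePreserved (hQ : SClosed Q) (p : Q) : p ∈ OmegaOnePreserved Q := by
  intro q0 _ h
  obtain ⟨r, hr, R, hR1, hR2⟩ := mem_fex.1 h q0 le_rfl
  obtain ⟨q, hq, F, hF⟩ := decide hQ hR1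
  have hnot : ¬ Function.Surjective F := by
    intro hs
    have h1 := Cardinal.mk_le_of_surjective hs
    rw [Cardinal.mk_ord_toType, Cardinal.mk_nat] at h1
    exact absurd h1 (not_le.2 Cardinal.aleph0_lt_aleph_one)
  simp only [Function.Surjective, not_forall, not_exists] at hnot
  obtain ⟨y, hy⟩ := hnot
  obtain ⟨s, hs, n, hn⟩ := mem_fex.1 (hR2 y) q hq
  exact hy n (IsFun.unique (down_IsFun R _ hR1 _ (hs.trans hq))
    (down_meets _ _ (hF n) _ hs) hn)

end

section

variable (W V : Type) [LinearOrder W]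

/-- bounded partial functions from `W` to `V` -/
structure Coll : Type where
  g : W → Option V
  bd : ∃ b, ∀ ξ, b ≤ ξ → g ξ = none

variable {W V}

instance : Preorder (Coll W V) where
  le q r := ∀ ξ v, r.g ξ = some v → q.g ξ = some v
  le_refl q := fun _ _ h => h
  le_trans q r s h1 h2 := fun ξ v h => h1 ξ v (h2 ξ v h)

theorem Coll.closed (hW : ∀ b : ℕ → W, ∃ c, ∀ n, b n ≤ c) : SClosed (Coll W V) := by
  classical
  intro C hC
  have hmono : ∀ n m, n ≤ m → C m ≤ C n := by
    intro n m h
    induction h with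
    | refl => exact le_rfl
    | step _ ih => exact (hC _).trans ih
  have hcomp : ∀ i j ξ v w, (C i).g ξ = some v → (C j).g ξ = some w → v = w := by
    intro i j ξ v w h1 h2
    rcases le_total i j with h | h
    · have := hmono i j h ξ v h1
      rw [h2] at this
      exact (Option.some.inj this).symm
    · have := hmono j i h ξ w h2
      rw [h1] at this
      exact Option.some.inj this
  choose b hb using fun i => (C i).bd
  obtain ⟨c, hc⟩ := hW b
  let g : W → Option V := fun ξ => if h : ∃ v, ∃ i, (C i).g ξ = some v then some h.choose else none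
  refine ⟨⟨g, c, fun ξ hξ => ?_⟩, fun i ξ v hv => ?_⟩
  · have h : ¬ ∃ v, ∃ i, (C i).g ξ = some v := by
      rintro ⟨v, i, hv⟩
      rw [hb i ξ ((hc i).trans hξ)] at hv
      exact absurd hv (by simp)
    simp only [g, dif_neg h]
  · have h : ∃ v, ∃ i, (C i).g ξ = some v := ⟨v, i, hv⟩
    show g ξ = some v
    simp only [g, dif_pos h]
    congr 1
    obtain ⟨j, hj⟩ := h.choose_spec
    exact hcomp j i ξ _ _ hj hv

/-- extending a condition at a new place -/
theorem Coll.extend [NoMaxOrder W] (q : Coll W V) (ξ : W) (hξ : q.g ξ = none) (v : V) :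
    ∃ r ≤ q, r.g ξ = some v := by
  classical
  obtain ⟨b, hb⟩ := q.bd
  obtain ⟨c, hc⟩ := exists_gt ξ
  refine ⟨⟨Function.update q.g ξ (some v), max b c, fun η hη => ?_⟩, ?_, ?_⟩
  · have h1 : η ≠ ξ := fun h => absurd (hc.trans_le ((le_max_right _ _).trans hη)) (by simp [h])
    rw [Function.update_of_ne h1]
    exact hb η ((le_max_left _ _).trans hη)
  · intro η w hw
    have h1 : η ≠ ξ := fun h => by
      rw [h, hξ] at hw
      exact absurd hw (by simp)
    show Function.update q.g ξ (some v) η = some w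
    rw [Function.update_of_ne h1]
    exact hw
  · exact Function.update_self _ _ _

/-- the names for the reals enumerated by the generic function -/
def enum (y : W) (n m : ℕ) : Set (Coll W (ℕ → ℕ)) := {s | ∃ N, s.g y = some N ∧ N n = m}

theorem down_enum (y : W) (n m : ℕ) : Down (enum y n m) := by
  rintro s ⟨N, hN, h⟩ s' hs
  exact ⟨N, hs _ _ hN, h⟩

theorem enum_isFun [NoMaxOrder W] (y : W) (s : Coll W (ℕ → ℕ)) : s ∈ IsFun (enum y) := by
  refine ⟨fun n => ?_, fun n m m' => ?_⟩
  · rw [mem_fex]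
    intro g1 _
    obtain ⟨g2, hg2, N, hN⟩ : ∃ g2 ≤ g1, ∃ N, g2.g y = some N := by
      rcases h : g1.g y with _ | N
      · obtain ⟨g2, h1, h2⟩ := g1.extend y h (fun _ => 0)
        exact ⟨g2, h1, _, h2⟩
      · exact ⟨g1, le_rfl, N, h⟩
    exact ⟨g2, hg2, N n, meets_of_mem ⟨N, hN, rfl⟩⟩
  · rw [mem_fimp]
    rintro s1 _ ⟨h1, h2⟩
    refine ⟨s1, le_rfl, ?_⟩
    obtain ⟨s2, hs2, N, hN, h3⟩ := exists_of_meets (down_enum y n m) h1
    obtain ⟨s3, hs3, N', hN', h4⟩ := exists_of_meets (down_enum y n m') (down_meets _ _ h2 _ hs2)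
    have h5 := hs3 _ _ hN
    rw [hN'] at h5
    obtain rfl := Option.some.inj h5
    rw [mem_fground, ← h3, ← h4]

theorem continuumLe [NoMaxOrder W] (hQ : SClosed (Coll W (ℕ → ℕ))) (s : Coll W (ℕ → ℕ)) :
    s ∈ ContinuumLe (Coll W (ℕ → ℕ)) W := by
  refine mem_fex_of_mem (fun y => enum y) (down_fand (down_fall fun y => down_IsFun _)
    (down_fall fun x => down_fimp _ _)) ⟨fun y => enum_isFun y s, fun x => ?_⟩
  rw [mem_fimp]
  intro g1 _ hx
  obtain ⟨g2, hg2, F, hF⟩ := decide hQ hx
  obtain ⟨b, hb⟩ := g2.bd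
  obtain ⟨g3, hg3, hg3b⟩ := g2.extend b (hb b le_rfl) F
  refine ⟨g3, hg3.trans hg2, mem_fex_of_mem b (down_SameReal _ _) ?_⟩
  intro n a c
  rw [mem_fimp]
  rintro s3 hs3 ⟨h1, h2⟩
  refine ⟨s3, le_rfl, ?_⟩
  rw [mem_fground]
  obtain ⟨s4, hs4, N, hN, h3⟩ := exists_of_meets (down_enum b n c) h2
  have hle : s4 ≤ g3 := le_trans hs4 hs3
  have h4 := hle _ _ hg3b
  rw [hN] at h4
  obtain rfl := Option.some.inj h4
  rw [← h3]
  exact IsFun.unique (down_IsFun x _ hx _ ((hle.trans hg3).trans hg2))
    (down_meets _ _ h1 _ hs4) (down_meets _ _ (hF n) _ (hle.trans hg3))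

end

/-- The continuum hypothesis can be forced over every ground model, with preservation of `ω₁`. -/
theorem exists_forcing : ∃ (P : Type) (_ : Preorder P), Nonempty P ∧ ∀ p : P,
    p ∈ OmegaOnePreserved P ∧ p ∈ ContinuumLe P Om1 := by
  have hcard : #Om1 = ℵ₁ := Cardinal.mk_ord_toType _
  have hunc : ¬ (Set.univ : Set Om1).Countable := by
    rw [← Cardinal.le_aleph0_iff_set_countable, Cardinal.mk_univ, hcard]
    exact not_le.2 Cardinal.aleph0_lt_aleph_one
  have hIio : ∀ i : Om1, (Set.Iio i).Countable := by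
    intro i
    rw [← Cardinal.le_aleph0_iff_set_countable, ← Cardinal.lt_aleph_one_iff]
    exact Cardinal.mk_Iio_ord_toType i
  have hb : ∀ b : ℕ → Om1, ∃ c, ∀ n, b n ≤ c := by
    intro b
    by_contra hcon
    push Not at hcon
    apply hunc
    apply (Set.countable_iUnion (fun n => hIio (b n))).mono
    intro c _
    obtain ⟨n, hn⟩ := hcon c
    exact Set.mem_iUnion.2 ⟨n, hn⟩
  have hNM : NoMaxOrder Om1 := by
    constructor
    intro a
    by_contra hcon
    push Not at hcon
    apply hunc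
    apply ((hIio a).union (Set.countable_singleton a)).mono
    intro c _
    rcases (hcon c).lt_or_eq with h | h
    · exact Or.inl h
    · exact Or.inr h
  have hne : Nonempty Om1 := by
    by_contra h
    rw [not_nonempty_iff] at h
    exact hunc (Set.countable_univ)
  have hQ : SClosed (Coll Om1 (ℕ → ℕ)) := Coll.closed hb
  refine ⟨Coll Om1 (ℕ → ℕ), inferInstance, ⟨⟨fun _ => none, hne.some, fun _ _ => rfl⟩⟩, fun s =>
    ⟨omegaOnePreserved hQ s, continuumLe hQ s⟩⟩

end Pool.Agent.W352.CHF
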