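import Mathlib
import Pool.Agent.W25.UB.Stm5
import Pool.Agent.H362R2.CM.Num

/-! Project UB (helper25): the choice of the parameters (theorem `main : St_NUM`). -/

set_option autoImplicit false

namespace Pool.Agent.W352.UBNum

open Finset Filter Topology
open Pool.Agent.H361R2.GM
open Pool.Agent.H362R2.CM
open Pool.Agent.W25.UB

/-- the bracket `Br2` at `ε = 0` -/
theorem Br2_zero_bounds (A s : ℝ) (hs : 1 ≤ s) (hA : 2 * s + 4 ≤ A) (k : ℕ)
    (hk : 100 * s ^ 2 * Real.exp A ≤ k) (Q : SPar) (hQG : Q.G = A * k)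
    (hQc : Q.c = (Real.exp A - 1) / (A * k)) (hQl : Q.lam = s * A) :
      (1 - Real.exp (-s + 2)) * ((1 / 3) * Q.I2 ^ (k - 2)) ≤ Br2 Q k 0 := by
  have he : 1 + A ≤ Real.exp A := by have := Real.add_one_le_exp A; linarith
  have he0 : 0 < Real.exp A := Real.exp_pos A
  have hs2 : s ≤ s ^ 2 := by nlinarith
  have hsk : 100 * s * Real.exp A ≤ k := by
    refine le_trans ?_ hk
    gcongr
  have hek' : 100 * Real.exp A ≤ k := by
    refine le_trans ?_ hsk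
    nlinarith
  have hk0 : (0 : ℝ) < k := by linarith
  have hA0 : 0 < A := by linarith
  have hGc : 1 + Q.G * Q.c = Real.exp A := by
    rw [hQG, hQc]
    field_simp
    ring
  set e := Real.exp A with hee
  have hI2 : Q.I2 = (1 - 1 / e) / (A * k) := by rw [int_gg2, hGc, hQG]
  have h1e : 1 / e ≤ 1 / 7 := by
    apply one_div_le_one_div_of_le (by norm_num)
    linarith
  have h1e0 : 0 < 1 / e := by positivity
  have hI2pos : 0 < Q.I2 := by
    rw [hI2]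
    apply div_pos (by linarith) (by positivity)
  have hIE := int_gE Q
  rw [hGc, hee, Real.log_exp, ← hee, hQG, hQl, hQc] at hIE
  set w : ℝ := (s * (A - 1 + 1 / (e - 1) * A) + s ^ 2 * e / k) / k with hw
  have he1 : 0 < e - 1 := by linarith
  have hIE2 : Q.IE ≤ Q.I2 * (1 + w) := by
    refine hIE.trans (le_of_eq ?_)
    rw [hI2, hw]
    have h3 : e ≠ 0 := he0.ne'
    have h4 : e - 1 ≠ 0 := he1.ne'
    field_simp
    ring
  have hIE0 : 0 ≤ Q.IE := by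
    unfold SPar.IE
    apply intervalIntegral.integral_nonneg Q.hc.le
    intro t ht
    have h1 : 0 ≤ Q.ee t := by
      have := ht.1
      have := Q.hlam
      unfold SPar.ee
      positivity
    positivity
  have hw0 : 0 ≤ w := by
    rw [hw]
    apply div_nonneg _ hk0.le
    have h5 : 0 ≤ 1 / (e - 1) * A := by positivity
    have h6 : 0 ≤ s ^ 2 * e / k := by positivity
    have h7 : 0 ≤ s * (A - 1 + 1 / (e - 1) * A) := by
      apply mul_nonneg (by linarith)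
      linarith
    linarith
  have hpow : Q.IE ^ (k - 2) ≤ Q.I2 ^ (k - 2) * Real.exp (k * w) := by
    calc Q.IE ^ (k - 2) ≤ (Q.I2 * (1 + w)) ^ (k - 2) := pow_le_pow_left₀ hIE0 hIE2 _
      _ = Q.I2 ^ (k - 2) * (1 + w) ^ (k - 2) := mul_pow _ _ _
      _ ≤ Q.I2 ^ (k - 2) * Real.exp (k * w) := by
          apply mul_le_mul_of_nonneg_left _ (by positivity)
          calc (1 + w) ^ (k - 2) ≤ (Real.exp w) ^ (k - 2) := by
                apply pow_le_pow_left₀ (by linarith)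
                have := Real.add_one_le_exp w
                linarith
            _ ≤ (Real.exp w) ^ k := pow_le_pow_right₀ (Real.one_le_exp hw0) (Nat.sub_le _ _)
            _ = Real.exp (k * w) := by rw [← Real.exp_nat_mul]
  have hkw : k * w = s * (A - 1 + 1 / (e - 1) * A) + s ^ 2 * e / k := by
    rw [hw]
    field_simp
  have hek : s ^ 2 * e / k ≤ 1 / 100 := by
    rw [div_le_iff₀ hk0]
    linarith
  have hek2 : s * (e - 1) / k ≤ 1 / 100 := by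
    rw [div_le_iff₀ hk0]
    have h20 : s * (e - 1) = s * e - s := by ring
    rw [h20]
    linarith only [hsk, hs]
  have hAe : s * (1 / (e - 1) * A) ≤ 1 := by
    have h9 : (s : ℝ) * A ≤ e - 1 := by
      have h13 : (1 + A / 4) ^ 4 ≤ e := by
        have h7 : 1 + A / 4 ≤ Real.exp (A / 4) := by
          have := Real.add_one_le_exp (A / 4)
          linarith
        calc (1 + A / 4) ^ 4 ≤ (Real.exp (A / 4)) ^ 4 := pow_le_pow_left₀ (by linarith) h7 4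
          _ = e := by
              rw [← Real.exp_nat_mul, hee]
              congr 1
              push_cast
              ring
      have h14 : (1 : ℝ) + A + 3 / 8 * A ^ 2 + A ^ 3 / 16 ≤ (1 + A / 4) ^ 4 := by
        have : (1 + A / 4) ^ 4 = 1 + A + 3 / 8 * A ^ 2 + A ^ 3 / 16 + (A / 4) ^ 4 := by ring
        rw [this]
        have : 0 ≤ (A / 4) ^ 4 := by positivity
        linarith
      have h15 : s * A ≤ A / 2 * A := by
        apply mul_le_mul_of_nonneg_right _ hA0.le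
        linarith
      have h16 : A / 2 * A ≤ 3 / 8 * A ^ 2 + A ^ 3 / 16 := by
        have h17 : 2 * A ^ 2 ≤ A * A ^ 2 :=
          mul_le_mul_of_nonneg_right (by linarith) (sq_nonneg A)
        have h18 : A ^ 3 / 16 = A * A ^ 2 / 16 := by ring
        have h19 : A / 2 * A = A ^ 2 / 2 := by ring
        rw [h18, h19]
        linarith
      linarith
    have : s * (1 / (e - 1) * A) = s * A / (e - 1) := by
      field_simp
    rw [this, div_le_one he1]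
    exact h9
  have hexp : Real.exp (-(Q.lam * (1 - 2 * Q.c))) * Real.exp (k * w) ≤ Real.exp (-s + 2) := by
    rw [← Real.exp_add, hkw, hQl, hQc]
    have e5 : -(s * A * (1 - 2 * ((e - 1) / (A * k)))) +
        (s * (A - 1 + 1 / (e - 1) * A) + s ^ 2 * e / k) =
        -s + s * (1 / (e - 1) * A) + 2 * (s * (e - 1) / k) + s ^ 2 * e / k := by
      field_simp
      ring
    rw [e5]
    apply Real.exp_le_exp.2
    linarith
  have hP : 0 < Q.I2 ^ (k - 2) := by positivity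
  have htail : Real.exp (-(Q.lam * (1 - 2 * Q.c))) * ((1 / 3) * Q.IE ^ (k - 2)) ≤
      Real.exp (-s + 2) * ((1 / 3) * Q.I2 ^ (k - 2)) := by
    calc Real.exp (-(Q.lam * (1 - 2 * Q.c))) * ((1 / 3) * Q.IE ^ (k - 2))
        ≤ Real.exp (-(Q.lam * (1 - 2 * Q.c))) *
            ((1 / 3) * (Q.I2 ^ (k - 2) * Real.exp (k * w))) := by
          gcongr
      _ = (Real.exp (-(Q.lam * (1 - 2 * Q.c))) * Real.exp (k * w)) *
            ((1 / 3) * Q.I2 ^ (k - 2)) := by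
          ring
      _ ≤ Real.exp (-s + 2) * ((1 / 3) * Q.I2 ^ (k - 2)) := by
          apply mul_le_mul_of_nonneg_right hexp (by positivity)
  have hB : Br2 Q k 0 = (1 / 3) * Q.I2 ^ (k - 2) -
      Real.exp (-(Q.lam * (1 - 2 * Q.c))) * ((1 / 3) * Q.IE ^ (k - 2)) := by
    unfold Br2
    simp
  rw [hB]
  linarith

/-- the numerical part of the bound under the root -/
theorem numb (ε₀ e C1 d y : ℝ) (h0 : 0 < ε₀) (he : 0 < e) (he1 : e ≤ ε₀ / 2000)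
    (hd : d ≤ e * ε₀ ^ 2 / 1000000) (hyl : 2000000 * C1 / (e * ε₀ ^ 2) ≤ y) (hy0 : 0 < y) :
    8192 / e * (4 * C1 * y + y ^ 2 * (7 * e ^ 3 + 2 * d)) ≤ (ε₀ / 4 * y) ^ 2 := by
  have a1 : 8192 / e * (4 * C1 * y) ≤ ε₀ ^ 2 / 48 * y ^ 2 := by
    have h1 : 2000000 * C1 ≤ y * (e * ε₀ ^ 2) := (div_le_iff₀ (by positivity)).1 hyl
    have h2 : 8192 / e * (4 * C1 * y) = (32768 * C1) * y / e := by ring
    rw [h2, div_le_iff₀ he]
    have h3 : 32768 * C1 ≤ ε₀ ^ 2 / 48 * y * e := by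
      have h4 : ε₀ ^ 2 / 48 * y * e = y * (e * ε₀ ^ 2) / 48 := by ring
      have h5 : 0 < y * (e * ε₀ ^ 2) := by positivity
      rw [h4]
      linarith
    calc 32768 * C1 * y ≤ (ε₀ ^ 2 / 48 * y * e) * y :=
          mul_le_mul_of_nonneg_right h3 hy0.le
      _ = ε₀ ^ 2 / 48 * y ^ 2 * e := by ring
  have a2 : 8192 / e * (y ^ 2 * (7 * e ^ 3)) ≤ ε₀ ^ 2 / 48 * y ^ 2 := by
    have h2 : 8192 / e * (y ^ 2 * (7 * e ^ 3)) = 57344 * e ^ 2 * y ^ 2 := by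
      field_simp
      ring
    rw [h2]
    apply mul_le_mul_of_nonneg_right _ (by positivity)
    have h3 : e ^ 2 ≤ (ε₀ / 2000) ^ 2 := pow_le_pow_left₀ he.le he1 2
    have h4 : (ε₀ / 2000) ^ 2 = ε₀ ^ 2 / 4000000 := by ring
    have h5 : 0 < ε₀ ^ 2 := by positivity
    rw [h4] at h3
    linarith
  have a3 : 8192 / e * (y ^ 2 * (2 * d)) ≤ ε₀ ^ 2 / 48 * y ^ 2 := by
    have h2 : 8192 / e * (y ^ 2 * (2 * d)) = (16384 * d / e) * y ^ 2 := by ring
    rw [h2]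
    apply mul_le_mul_of_nonneg_right _ (by positivity)
    rw [div_le_iff₀ he]
    have h4 : ε₀ ^ 2 / 48 * e = e * ε₀ ^ 2 / 48 := by ring
    have h5 : 0 < e * ε₀ ^ 2 := by positivity
    rw [h4]
    linarith
  have a4 : 8192 / e * (4 * C1 * y + y ^ 2 * (7 * e ^ 3 + 2 * d)) =
    8192 / e * (4 * C1 * y) + 8192 / e * (y ^ 2 * (7 * e ^ 3)) +
      8192 / e * (y ^ 2 * (2 * d)) := by ring
  rw [a4]
  have a5 : (ε₀ / 4 * y) ^ 2 = ε₀ ^ 2 / 48 * y ^ 2 + ε₀ ^ 2 / 48 * y ^ 2 +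
    ε₀ ^ 2 / 48 * y ^ 2 := by ring
  rw [a5]
  linarith

/-- the algebra of the base inequality -/
theorem core (ε₀ e C1 K J T P b b2 d g y : ℝ) (h0 : 0 < ε₀) (h01 : ε₀ ≤ 1 / 100) (he : 0 < e)
    (he1 : e ≤ ε₀ / 2000) (hC : 1 ≤ C1) (hK : 0 < K) (hJ : 0 < J) (hT : 0 < T) (hP : 0 < P)
    (hd0 : 0 ≤ d) (hd : d ≤ e * ε₀ ^ 2 / 1000000) (hb : 1 - d ≤ b) (hb1 : b ≤ 1)
    (hb2 : 1 - d ≤ b2) (hg : g = e / 4 / (1 / 4 + ε₀ / 8)) (hy : y = K * g * (J ^ 2 / T))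
    (hyl : 2000000 * C1 / (e * ε₀ ^ 2) ≤ y) :
    (1 + (K * g * (J ^ 2 / T) + Real.sqrt (1024 / (e / 4 * (J ^ 2 * (b * (P * T ^ 2)))) *
      (K * (2 * C1 * (g * ((1 + e ^ 3) * (J ^ 4 * (P * T))))) + K ^ 2 * g ^ 2 *
        max 0 ((1 + e ^ 3) ^ 2 * (J ^ 6 * P) -
          2 * (J ^ 2 / T) * ((1 - 2 * e ^ 3) * (J ^ 4 * (b2 * (P * T)))) +
          (J ^ 2 / T) ^ 2 * (J ^ 2 * (P * T ^ 2))))))) * (P * T ^ 3) <
      4 * (K * (e / 4 * (J ^ 2 * (b * (P * T ^ 2))))) := by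
  have he2 : e ≤ 1 / 200000 := by linarith
  have he3 : 0 < e ^ 3 := by positivity
  have he3' : e ^ 3 ≤ 1 / 1000 := by
    calc e ^ 3 ≤ (1 / 200000) ^ 3 := pow_le_pow_left₀ he.le he2 3
      _ ≤ 1 / 1000 := by norm_num
  have h02 : ε₀ ^ 2 ≤ 1 / 10000 := by
    calc ε₀ ^ 2 ≤ (1 / 100) ^ 2 := pow_le_pow_left₀ h0.le h01 2
      _ = 1 / 10000 := by norm_num
  have h0sq : 0 < ε₀ ^ 2 := by positivity
  have hd1 : d ≤ ε₀ / 32 := by
    refine hd.trans ?_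
    have h1 : e * ε₀ ^ 2 ≤ 1 * ε₀ := by
      have : ε₀ ^ 2 ≤ ε₀ := by nlinarith
      exact mul_le_mul (by linarith) this h0sq.le (by norm_num)
    linarith
  have hd2 : d ≤ 1 / 2 := by linarith
  have hb0 : 0 < b := by linarith
  have hg0 : 0 < g := by rw [hg]; positivity
  have hy0 : 0 < y := by rw [hy]; positivity
  -- the maximum
  have hmax : max 0 ((1 + e ^ 3) ^ 2 * (J ^ 6 * P) -
          2 * (J ^ 2 / T) * ((1 - 2 * e ^ 3) * (J ^ 4 * (b2 * (P * T)))) +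
          (J ^ 2 / T) ^ 2 * (J ^ 2 * (P * T ^ 2))) ≤ J ^ 6 * P * (7 * e ^ 3 + 2 * d) := by
    apply max_le (by positivity)
    have e1 : (1 + e ^ 3) ^ 2 * (J ^ 6 * P) -
          2 * (J ^ 2 / T) * ((1 - 2 * e ^ 3) * (J ^ 4 * (b2 * (P * T)))) +
          (J ^ 2 / T) ^ 2 * (J ^ 2 * (P * T ^ 2)) =
        J ^ 6 * P * ((1 + e ^ 3) ^ 2 - 2 * ((1 - 2 * e ^ 3) * b2) + 1) := by
      field_simp
    rw [e1]
    apply mul_le_mul_of_nonneg_left _ (by positivity)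
    have h1 : (1 - 2 * e ^ 3) * (1 - d) ≤ (1 - 2 * e ^ 3) * b2 :=
      mul_le_mul_of_nonneg_left hb2 (by linarith)
    have h2 : (e ^ 3) ^ 2 ≤ e ^ 3 := by nlinarith
    have h3 : 0 ≤ e ^ 3 * d := by positivity
    nlinarith
  -- under the root
  have hroot : 1024 / (e / 4 * (J ^ 2 * (b * (P * T ^ 2)))) *
      (K * (2 * C1 * (g * ((1 + e ^ 3) * (J ^ 4 * (P * T))))) + K ^ 2 * g ^ 2 *
        max 0 ((1 + e ^ 3) ^ 2 * (J ^ 6 * P) -
          2 * (J ^ 2 / T) * ((1 - 2 * e ^ 3) * (J ^ 4 * (b2 * (P * T)))) +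
          (J ^ 2 / T) ^ 2 * (J ^ 2 * (P * T ^ 2)))) ≤ (ε₀ / 4 * y) ^ 2 := by
    calc 1024 / (e / 4 * (J ^ 2 * (b * (P * T ^ 2)))) *
      (K * (2 * C1 * (g * ((1 + e ^ 3) * (J ^ 4 * (P * T))))) + K ^ 2 * g ^ 2 *
        max 0 ((1 + e ^ 3) ^ 2 * (J ^ 6 * P) -
          2 * (J ^ 2 / T) * ((1 - 2 * e ^ 3) * (J ^ 4 * (b2 * (P * T)))) +
          (J ^ 2 / T) ^ 2 * (J ^ 2 * (P * T ^ 2)))) ≤
        1024 / (e / 4 * (J ^ 2 * (b * (P * T ^ 2)))) *
      (K * (2 * C1 * (g * (2 * (J ^ 4 * (P * T))))) + K ^ 2 * g ^ 2 *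
        (J ^ 6 * P * (7 * e ^ 3 + 2 * d))) := by
          gcongr
          linarith
      _ = 4096 / (e * b) * (4 * C1 * y + y ^ 2 * (7 * e ^ 3 + 2 * d)) := by
          rw [hy]
          field_simp
          ring
      _ ≤ 8192 / e * (4 * C1 * y + y ^ 2 * (7 * e ^ 3 + 2 * d)) := by
          apply mul_le_mul_of_nonneg_right _ (by positivity)
          rw [div_le_div_iff₀ (by positivity) he]
          nlinarith
      _ ≤ (ε₀ / 4 * y) ^ 2 := numb ε₀ e C1 d y h0 he he1 hd hyl hy0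
  have hsqrt := Real.sqrt_le_sqrt hroot
  rw [Real.sqrt_sq (by positivity)] at hsqrt
  -- the last comparison
  have hyb : 32 / ε₀ ≤ y := by
    refine le_trans ?_ hyl
    rw [div_le_div_iff₀ h0 (by positivity)]
    have h1 : e * ε₀ ^ 2 ≤ ε₀ := by nlinarith
    nlinarith
  have hyb' : 32 ≤ y * ε₀ := (div_le_iff₀ h0).1 hyb
  have hgt : K * e * (J ^ 2 / T) = (1 + ε₀ / 2) * y := by
    rw [hy, hg]
    field_simp
    ring
  have hkey : 1 + (y + ε₀ / 4 * y) < (1 + ε₀ / 2) * y * b := by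
    have h1 : (1 + ε₀ / 2) * y * (1 - ε₀ / 32) ≤ (1 + ε₀ / 2) * y * b := by
      apply mul_le_mul_of_nonneg_left (by linarith) (by positivity)
    have h2 : (1 + ε₀ / 2) * y * (1 - ε₀ / 32) = y + 15 / 32 * (y * ε₀) - y * ε₀ * ε₀ / 64 := by
      ring
    have h3 : y * ε₀ * ε₀ ≤ y * ε₀ * (1 / 100) :=
      mul_le_mul_of_nonneg_left h01 (by positivity)
    rw [h2] at h1
    linarith only [h1, h3, hyb']
  have hfac : 0 < P * T ^ 3 := by positivity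
  calc (1 + (K * g * (J ^ 2 / T) + Real.sqrt (1024 / (e / 4 * (J ^ 2 * (b * (P * T ^ 2)))) *
      (K * (2 * C1 * (g * ((1 + e ^ 3) * (J ^ 4 * (P * T))))) + K ^ 2 * g ^ 2 *
        max 0 ((1 + e ^ 3) ^ 2 * (J ^ 6 * P) -
          2 * (J ^ 2 / T) * ((1 - 2 * e ^ 3) * (J ^ 4 * (b2 * (P * T)))) +
          (J ^ 2 / T) ^ 2 * (J ^ 2 * (P * T ^ 2))))))) * (P * T ^ 3)
      ≤ (1 + (y + ε₀ / 4 * y)) * (P * T ^ 3) := by
        apply mul_le_mul_of_nonneg_right _ hfac.le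
        rw [← hy]
        linarith
    _ < ((1 + ε₀ / 2) * y * b) * (P * T ^ 3) := mul_lt_mul_of_pos_right hkey hfac
    _ = 4 * (K * (e / 4 * (J ^ 2 * (b * (P * T ^ 2))))) := by
        rw [← hgt]
        field_simp

/-- the strict inequality at `ε = 0` -/
theorem base (ε₀ ε₁ C1 : ℝ) (h0 : 0 < ε₀) (h01 : ε₀ ≤ 1 / 100) (he : 0 < ε₁)
    (he1 : ε₁ ≤ ε₀ / 2000) (hC : 1 ≤ C1) : ∃ (K : ℕ) (Q : SPar), 2 ≤ K ∧ 0 < Q.I1 ∧ 0 < Q.I2 ∧
    0 < Br Q (4 * K) 0 ∧ 0 < Br2 Q (4 * K) 0 ∧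
    (1 + muc Q K ε₀ ε₁ (ε₁ / 4) C1 0) * ((1 + 2 * 0) * Ac Q (4 * K) 0) <
      4 * (K * (ε₁ / 4 * βc Q (4 * K) 0)) := by
  set s : ℝ := 2 + 1000000 / (ε₁ * ε₀ ^ 2) with hs
  set A : ℝ := 2 * s + 4 + 16000000 * C1 / (ε₁ ^ 2 * ε₀ ^ 2) with hA
  have hs0 : 0 < 1000000 / (ε₁ * ε₀ ^ 2) := by positivity
  have hA0 : 0 < 16000000 * C1 / (ε₁ ^ 2 * ε₀ ^ 2) := by positivity
  have hs1 : 1 ≤ s := by rw [hs]; linarith
  have hAs : 2 * s + 4 ≤ A := by rw [hA]; linarith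
  have hA4 : 4 ≤ A := by linarith
  obtain ⟨K', hK'⟩ := exists_nat_ge (100 * s ^ 2 * Real.exp A)
  set K : ℕ := K' + 2 with hK
  have hKR : 100 * s ^ 2 * Real.exp A ≤ (K : ℝ) := by
    rw [hK]; push_cast; linarith
  have hK2 : 2 ≤ K := by omega
  have hK2R : (2 : ℝ) ≤ K := by exact_mod_cast hK2
  have hkK : (K : ℝ) ≤ ((4 * K : ℕ) : ℝ) := by
    push_cast
    linarith
  obtain ⟨Q, hQG, hQc, hQl⟩ := exists_parS A s hA4 hs1 (4 * K) (hKR.trans hkK)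
  obtain ⟨hI1, hI2, hI2le, hBl, hBu⟩ := Br_zero_bounds A s hs1 hAs (4 * K) (hKR.trans hkK) Q
    hQG hQc hQl
  have hBl2 := Br2_zero_bounds A s hs1 hAs (4 * K) (hKR.trans hkK) Q hQG hQc hQl
  set d : ℝ := Real.exp (-s + 2) with hd
  have hd0 : 0 < d := Real.exp_pos _
  have hd1 : d ≤ ε₁ * ε₀ ^ 2 / 1000000 := by
    have h1 : d = (Real.exp (1000000 / (ε₁ * ε₀ ^ 2)))⁻¹ := by
      rw [hd, ← Real.exp_neg]
      congr 1
      rw [hs]; ring
    have h2 : 1000000 / (ε₁ * ε₀ ^ 2) ≤ Real.exp (1000000 / (ε₁ * ε₀ ^ 2)) := by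
      have := Real.add_one_le_exp (1000000 / (ε₁ * ε₀ ^ 2))
      linarith
    rw [h1]
    calc (Real.exp (1000000 / (ε₁ * ε₀ ^ 2)))⁻¹ ≤ (1000000 / (ε₁ * ε₀ ^ 2))⁻¹ :=
          inv_anti₀ hs0 h2
      _ = ε₁ * ε₀ ^ 2 / 1000000 := by rw [inv_div]
  have hd2 : d ≤ 1 / 2 := by
    have h1 : ε₁ * ε₀ ^ 2 ≤ 1 * 1 := by
      apply mul_le_mul (by linarith) _ (by positivity) (by norm_num)
      nlinarith
    linarith
  set k : ℕ := 4 * K with hk
  have hkcast : (k : ℝ) = 4 * K := by rw [hk]; push_cast; ring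
  have hk3 : 3 ≤ k := by omega
  have hK0 : (0 : ℝ) < K := by linarith
  have hk0 : (0 : ℝ) < k := by rw [hkcast]; positivity
  set T : ℝ := Q.I2 with hT
  set P : ℝ := (1 / 3) * T ^ (k - 3) with hP
  have hP0 : 0 < P := by positivity
  have hpow1 : (1 / 3) * T ^ (k - 2) = P * T := by
    have : k - 2 = (k - 3) + 1 := by omega
    rw [this, pow_succ, hP]; ring
  have hpow2 : (1 / 3) * T ^ (k - 1) = P * T ^ 2 := by
    have : k - 1 = (k - 3) + 2 := by omega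
    rw [hP, mul_assoc, ← pow_add, ← this]
  have hpow3 : (1 / 3) * T ^ k = P * T ^ 3 := by
    have : k = (k - 3) + 3 := by omega
    rw [hP, mul_assoc, ← pow_add, ← this]
  have hPT : 0 < P * T := by positivity
  have hPT2 : 0 < P * T ^ 2 := by positivity
  rw [hpow1] at hBl2
  rw [hpow2] at hBl hBu
  set b : ℝ := Br Q k 0 / (P * T ^ 2) with hb
  set b2 : ℝ := Br2 Q k 0 / (P * T) with hb2
  have hBb : Br Q k 0 = b * (P * T ^ 2) := by
    rw [hb]; field_simp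
  have hBb2 : Br2 Q k 0 = b2 * (P * T) := by
    rw [hb2]; field_simp
  have hb1 : 1 - d ≤ b := by
    rw [hb, le_div_iff₀ hPT2]; exact hBl
  have hb1' : b ≤ 1 := by
    rw [hb, div_le_one hPT2]; exact hBu
  have hb21 : 1 - d ≤ b2 := by
    rw [hb2, le_div_iff₀ hPT]; exact hBl2
  have hJ : 0 < Q.I1 := by rw [hI1]; positivity
  have hBpos : 0 < Br Q k 0 := by
    rw [hBb]
    have : 0 < b := by linarith
    positivity
  have hB2pos : 0 < Br2 Q k 0 := by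
    rw [hBb2]
    have : 0 < b2 := by linarith
    positivity
  set g : ℝ := ε₁ / 4 / (1 / 4 + ε₀ / 8) with hg
  have hg0 : 0 < g := by rw [hg]; positivity
  have hyl : 2000000 * C1 / (ε₁ * ε₀ ^ 2) ≤ K * g * (Q.I1 ^ 2 / T) := by
    have h1 : A / k ≤ Q.I1 ^ 2 / T := by
      rw [le_div_iff₀ hI2, hI1]
      calc A / k * T ≤ A / k * (1 / (A * k)) := by
            apply mul_le_mul_of_nonneg_left hI2le
            have : 0 < A := by linarith
            positivity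
        _ = (1 / (k : ℝ)) ^ 2 := by
            have : A ≠ 0 := by
              have : 0 < A := by linarith
              exact this.ne'
            field_simp
    have h2 : ε₁ / 2 ≤ g := by
      rw [hg, le_div_iff₀ (by positivity)]
      have h4 : ε₁ * ε₀ ≤ ε₁ * (1 / 100) := mul_le_mul_of_nonneg_left h01 he.le
      have h5 : ε₁ / 2 * (1 / 4 + ε₀ / 8) = ε₁ / 8 + ε₁ * ε₀ / 16 := by ring
      rw [h5]
      linarith
    have h3 : 16000000 * C1 / (ε₁ ^ 2 * ε₀ ^ 2) ≤ A := by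
      rw [hA]; linarith
    calc 2000000 * C1 / (ε₁ * ε₀ ^ 2) =
          (ε₁ / 2) * (1 / 4) * (16000000 * C1 / (ε₁ ^ 2 * ε₀ ^ 2)) := by
          field_simp
          ring
      _ ≤ (ε₁ / 2) * (1 / 4) * A := by
          apply mul_le_mul_of_nonneg_left h3 (by positivity)
      _ = K * (ε₁ / 2) * (A / k) := by
          rw [hkcast]; field_simp
      _ ≤ K * g * (Q.I1 ^ 2 / T) := by
          have hA1 : 0 < A := by linarith
          apply mul_le_mul _ h1 (by positivity) (by positivity)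
          apply mul_le_mul_of_nonneg_left h2 hK0.le
  have hcore := core ε₀ ε₁ C1 K Q.I1 T P b b2 d g (K * g * (Q.I1 ^ 2 / T)) h0 h01 he he1 hC hK0
    hJ hI2 hP0 hd0.le hd1 hb1 hb1' hb21 hg rfl hyl
  refine ⟨K, Q, hK2, hJ, hI2, hBpos, hB2pos, ?_⟩
  have eA : Ac Q k 0 = P * T ^ 3 := by
    unfold Ac
    rw [← hpow3]; simp [hT]
  have eβ : βc Q k 0 = Q.I1 ^ 2 * (b * (P * T ^ 2)) := by
    unfold βc
    rw [hBb]; simp
  have eg : g0c ε₀ (ε₁ / 4) 0 = g := by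
    unfold g0c
    rw [hg]; simp
  have er : r0c Q k 0 = Q.I1 ^ 2 * (P * T ^ 2) := by
    unfold r0c
    rw [← hpow2]
    simp only [add_zero, sub_zero, one_pow, div_one, one_mul, mul_one, ← hT]
    ring
  have el : l1c Q k ε₁ 0 = (1 - 2 * ε₁ ^ 3) * (Q.I1 ^ 4 * (b2 * (P * T))) := by
    unfold l1c
    rw [hBb2]; simp
  have eu : u2c Q k ε₁ 0 = (1 + ε₁ ^ 3) ^ 2 * (Q.I1 ^ 6 * P) := by
    unfold u2c
    rw [hP]
    simp only [add_zero, sub_zero, one_pow, div_one, one_mul, mul_one, ← hT]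
    ring
  have ed : udc Q k ε₁ 0 = (1 + ε₁ ^ 3) * (Q.I1 ^ 4 * (P * T)) := by
    unfold udc
    rw [← hpow1]
    simp only [add_zero, sub_zero, one_pow, div_one, one_mul, mul_one, ← hT]
    ring
  have emu : muc Q K ε₀ ε₁ (ε₁ / 4) C1 0 =
      K * g * (Q.I1 ^ 2 / T) + Real.sqrt (1024 / (ε₁ / 4 * (Q.I1 ^ 2 * (b * (P * T ^ 2)))) *
      (K * (2 * C1 * (g * ((1 + ε₁ ^ 3) * (Q.I1 ^ 4 * (P * T))))) + (K : ℝ) ^ 2 * g ^ 2 *
        max 0 ((1 + ε₁ ^ 3) ^ 2 * (Q.I1 ^ 6 * P) -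
          2 * (Q.I1 ^ 2 / T) * ((1 - 2 * ε₁ ^ 3) * (Q.I1 ^ 4 * (b2 * (P * T)))) +
          (Q.I1 ^ 2 / T) ^ 2 * (Q.I1 ^ 2 * (P * T ^ 2))))) := by
    unfold muc qc
    rw [← hk, eg, eβ, ed, eu, el, er]
  rw [emu, eA, eβ]
  simpa using hcore

theorem main : St_NUM := by
  intro ε₀ h0 h01
  refine ⟨ε₀ / 2000, by positivity, ?_⟩
  intro ε₁ he he1 C1 hC
  obtain ⟨K, Q, hK, hI1, hI2, hB, hB2, hb⟩ := base ε₀ ε₁ C1 h0 h01 he he1 hC
  have hcB : Continuous fun ε : ℝ => Br Q (4 * K) ε := by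
    unfold Br
    fun_prop
  have hcB2 : Continuous fun ε : ℝ => Br2 Q (4 * K) ε := by
    unfold Br2
    fun_prop
  have hcβ : Continuous fun ε : ℝ => βc Q (4 * K) ε := by
    unfold βc
    fun_prop
  have hcA : Continuous fun ε : ℝ => Ac Q (4 * K) ε := by
    unfold Ac
    fun_prop
  have hβ0 : βc Q (4 * K) 0 ≠ 0 := by
    have : βc Q (4 * K) 0 = Q.I1 ^ 2 * Br Q (4 * K) 0 := by
      unfold βc
      simp
    rw [this]
    positivity
  have hg : ContinuousAt (fun ε : ℝ => g0c ε₀ (ε₁ / 4) ε) 0 := by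
    unfold g0c
    apply ContinuousAt.div (by fun_prop) (by fun_prop)
    have : (0 : ℝ) < (1 / 4 + ε₀ / 8) * (1 - 0) := by
      rw [sub_zero]; positivity
    exact this.ne'
  have hdv : ∀ n : ℕ, ContinuousAt (fun ε : ℝ => (Q.I1 + ε) ^ n / (1 - ε) ^ 2) 0 := by
    intro n
    apply ContinuousAt.div (by fun_prop) (by fun_prop)
    norm_num
  have hr : ContinuousAt (fun ε : ℝ => r0c Q (4 * K) ε) 0 := by
    unfold r0c
    have h1 := hdv 2
    have h2 : ContinuousAt (fun ε : ℝ => (1 + ε)) 0 := by fun_prop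
    have h3 : ContinuousAt (fun ε : ℝ => (1 / 3 + ε)) 0 := by fun_prop
    have h4 : ContinuousAt (fun ε : ℝ => (Q.I2 + ε) ^ (4 * K - 1)) 0 := by fun_prop
    exact (h2.mul (((h1.mul h2).mul h3).mul h4)).add continuousAt_id
  have hu : ContinuousAt (fun ε : ℝ => u2c Q (4 * K) ε₁ ε) 0 := by
    unfold u2c
    have h1 := hdv 6
    have h2 : ContinuousAt (fun ε : ℝ => (1 + ε)) 0 := by fun_prop
    have h3 : ContinuousAt (fun ε : ℝ => (1 / 3 + ε)) 0 := by fun_prop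
    have h4 : ContinuousAt (fun ε : ℝ => (Q.I2 + ε) ^ (4 * K - 3)) 0 := by fun_prop
    exact ((h2.mul continuousAt_const).mul (((h1.mul h2).mul h3).mul h4)).add continuousAt_id
  have hud : ContinuousAt (fun ε : ℝ => udc Q (4 * K) ε₁ ε) 0 := by
    unfold udc
    have h1 := hdv 4
    have h2 : ContinuousAt (fun ε : ℝ => (1 + ε)) 0 := by fun_prop
    have h3 : ContinuousAt (fun ε : ℝ => (1 / 3 + ε)) 0 := by fun_prop
    have h4 : ContinuousAt (fun ε : ℝ => (Q.I2 + ε) ^ (4 * K - 2)) 0 := by fun_prop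
    exact ((h2.mul continuousAt_const).mul (((h1.mul h2).mul h3).mul h4)).add continuousAt_id
  have hl : ContinuousAt (fun ε : ℝ => l1c Q (4 * K) ε₁ ε) 0 := by
    unfold l1c
    have h1 : ContinuousAt (fun ε : ℝ => (1 - ε) ^ 4 * (Q.I1 - ε) ^ 4 / (1 + ε) ^ 2) 0 := by
      apply ContinuousAt.div (by fun_prop) (by fun_prop)
      norm_num
    have h2 : ContinuousAt (fun ε : ℝ => (1 - ε)) 0 := by fun_prop
    have h3 : ContinuousAt (fun ε : ℝ => 2 * ε) 0 := by fun_prop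
    exact ((h2.mul continuousAt_const).mul ((h1.mul h2).mul hcB2.continuousAt)).sub h3
  have hq : ContinuousAt (fun ε : ℝ => qc Q (4 * K) ε₁ ε) 0 := by
    unfold qc
    have h1 : ContinuousAt (fun ε : ℝ => u2c Q (4 * K) ε₁ ε -
        2 * (Q.I1 ^ 2 / Q.I2) * l1c Q (4 * K) ε₁ ε +
        (Q.I1 ^ 2 / Q.I2) ^ 2 * r0c Q (4 * K) ε) 0 :=
      (hu.sub (continuousAt_const.mul hl)).add (continuousAt_const.mul hr)
    exact Filter.Tendsto.max tendsto_const_nhds h1.tendsto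
  have hmu : ContinuousAt (fun ε : ℝ => muc Q K ε₀ ε₁ (ε₁ / 4) C1 ε) 0 := by
    unfold muc
    have h1 : ContinuousAt (fun ε : ℝ => 1024 / (ε₁ / 4 * βc Q (4 * K) ε)) 0 := by
      apply ContinuousAt.div continuousAt_const (continuousAt_const.mul hcβ.continuousAt)
      have : ε₁ / 4 ≠ 0 := by positivity
      exact mul_ne_zero this hβ0
    have h2 : ContinuousAt (fun ε : ℝ => (K : ℝ) * (2 * C1 * (g0c ε₀ (ε₁ / 4) ε *
        udc Q (4 * K) ε₁ ε)) + (K : ℝ) ^ 2 * g0c ε₀ (ε₁ / 4) ε ^ 2 * qc Q (4 * K) ε₁ ε) 0 :=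
      (continuousAt_const.mul (continuousAt_const.mul (hg.mul hud))).add
        ((continuousAt_const.mul (hg.pow 2)).mul hq)
    exact ((continuousAt_const.mul hg).mul continuousAt_const).add (h1.mul h2).sqrt
  have hc1 : ContinuousAt (fun ε : ℝ => (1 + muc Q K ε₀ ε₁ (ε₁ / 4) C1 ε) *
      ((1 + 2 * ε) * Ac Q (4 * K) ε)) 0 := by
    apply ContinuousAt.mul (continuousAt_const.add hmu)
    apply ContinuousAt.mul (by fun_prop) hcA.continuousAt
  have hc2 : ContinuousAt (fun ε : ℝ => 4 * (K * (ε₁ / 4 * βc Q (4 * K) ε))) 0 :=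
    continuousAt_const.mul (continuousAt_const.mul (continuousAt_const.mul hcβ.continuousAt))
  have hev : ∀ᶠ ε : ℝ in 𝓝 0, (1 + muc Q K ε₀ ε₁ (ε₁ / 4) C1 ε) *
      ((1 + 2 * ε) * Ac Q (4 * K) ε) < 4 * (K * (ε₁ / 4 * βc Q (4 * K) ε)) :=
    hc1.tendsto.eventually_lt hc2.tendsto hb
  have hev1 : ∀ᶠ ε : ℝ in 𝓝 0, ε < 1 / 3 := gt_mem_nhds (by norm_num)
  have hev2 : ∀ᶠ ε : ℝ in 𝓝 0, ε < Q.I1 := gt_mem_nhds hI1
  have hev3 : ∀ᶠ ε : ℝ in 𝓝 0, ε < Q.I2 := gt_mem_nhds hI2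
  have hev4 : ∀ᶠ ε : ℝ in 𝓝 0, 0 < Br Q (4 * K) ε :=
    (hcB.tendsto (0 : ℝ)).eventually (lt_mem_nhds hB)
  have hev5 : ∀ᶠ ε : ℝ in 𝓝 0, 0 < Br2 Q (4 * K) ε :=
    (hcB2.tendsto (0 : ℝ)).eventually (lt_mem_nhds hB2)
  have hall := ((hev.and (hev1.and (hev2.and (hev3.and (hev4.and hev5))))).filter_mono
    (nhdsWithin_le_nhds (s := Set.Ioi (0 : ℝ)))).and (self_mem_nhdsWithin (s := Set.Ioi (0 : ℝ)))
  obtain ⟨ε, ⟨h1, h2, h3, h4, h5, h6⟩, h7⟩ := hall.exists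
  exact ⟨K, Q, ε, hK, h7, h2, h3, h4, h5, h6, h1⟩

end Pool.Agent.W352.UBNum
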