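import Pool.Agent.W95.BK.Stm

/-!
# Project BK, part TYPE2: repelling fixed points of types II-IV are of type II
-/

open Polynomial Topology Filter
open Pool.Agent.W95.BK

namespace Pool.Agent.W352.BKT2

universe u

section aux
variable {K : Type u} [NontriviallyNormedField K]

lemma cnt_mono [IsUltrametricDist K] (f : RMap K) {U V : Set (P1B K)} (h : U ⊆ V) (b : K) :
    cnt f U b ≤ cnt f V b := by
  classical
  unfold cnt
  exact Multiset.card_le_card (Multiset.monotone_filter_right _ fun w hw => h hw)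

lemma cnt_eq [IsUltrametricDist K] (f : RMap K) (V : Set (P1B K)) (S : Set K) (b : K)
    (h1 : (OnePoint.infty : P1B K) ∉ V) (h2 : ∀ w : K, ((cl w : BA K) : P1B K) ∈ V ↔ w ∈ S) :
    cnt f V b = nIn (f.P - C b * f.Q) S := by
  classical
  unfold cnt fib nIn
  rw [Multiset.filter_add, Multiset.filter_map, Multiset.card_add, Multiset.card_map]
  have e : Multiset.filter (fun w => w ∈ V) (Multiset.replicate
      (f.d - (f.P - C b * f.Q).natDegree) (OnePoint.infty : P1B K)) = 0 := by
    rw [Multiset.filter_eq_nil]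
    intro w hw
    rw [Multiset.eq_of_mem_replicate hw]
    exact h1
  rw [e, Multiset.card_zero, add_zero]
  congr 1
  refine Multiset.filter_congr fun w _ => ?_
  exact h2 w

lemma nIn_congr (g : K[X]) {S T : Set K} (h : ∀ w ∈ g.roots, (w ∈ S ↔ w ∈ T)) :
    nIn g S = nIn g T := by
  classical
  unfold nIn
  congr 1
  exact Multiset.filter_congr h

lemma nIn_add (g : K[X]) {S T R : Set K} (h : ∀ w, w ∈ R ↔ (w ∈ S ∨ w ∈ T))
    (hd : ∀ w, w ∈ S → w ∉ T) : nIn g R = nIn g S + nIn g T := by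
  classical
  unfold nIn
  rw [← Multiset.card_add]
  congr 1
  rw [Multiset.filter_add_filter]
  have e : Multiset.filter (fun w => w ∈ S ∧ w ∈ T) g.roots = 0 := by
    rw [Multiset.filter_eq_nil]
    rintro w _ ⟨h1, h2⟩
    exact hd w h1 h2
  rw [e, add_zero]
  exact Multiset.filter_congr fun w _ => h w

lemma nIn_C_mul (g : K[X]) {c : K} (hc : c ≠ 0) (S : Set K) : nIn (C c * g) S = nIn g S := by
  unfold nIn
  rw [roots_C_mul _ hc]

lemma BA_neg (x : BA K) (g : K[X]) : x (-g) = x g := by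
  have e : -g = C (-1) * g := by simp
  rw [e, x.map_mul', x.map_C']
  simp

lemma BA_sub (x : BA K) (g h : K[X]) : x (g - h) ≤ max (x g) (x h) := by
  rw [sub_eq_add_neg, ← BA_neg x h]
  exact x.map_add' _ _

lemma nIn_eq (hN : S_NPOL.{u}) [IsUltrametricDist K] [IsAlgClosed K] {F G : K[X]} {a : K} {r : ℝ}
    (hr : 0 < r) (hF : F ≠ 0) (h : gn a r (G - F) < gn a r F) :
    nIn G {w | ‖w - a‖ < r} = nIn F {w | ‖w - a‖ < r} ∧
      nIn G {w | ‖w - a‖ ≤ r} = nIn F {w | ‖w - a‖ ≤ r} := by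
  by_cases hD : G - F = 0
  · rw [sub_eq_zero.1 hD]
    exact ⟨rfl, rfl⟩
  have hG : G ≠ 0 := by
    intro h0
    rw [h0, zero_sub] at h
    have : gn a r (-F) = gn a r F := BA_neg (gauss a r hr) F
    rw [this] at h
    exact lt_irrefl _ h
  obtain ⟨-, hDi, -⟩ := hN K (G - F) a r hD hr
  obtain ⟨-, -, f1, f2, f3, f4⟩ := hN K F a r hF hr
  obtain ⟨-, -, g1, g2, g3, g4⟩ := hN K G a r hG hr
  have hgn : gn a r G = gn a r F := by
    apply le_antisymm
    · have h1 : gn a r (F + (G - F)) ≤ max (gn a r F) (gn a r (G - F)) :=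
        (gauss a r hr).map_add' _ _
      rw [add_sub_cancel] at h1
      exact h1.trans (max_le le_rfl h.le)
    · have h1 : gn a r (G - (G - F)) ≤ max (gn a r G) (gn a r (G - F)) :=
        BA_sub (gauss a r hr) _ _
      rw [sub_sub_cancel] at h1
      rcases le_max_iff.1 h1 with h2 | h2
      · exact h2
      · exact absurd h2 (not_le.2 h)
  have k1 : ∀ i, ‖(taylor a F).coeff i‖ * r ^ i ≤
      max (‖(taylor a G).coeff i‖ * r ^ i) (gn a r (G - F)) := by
    intro i
    have e : (taylor a F).coeff i = (taylor a G).coeff i - (taylor a (G - F)).coeff i := by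
      rw [map_sub, coeff_sub]
      ring
    have h1 : ‖(taylor a F).coeff i‖ ≤
        max ‖(taylor a G).coeff i‖ ‖(taylor a (G - F)).coeff i‖ := by
      rw [e, sub_eq_add_neg]
      have h0 := IsUltrametricDist.norm_add_le_max ((taylor a G).coeff i)
        (-(taylor a (G - F)).coeff i)
      rw [norm_neg] at h0
      exact h0
    have h2 : (0 : ℝ) ≤ r ^ i := by positivity
    rcases le_max_iff.1 h1 with h3 | h3
    · exact le_max_of_le_left (mul_le_mul_of_nonneg_right h3 h2)
    · exact le_max_of_le_right ((mul_le_mul_of_nonneg_right h3 h2).trans (hDi i))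
  have k2 : ∀ i, ‖(taylor a G).coeff i‖ * r ^ i ≤
      max (‖(taylor a F).coeff i‖ * r ^ i) (gn a r (G - F)) := by
    intro i
    have e : (taylor a G).coeff i = (taylor a F).coeff i + (taylor a (G - F)).coeff i := by
      rw [map_sub, coeff_sub]
      ring
    have h1 : ‖(taylor a G).coeff i‖ ≤
        max ‖(taylor a F).coeff i‖ ‖(taylor a (G - F)).coeff i‖ := by
      rw [e]
      exact IsUltrametricDist.norm_add_le_max _ _
    have h2 : (0 : ℝ) ≤ r ^ i := by positivity
    rcases le_max_iff.1 h1 with h3 | h3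
    · exact le_max_of_le_left (mul_le_mul_of_nonneg_right h3 h2)
    · exact le_max_of_le_right ((mul_le_mul_of_nonneg_right h3 h2).trans (hDi i))
  have m1 : ∀ i, ‖(taylor a F).coeff i‖ * r ^ i = gn a r F →
      ‖(taylor a G).coeff i‖ * r ^ i < gn a r G → False := by
    intro i h1 h2
    have h3 := k1 i
    rw [h1] at h3
    rw [hgn] at h2
    rcases le_max_iff.1 h3 with h4 | h4
    · exact absurd h4 (not_le.2 h2)
    · exact absurd h4 (not_le.2 h)
  have m2 : ∀ i, ‖(taylor a G).coeff i‖ * r ^ i = gn a r G →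
      ‖(taylor a F).coeff i‖ * r ^ i < gn a r F → False := by
    intro i h1 h2
    have h3 := k2 i
    rw [h1, hgn] at h3
    rcases le_max_iff.1 h3 with h4 | h4
    · exact absurd h4 (not_le.2 h2)
    · exact absurd h4 (not_le.2 h)
  constructor
  · rcases lt_trichotomy (nIn G {w | ‖w - a‖ < r}) (nIn F {w | ‖w - a‖ < r}) with h1 | h1 | h1
    · exact (m2 _ g1 (f2 _ h1)).elim
    · exact h1
    · exact (m1 _ f1 (g2 _ h1)).elim
  · rcases lt_trichotomy (nIn G {w | ‖w - a‖ ≤ r}) (nIn F {w | ‖w - a‖ ≤ r}) with h1 | h1 | h1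
    · exact (m1 _ f3 (g4 _ h1)).elim
    · exact h1
    · exact (m2 _ g3 (f4 _ h1)).elim

lemma mem_ball_cl (hG : S_GLAM.{u}) [IsUltrametricDist K] (a w : K) (r : ℝ) :
    ((cl w : BA K) : P1B K) ∈ ball a r ↔ ‖w - a‖ < r := by
  have e := (hG K w a).1
  constructor
  · rintro ⟨y, hy, hlt⟩
    have : cl w = y := OnePoint.coe_injective hy
    rw [← this, e] at hlt
    exact hlt
  · intro h
    exact ⟨cl w, rfl, by rw [e]; exact h⟩

lemma infty_notMem_ball (a : K) (r : ℝ) : (OnePoint.infty : P1B K) ∉ ball a r := by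
  rintro ⟨y, hy, -⟩
  exact OnePoint.infty_ne_coe y hy

lemma value_of_pow [IsAlgClosed K] {u v : K} {r : ℝ} (hr : 0 < r) (_hu : u ≠ 0) (hv : v ≠ 0)
    {i k : ℕ} (h : ‖u‖ * r ^ i = ‖v‖ * r ^ k) (hik : i < k) : ∃ c : K, ‖c‖ = r := by
  obtain ⟨n, rfl⟩ := Nat.exists_eq_add_of_lt hik
  have h1 : ‖u‖ = ‖v‖ * r ^ (n + 1) := by
    have h2 : (0 : ℝ) < r ^ i := by positivity
    have h3 : ‖u‖ * r ^ i = (‖v‖ * r ^ (n + 1)) * r ^ i := by
      rw [h]
      ring
    exact mul_right_cancel₀ h2.ne' h3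
  obtain ⟨c, hc⟩ := IsAlgClosed.exists_pow_nat_eq (u / v) (Nat.succ_pos n)
  refine ⟨c, ?_⟩
  have h4 : ‖c‖ ^ (n + 1) = r ^ (n + 1) := by
    rw [← norm_pow]
    have : c ^ (n + 1) = u / v := hc
    rw [this, norm_div, h1]
    have hv' : ‖v‖ ≠ 0 := norm_ne_zero_iff.2 hv
    field_simp
  exact (pow_left_inj₀ (norm_nonneg _) hr.le (Nat.succ_ne_zero n)).1 h4

end aux

theorem main : S_VAL.{u} → S_ISO.{u} → S_GLAM.{u} → S_ACT.{u} → S_AVOID.{u} → S_NPOL.{u} →
    S_NB.{u} → S_DENSE.{u} → S_DVG.{u} → S_TYPE2.{u} := by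
  intro hVAL hISO hGLAM hACT hAVOID hNPOL hNB hDENSE _ K _ _ _ f x hd hx hfix hdeg
  classical
  -- local degree
  obtain ⟨m, hm2, hm⟩ : ∃ m, 2 ≤ m ∧ IsLocalDeg f (x : P1B K) m := by
    unfold localDeg at hdeg
    split_ifs at hdeg with h
    · exact ⟨_, hdeg, Nat.find_spec h⟩
    · omega
  have key : ∀ (V : Set (P1B K)), V ∈ 𝓝 (x : P1B K) →
      (∀ b : K, ((cl b : BA K) : P1B K) ∈ V → cnt f V b ≤ 1) → False := by
    intro V hV hc
    obtain ⟨U, hU, hUV, he⟩ := hm V hV
    rw [hfix] at he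
    have := hDENSE K (x : P1B K)
    have hV' : ∀ᶠ b in toward (x : P1B K), ((cl b : BA K) : P1B K) ∈ V :=
      tendsto_comap.eventually hV
    obtain ⟨b, h1, h2⟩ := (he.and hV').exists
    have h3 := cnt_mono f hUV b
    have h4 := hc b h2
    omega
  obtain ⟨y, -, hy, -, hyl⟩ := (hACT K f).1 x hx
  have hyx : y = x := by
    have : ((y : BA K) : P1B K) = (x : P1B K) := by rw [← hy, hfix]
    exact OnePoint.coe_injective this
  rw [hyx] at hyl
  have hQ : f.Q ≠ 0 := by
    intro h0
    have hc := f.cop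
    rw [h0, isCoprime_zero_right] at hc
    have h1 := natDegree_eq_zero_of_isUnit hc
    have h2 := f.deg_eq
    rw [h0, h1] at h2
    simp at h2
    omega
  have xQ : 0 < x f.Q := lt_of_le_of_ne (x.nonneg' _) (Ne.symm ((hAVOID K x hx).1 _ hQ))
  have star : ∀ b, x (f.P - C b * f.Q) = x f.Q * lam x b := by
    intro b
    rw [hyl b]
    field_simp
  have lam_nonneg : ∀ b, 0 ≤ lam x b := fun b => x.nonneg' _
  have hh : f.P - X * f.Q ≠ 0 := by
    intro h0
    have e : f.P = X * f.Q := sub_eq_zero.1 h0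
    have hu : IsUnit f.Q := f.cop.isUnit_of_dvd' ⟨X, by rw [e]; ring⟩ dvd_rfl
    have hq : f.Q.natDegree = 0 := natDegree_eq_zero_of_isUnit hu
    have hp : f.P.natDegree ≤ 1 := by
      rw [e]
      refine natDegree_mul_le.trans ?_
      rw [hq, natDegree_X]
    have := f.deg_eq
    rw [hq] at this
    simp at this
    omega
  have ha : ∀ a, x (f.P - X * f.Q) ≤ x f.Q * lam x a := by
    intro a
    have e : f.P - X * f.Q = (f.P - C a * f.Q) - (X - C a) * f.Q := by ring
    rw [e]
    refine (BA_sub x _ _).trans (max_le (star a).le ?_)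
    rw [x.map_mul', mul_comm]
    exact le_rfl
  -- distances
  have dist_eq : ∀ a w : K, lam x a < lam x w → ‖w - a‖ = lam x w := by
    intro a w haw
    obtain ⟨h1, h2, h3, h4⟩ := hISO K x w a
    have h5 : lam x w ≤ ‖w - a‖ := by
      rcases le_max_iff.1 h1 with h | h
      · exact absurd h (not_le.2 haw)
      · exact h
    exact (h3 (haw.trans_le h5)).symm
  by_cases hatt : ∃ a, ∀ b, lam x a ≤ lam x b
  · -- the infimum is attained
    obtain ⟨a, hmin⟩ := hatt
    obtain ⟨r, hra⟩ : ∃ r, lam x a = r := ⟨_, rfl⟩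
    have hr : 0 < r := by
      rw [← hra]
      exact lt_of_le_of_ne (lam_nonneg a) (Ne.symm ((hAVOID K x hx).1 _ (X_sub_C_ne_zero a)))
    have hxg : x = gauss a r hr := by
      apply BA.ext
      intro h
      rw [hVAL K x h, hVAL K (gauss a r hr) h]
      congr 2
      refine Multiset.map_congr rfl fun w _ => ?_
      rw [(hGLAM K a w).2 r hr]
      obtain ⟨h1, h2, h3, h4⟩ := hISO K x w a
      rw [hra] at h1 h2 h3 h4
      have h5 := hmin w
      rw [hra] at h5
      rw [norm_sub_rev] at h1 h2 h3 h4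
      rcases le_or_gt ‖a - w‖ r with h6 | h6
      · rw [max_eq_right h6]
        exact le_antisymm (h1.trans (max_le le_rfl h6)) h5
      · rw [max_eq_left h6.le]
        exact h3 h6
    by_cases hc : ∃ c : K, ‖c‖ = r
    · exact ⟨a, r, hr, hc, hxg⟩
    exfalso
    have hgx : ∀ g, gn a r g = x g := by
      intro g
      conv_rhs => rw [hxg]
      rfl
    have noroot : ∀ w : K, ‖w - a‖ ≠ r := fun w h => hc ⟨w - a, h⟩
    obtain ⟨A, hA⟩ : ∃ A, A = f.P - C a * f.Q := ⟨_, rfl⟩
    have hxA : x A = x f.Q * r := by rw [hA, star a, hra]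
    have hA0 : A ≠ 0 := by
      intro h0
      rw [h0, BA.map_zero] at hxA
      have : 0 < x f.Q * r := by positivity
      linarith
    obtain ⟨i, hi⟩ : ∃ i, nIn A {w | ‖w - a‖ < r} = i := ⟨_, rfl⟩
    obtain ⟨j, hj⟩ : ∃ j, nIn f.Q {w | ‖w - a‖ < r} = j := ⟨_, rfl⟩
    have nA : ‖(taylor a A).coeff i‖ * r ^ i = x A := by
      have := (hNPOL K A a r hA0 hr).2.2.1
      rw [hi, hgx] at this
      exact this
    have nQ : ‖(taylor a f.Q).coeff j‖ * r ^ j = x f.Q := by
      have := (hNPOL K f.Q a r hQ hr).2.2.1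
      rw [hj, hgx] at this
      exact this
    obtain ⟨q, hq⟩ : ∃ q, ‖(taylor a f.Q).coeff j‖ = q := ⟨_, rfl⟩
    have hq0 : 0 < q := by
      rw [← hq]
      rw [norm_pos_iff]
      intro h0
      rw [h0, norm_zero, zero_mul] at nQ
      linarith
    have hA1 : (taylor a A).coeff i ≠ 0 := by
      intro h0
      rw [h0, norm_zero, zero_mul] at nA
      have : 0 < x f.Q * r := by positivity
      linarith
    have hQ1 : (taylor a f.Q).coeff j ≠ 0 := by
      rw [← norm_pos_iff, hq]
      exact hq0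
    have hAQ : ‖(taylor a A).coeff i‖ * r ^ i = ‖(taylor a f.Q).coeff j‖ * r ^ (j + 1) := by
      rw [nA, hxA, ← nQ]
      ring
    have hij : i = j + 1 := by
      rcases lt_trichotomy i (j + 1) with h | h | h
      · exact (hc (value_of_pow hr hA1 hQ1 hAQ h)).elim
      · exact h
      · exact (hc (value_of_pow hr hQ1 hA1 hAQ.symm h)).elim
    have hqA : ‖(taylor a A).coeff (j + 1)‖ = q := by
      rw [hij, hq] at hAQ
      exact mul_right_cancel₀ (by positivity) hAQ
    -- a small annulus without roots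
    obtain ⟨ε, hε0, hεr, hεw⟩ : ∃ ε : ℝ, 0 < ε ∧ ε < r ∧
        ∀ w ∈ (A.roots + f.Q.roots).toFinset, ε < |‖w - a‖ - r| := by
      have e1 : ∀ᶠ ε in 𝓝[>] (0 : ℝ), ε < r :=
        eventually_nhdsWithin_of_eventually_nhds (eventually_lt_nhds hr)
      have e2 : ∀ᶠ ε in 𝓝[>] (0 : ℝ), ∀ w ∈ (A.roots + f.Q.roots).toFinset,
          ε < |‖w - a‖ - r| := by
        rw [Finset.eventually_all]
        intro w _
        exact eventually_nhdsWithin_of_eventually_nhds
          (eventually_lt_nhds (abs_pos.2 (sub_ne_zero.2 (noroot w))))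
      obtain ⟨ε, ⟨h1, h2⟩, h3⟩ := ((e1.and e2).and self_mem_nhdsWithin).exists
      exact ⟨ε, h3, h1, h2⟩
    have hcmp : ∀ g : K[X], (g = A ∨ g = f.Q) → ∀ w ∈ g.roots, ∀ s : ℝ, r - ε ≤ s → s ≤ r + ε →
        (‖w - a‖ < s ↔ ‖w - a‖ < r) ∧ (‖w - a‖ ≤ s ↔ ‖w - a‖ < r) := by
      intro g hg w hw s h1 h2
      have hw' : w ∈ (A.roots + f.Q.roots).toFinset := by
        rw [Multiset.mem_toFinset, Multiset.mem_add]
        rcases hg with h | h
        · left; rw [← h]; exact hw
        · right; rw [← h]; exact hw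
      have h3 := hεw w hw'
      rcases lt_abs.1 h3 with h4 | h4
      · constructor <;> constructor <;> intro h5 <;> linarith
      · constructor <;> constructor <;> intro h5 <;> linarith
    have hnA : ∀ s : ℝ, r - ε ≤ s → s ≤ r + ε → nIn A {w | ‖w - a‖ < s} = j + 1 := by
      intro s h1 h2
      rw [← hij, ← hi]
      exact nIn_congr _ fun w hw => (hcmp A (Or.inl rfl) w hw s h1 h2).1
    have hnQ : ∀ s : ℝ, r - ε ≤ s → s ≤ r + ε → nIn f.Q {w | ‖w - a‖ < s} = j ∧
        nIn f.Q {w | ‖w - a‖ ≤ s} = j := by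
      intro s h1 h2
      rw [← hj]
      exact ⟨nIn_congr _ fun w hw => (hcmp f.Q (Or.inr rfl) w hw s h1 h2).1,
        nIn_congr _ fun w hw => (hcmp f.Q (Or.inr rfl) w hw s h1 h2).2⟩
    have hgA : ∀ s : ℝ, 0 < s → r - ε ≤ s → s ≤ r + ε → gn a s A = q * s ^ (j + 1) := by
      intro s h0 h1 h2
      have := (hNPOL K A a s hA0 h0).2.2.1
      rw [hnA s h1 h2, hqA] at this
      exact this.symm
    have hgQ : ∀ s : ℝ, 0 < s → r - ε ≤ s → s ≤ r + ε → gn a s f.Q = q * s ^ j := by
      intro s h0 h1 h2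
      have := (hNPOL K f.Q a s hQ h0).2.2.1
      rw [(hnQ s h1 h2).1, hq] at this
      exact this.symm
    -- the neighbourhood
    have hs1 : 0 < r - ε := by linarith
    have hs2 : 0 < r + ε := by linarith
    obtain ⟨V, hV⟩ : ∃ V : Set (P1B K), V = ball a (r + ε) ∩
        {x : P1B K | ∀ y : BA K, x = (y : P1B K) → r - ε < lam y a} := ⟨_, rfl⟩
    have hVn : V ∈ 𝓝 (x : P1B K) := by
      rw [hV]
      refine ((((hNB K).2.2.1 a (r + ε)).inter ((hNB K).2.2.2 a (r - ε))).mem_nhds ?_)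
      refine ⟨⟨x, rfl, by rw [hra]; linarith⟩, ?_⟩
      intro y hy
      have : x = y := OnePoint.coe_injective hy
      rw [← this, hra]
      linarith
    have hVcl : ∀ w : K, ((cl w : BA K) : P1B K) ∈ V ↔
        w ∈ {w : K | r - ε < ‖w - a‖ ∧ ‖w - a‖ < r + ε} := by
      intro w
      rw [hV, Set.mem_inter_iff, mem_ball_cl hGLAM]
      have e := (hGLAM K w a).1
      constructor
      · rintro ⟨h1, h2⟩
        have h3 := h2 (cl w) rfl
        rw [e] at h3
        exact ⟨h3, h1⟩
      · rintro ⟨h1, h2⟩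
        refine ⟨h2, ?_⟩
        intro y hy
        have : cl w = y := OnePoint.coe_injective hy
        rw [← this, e]
        exact h1
    have hVinf : (OnePoint.infty : P1B K) ∉ V := by
      rw [hV]
      exact fun h => infty_notMem_ball a _ h.1
    refine key V hVn ?_
    intro b hb
    obtain ⟨hb1, hb2⟩ := (hVcl b).1 hb
    rw [cnt_eq f V _ b hVinf hVcl]
    have hab : a - b ≠ 0 := by
      intro h0
      have : b - a = 0 := by rw [← neg_sub, h0, neg_zero]
      rw [this, norm_zero] at hb1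
      linarith
    have hnab : ‖a - b‖ = ‖b - a‖ := norm_sub_rev a b
    have eG : f.P - C b * f.Q = A + C (a - b) * f.Q := by
      rw [hA, C_sub]
      ring
    have hmul : ∀ s : ℝ, 0 < s → gn a s (C (a - b) * f.Q) = ‖b - a‖ * gn a s f.Q := by
      intro s hs
      have h1 : gn a s (C (a - b) * f.Q) = (gauss a s hs) (C (a - b) * f.Q) := rfl
      rw [h1, (gauss a s hs).map_mul', (gauss a s hs).map_C', hnab]
      rfl
    have n1 : nIn (f.P - C b * f.Q) {w | ‖w - a‖ ≤ r - ε} = j := by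
      have h1 := (nIn_eq (F := C (a - b) * f.Q) (G := f.P - C b * f.Q) (a := a) hNPOL hs1
        (mul_ne_zero (C_ne_zero.2 hab) hQ) ?_).2
      · rw [h1, nIn_C_mul _ hab]
        exact (hnQ _ le_rfl (by linarith)).2
      · rw [eG, add_sub_cancel_right, hmul _ hs1, hgA _ hs1 le_rfl (by linarith),
          hgQ _ hs1 le_rfl (by linarith)]
        have : 0 < q * (r - ε) ^ j := by positivity
        calc q * (r - ε) ^ (j + 1) = (r - ε) * (q * (r - ε) ^ j) := by ring
          _ < ‖b - a‖ * (q * (r - ε) ^ j) := mul_lt_mul_of_pos_right hb1 this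
    have n2 : nIn (f.P - C b * f.Q) {w | ‖w - a‖ < r + ε} = j + 1 := by
      have h1 := (nIn_eq (F := A) (G := f.P - C b * f.Q) (a := a) hNPOL hs2 hA0 ?_).1
      · rw [h1]
        exact hnA _ (by linarith) le_rfl
      · rw [eG, add_sub_cancel_left, hmul _ hs2, hgA _ hs2 (by linarith) le_rfl,
          hgQ _ hs2 (by linarith) le_rfl]
        have : 0 < q * (r + ε) ^ j := by positivity
        calc ‖b - a‖ * (q * (r + ε) ^ j) < (r + ε) * (q * (r + ε) ^ j) :=
              mul_lt_mul_of_pos_right hb2 this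
          _ = q * (r + ε) ^ (j + 1) := by ring
    have n3 : nIn (f.P - C b * f.Q) {w | ‖w - a‖ < r + ε} =
        nIn (f.P - C b * f.Q) {w | ‖w - a‖ ≤ r - ε} +
          nIn (f.P - C b * f.Q) {w | r - ε < ‖w - a‖ ∧ ‖w - a‖ < r + ε} := by
      apply nIn_add
      · intro w
        simp only [Set.mem_ofPred_eq]
        constructor
        · intro h
          rcases le_or_gt ‖w - a‖ (r - ε) with h' | h'
          · exact Or.inl h'
          · exact Or.inr ⟨h', h⟩
        · rintro (h | h)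
          · linarith
          · exact h.2
      · intro w h1 h2
        simp only [Set.mem_ofPred_eq] at h1 h2
        linarith [h2.1]
    omega
  · -- the infimum is not attained
    push Not at hatt
    exfalso
    obtain ⟨S, hS⟩ : ∃ S : Finset K, S = ((f.P - X * f.Q).roots + f.Q.roots).toFinset := ⟨_, rfl⟩
    obtain ⟨a, haS⟩ : ∃ a, ∀ w ∈ S, lam x a < lam x w := by
      rcases S.eq_empty_or_nonempty with h | h
      · exact ⟨0, by simp [h]⟩
      · obtain ⟨w0, hw0, hmin⟩ := S.exists_min_image (lam x) h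
        obtain ⟨b, hb⟩ := hatt w0
        exact ⟨b, fun w hw => hb.trans_le (hmin w hw)⟩
    obtain ⟨r, har, hrS⟩ : ∃ r, lam x a < r ∧ ∀ w ∈ S, r < lam x w := by
      have e2 : ∀ᶠ r in 𝓝[>] (lam x a), ∀ w ∈ S, r < lam x w := by
        rw [Finset.eventually_all]
        intro w hw
        exact eventually_nhdsWithin_of_eventually_nhds (eventually_lt_nhds (haS w hw))
      obtain ⟨r, h1, h2⟩ := (e2.and self_mem_nhdsWithin).exists
      exact ⟨r, h2, h1⟩
    have hr : 0 < r := (lam_nonneg a).trans_lt har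
    have hval : ∀ g : K[X], (∀ w ∈ g.roots, w ∈ S) → gn a r g = x g := by
      intro g hg
      show (gauss a r hr) g = x g
      rw [hVAL K (gauss a r hr) g, hVAL K x g]
      congr 2
      refine Multiset.map_congr rfl fun w hw => ?_
      rw [(hGLAM K a w).2 r hr, norm_sub_rev, dist_eq a w (haS w (hg w hw))]
      exact max_eq_left (hrS w (hg w hw)).le
    have hSh : ∀ w ∈ (f.P - X * f.Q).roots, w ∈ S := by
      intro w hw
      rw [hS, Multiset.mem_toFinset, Multiset.mem_add]
      exact Or.inl hw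
    have hSQ : ∀ w ∈ f.Q.roots, w ∈ S := by
      intro w hw
      rw [hS, Multiset.mem_toFinset, Multiset.mem_add]
      exact Or.inr hw
    refine key (ball a r) (((hNB K).2.2.1 a r).mem_nhds ⟨x, rfl, har⟩) ?_
    intro b hb
    rw [mem_ball_cl hGLAM] at hb
    rw [cnt_eq f (ball a r) {w | ‖w - a‖ < r} b (infty_notMem_ball a r)
      (fun w => mem_ball_cl hGLAM a w r)]
    have hF0 : (X - C b) * f.Q ≠ 0 := mul_ne_zero (X_sub_C_ne_zero b) hQ
    have h1 := (nIn_eq (F := (X - C b) * f.Q) (G := f.P - C b * f.Q) (a := a) hNPOL hr hF0 ?_).1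
    · rw [h1]
      unfold nIn
      rw [roots_mul hF0, roots_X_sub_C, Multiset.filter_add]
      have e : Multiset.filter (fun w => w ∈ {w : K | ‖w - a‖ < r}) f.Q.roots = 0 := by
        rw [Multiset.filter_eq_nil]
        intro w hw h2
        simp only [Set.mem_ofPred_eq] at h2
        rw [dist_eq a w (haS w (hSQ w hw))] at h2
        exact absurd h2 (not_lt.2 (hrS w (hSQ w hw)).le)
      rw [e, add_zero]
      exact (Multiset.card_le_card (Multiset.filter_le _ _)).trans (by simp)
    · have e1 : f.P - C b * f.Q - (X - C b) * f.Q = f.P - X * f.Q := by ring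
      have e2 : gn a r ((X - C b) * f.Q) = r * gn a r f.Q := by
        have h2 : gn a r ((X - C b) * f.Q) = (gauss a r hr) ((X - C b) * f.Q) := rfl
        rw [h2, (gauss a r hr).map_mul']
        have h3 : (gauss a r hr) (X - C b) = lam (gauss a r hr) b := rfl
        rw [h3, (hGLAM K a b).2 r hr, norm_sub_rev, max_eq_right hb.le]
        rfl
      rw [e1, e2, hval _ hSh, hval _ hSQ]
      calc x (f.P - X * f.Q) ≤ x f.Q * lam x a := ha a
        _ < x f.Q * r := mul_lt_mul_of_pos_left har xQ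
        _ = r * x f.Q := mul_comm _ _

end Pool.Agent.W352.BKT2
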