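import Pool.Agent.W352.HeisB

set_option autoImplicit false

namespace Pool.Agent.W352.Heis

/-- the standard identity of degree four for two by two matrices over the prime field -/
theorem s4 (M : Fin 4 → M2) :
    ∑ σ : Equiv.Perm (Fin 4), ((Equiv.Perm.sign σ : ℤˣ) : ℤ) • (List.ofFn fun i => M (σ i)).prod = 0 := by
  have h : MultilinearMap.alternatization (MultilinearMap.mkPiAlgebraFin (ZMod 3) 4 M2) = 0 := by
    apply Module.Basis.ext_alternating (Matrix.stdBasis (ZMod 3) (Fin 2) (Fin 2))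
    intro v _
    rw [MultilinearMap.alternatization_apply, AlternatingMap.zero_apply]
    simp only [MultilinearMap.domDomCongr_apply,
      MultilinearMap.mkPiAlgebraFin_apply]
    have hb : ∀ p : Fin 2 × Fin 2, Matrix.stdBasis (ZMod 3) (Fin 2) (Fin 2) p =
        Matrix.of fun a b => if a = p.1 ∧ b = p.2 then 1 else 0 := by
      rintro ⟨a, b⟩
      rw [Matrix.stdBasis_eq_single]
      ext c d
      simp [Matrix.single, eq_comm]
    simp only [hb]
    revert v
    decide +kernel
  have h2 := congrArg (fun g => g M) h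
  simp only [AlternatingMap.zero_apply] at h2
  rw [MultilinearMap.alternatization_apply] at h2
  simp only [MultilinearMap.domDomCongr_apply,
      MultilinearMap.mkPiAlgebraFin_apply] at h2
  rw [← h2]
  rfl

/-- the map from two by two matrices -/
noncomputable def phi (M : M2) : U :=
  M 0 0 • E + M 0 1 • (E * x) + M 1 0 • (y * E) + M 1 1 • (y * (E * x))

theorem m1 (w : U) : E * (E * w) = E * w := by rw [← mul_assoc, EE']
theorem m2 (w : U) : x * (E * w) = 0 := by rw [← mul_assoc, xE, zero_mul]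
theorem m3 (w : U) : E * (y * w) = 0 := by rw [← mul_assoc, Ey, zero_mul]
theorem m4 (w : U) : x * (y * (E * w)) = E * w := by
  have h := congrArg (· * w) xyE'
  simpa only [mul_assoc] using h

theorem units_mul {A : Type*} [Ring A] [Algebra (ZMod 3) A] (p q r s : A)
    (hpp : p * p = p) (hpq : p * q = q) (hpr : p * r = 0) (hps : p * s = 0)
    (hqp : q * p = 0) (hqq : q * q = 0) (hqr : q * r = p) (hqs : q * s = q)
    (hrp : r * p = r) (hrq : r * q = s) (hrr : r * r = 0) (hrs : r * s = 0)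
    (hsp : s * p = 0) (hsq : s * q = 0) (hsr : s * r = r) (hss : s * s = s)
    (a b c d a' b' c' d' : ZMod 3) :
    (a * a' + b * c') • p + (a * b' + b * d') • q + (c * a' + d * c') • r + (c * b' + d * d') • s
    = (a • p + b • q + c • r + d • s) * (a' • p + b' • q + c' • r + d' • s) := by
  simp only [add_mul, mul_add, smul_mul_smul_comm, hpp, hpq, hpr, hps, hqp, hqq, hqr, hqs,
    hrp, hrq, hrr, hrs, hsp, hsq, hsr, hss, smul_zero, add_smul]
  abel

theorem phi_mul (M N : M2) : phi (M * N) = phi M * phi N := by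
  unfold phi
  simp only [Matrix.mul_apply, Fin.sum_univ_two]
  apply units_mul
  · exact EE'
  · exact m1 x
  · rw [← mul_assoc, Ey, zero_mul]
  · rw [← mul_assoc, Ey, zero_mul]
  · rw [mul_assoc, xE, mul_zero]
  · rw [mul_assoc, m2, mul_zero]
  · rw [mul_assoc, xyE', EE']
  · rw [mul_assoc, m4, m1]
  · rw [mul_assoc, EE']
  · rw [mul_assoc, m1]
  · rw [mul_assoc, m3, mul_zero]
  · rw [mul_assoc, m3, mul_zero]
  · rw [mul_assoc, mul_assoc, xE, mul_zero, mul_zero]
  · rw [mul_assoc, mul_assoc, m2, mul_zero, mul_zero]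
  · rw [mul_assoc, mul_assoc, xyE', EE']
  · rw [mul_assoc, mul_assoc, m4, m1]

theorem phi_add (M N : M2) : phi (M + N) = phi M + phi N := by
  unfold phi
  simp only [Matrix.add_apply, add_smul]
  abel

theorem phi_smul (c : ZMod 3) (M : M2) : phi (c • M) = c • phi M := by
  unfold phi
  simp only [Matrix.smul_apply, smul_add, smul_smul, smul_eq_mul]

theorem phi_zero : phi 0 = 0 := by
  unfold phi
  simp

/-- `phi` as a homomorphism -/
noncomputable def phiHom : M2 →ₙₐ[ZMod 3] U where
  toFun := phi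
  map_smul' := phi_smul
  map_zero' := phi_zero
  map_add' := phi_add
  map_mul' := phi_mul

/-- the subalgebra -/
noncomputable def R : NonUnitalSubalgebra (ZMod 3) U := NonUnitalAlgHom.range phiHom

theorem mem_R {u : U} : u ∈ R ↔ ∃ M : M2, phi M = u := by
  unfold R
  rw [NonUnitalAlgHom.mem_range]
  rfl

theorem R_PI : ∃ m : ℕ, ∃ φ : FreeAlgebra (ZMod 3) (Fin m), φ ≠ 0 ∧
      ∀ r : Fin m → U, (∀ i, r i ∈ R) → FreeAlgebra.lift (ZMod 3) r φ = 0 := by
  obtain ⟨a, b, hab, h⟩ := Finite.exists_ne_map_eq_of_infinite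
    (fun (k : ℕ) => fun (M : M2) => M ^ (k + 1))
  have hphi : ∀ (M : M2) (k : ℕ), phi M ^ (k + 1) = phi (M ^ (k + 1)) := by
    intro M k
    induction k with
    | zero => simp
    | succ k ih => rw [pow_succ, ih, ← phi_mul, ← pow_succ]
  refine ⟨1, FreeAlgebra.ι (ZMod 3) (0 : Fin 1) ^ (a + 1) - FreeAlgebra.ι (ZMod 3) (0 : Fin 1) ^ (b + 1),
    ?_, ?_⟩
  · intro h0
    have h1 := congrArg (FreeAlgebra.lift (ZMod 3) (fun _ : Fin 1 => (Polynomial.X : Polynomial (ZMod 3)))) h0
    rw [map_sub, map_pow, map_pow, FreeAlgebra.lift_ι_apply, map_zero, sub_eq_zero] at h1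
    have h2 := congrArg Polynomial.natDegree h1
    rw [Polynomial.natDegree_X_pow, Polynomial.natDegree_X_pow] at h2
    omega
  · intro r hr
    obtain ⟨M, hM⟩ := mem_R.1 (hr 0)
    rw [map_sub, map_pow, map_pow, FreeAlgebra.lift_ι_apply, ← hM, hphi, hphi, sub_eq_zero]
    exact congrArg phi (congrFun h M)

theorem phi_list : ∀ (l : List M2), l ≠ [] → (l.map phi).prod = phi l.prod
  | [], h => absurd rfl h
  | [a], _ => by simp
  | a :: b :: l, _ => by
    rw [List.map_cons, List.prod_cons, phi_list (b :: l) (by simp), List.prod_cons (a := a),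
      phi_mul]

theorem R_S4 (r : Fin (2 * 2) → U) (hr : ∀ i, r i ∈ R) :
    (∑ σ : Equiv.Perm (Fin (2 * 2)),
            ((Equiv.Perm.sign σ : ℤˣ) : ℤ) • (List.ofFn fun i => r (σ i)).prod) ^ 1 = 0 := by
  choose M hM using fun i => mem_R.1 (hr i)
  have h := congrArg phiHom (s4 M)
  rw [map_sum, map_zero] at h
  rw [pow_one, ← h]
  refine Finset.sum_congr rfl fun σ _ => ?_
  rw [map_zsmul]
  congr 1
  show _ = phi _
  rw [← phi_list _ (by simp), List.map_ofFn]
  congr 2
  funext i
  exact (hM (σ i)).symm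

theorem R_S2 : ¬ ∃ t : ℕ, 1 ≤ t ∧ ∀ r : Fin (2 * 1) → U, (∀ i, r i ∈ R) →
    (∑ σ : Equiv.Perm (Fin (2 * 1)),
            ((Equiv.Perm.sign σ : ℤˣ) : ℤ) • (List.ofFn fun i => r (σ i)).prod) ^ t = 0 := by
  rintro ⟨t, -, ht⟩
  have h1 : E * x ∈ R := mem_R.2 ⟨!![0, 1; 0, 0], by unfold phi; simp⟩
  have h2 : y * E ∈ R := mem_R.2 ⟨!![0, 0; 1, 0], by unfold phi; simp⟩
  have h := ht ![E * x, y * E] (by
    intro i
    fin_cases i
    · exact h1
    · exact h2)
  have hs : (∑ σ : Equiv.Perm (Fin (2 * 1)),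
            ((Equiv.Perm.sign σ : ℤˣ) : ℤ) • (List.ofFn fun i => (![E * x, y * E] : Fin 2 → U) (σ i)).prod)
            = (E * x) * (y * E) - (y * E) * (E * x) := by
    have hu : (Finset.univ : Finset (Equiv.Perm (Fin (2 * 1)))) = {1, Equiv.swap 0 1} := by decide
    rw [hu, Finset.sum_pair (by decide)]
    simp [List.ofFn_succ, sub_eq_add_neg]
  rw [hs] at h
  have hD : E * (E * x * (y * E) - y * E * (E * x)) = E := by
    simp only [mul_sub, mul_assoc, m1, m3, xyE', EE', sub_zero]
  have hk : ∀ k : ℕ, E * (E * x * (y * E) - y * E * (E * x)) ^ k = E := by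
    intro k
    induction k with
    | zero => simp
    | succ k ih => rw [pow_succ', ← mul_assoc, hD, ih]
  have := hk t
  rw [h, mul_zero] at this
  exact E_ne this.symm

end Pool.Agent.W352.Heis
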