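import Pool.Agent.W352.Raj3

set_option autoImplicit false

open MeasureTheory Complex Filter Topology
open scoped NNReal ENNReal BoundedContinuousFunction ComplexConjugate

namespace Pool.Agent.W352.Raj

/-- the measure -/
noncomputable abbrev mm : Measure X := (nu : Measure X)

/-- the Hilbert space -/
abbrev HH : Type := Lp ℂ 2 mm

/-- multiplication by continuous functions -/
noncomputable def ML : C(X, ℂ) →L[ℂ] (HH →L[ℂ] HH) :=
  ((ContinuousLinearMap.mul ℂ ℂ).holderL mm ∞ 2 2).comp (ContinuousMap.toLp ∞ mm ℂ)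

theorem ML_coe (m : C(X, ℂ)) (g : HH) : ML m g =ᵐ[mm] fun x => m x * g x := by
  have h1 := (ContinuousLinearMap.mul ℂ ℂ).coeFn_holder (r := 2) (ContinuousMap.toLp ∞ mm ℂ m) g
  have h2 := ContinuousMap.coeFn_toLp (p := ∞) (𝕜 := ℂ) mm m
  have h3 : ML m g = (ContinuousLinearMap.mul ℂ ℂ).holder 2 (ContinuousMap.toLp ∞ mm ℂ m) g := rfl
  rw [h3]
  filter_upwards [h1, h2] with x hx1 hx2
  rw [hx1, hx2]
  rfl

theorem ML_mul (m m' : C(X, ℂ)) (g : HH) : ML (m * m') g = ML m (ML m' g) := by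
  apply Lp.ext
  filter_upwards [ML_coe (m * m') g, ML_coe m (ML m' g), ML_coe m' g] with x h1 h2 h3
  rw [h1, h2, h3, ContinuousMap.mul_apply, mul_assoc]

theorem ML_one : ML 1 = 1 := by
  ext1 g
  apply Lp.ext
  filter_upwards [ML_coe 1 g] with x h1
  rw [h1]
  simp

theorem ML_norm (m : C(X, ℂ)) (h : ∀ x, ‖m x‖ ≤ 1) : ‖ML m‖ ≤ 1 := by
  apply ContinuousLinearMap.opNorm_le_bound _ zero_le_one
  intro g
  rw [one_mul]
  apply Lp.norm_le_norm_of_ae_le
  filter_upwards [ML_coe m g] with x h1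
  rw [h1, norm_mul]
  calc ‖m x‖ * ‖g x‖ ≤ 1 * ‖g x‖ := by gcongr; exact h x
    _ = ‖g x‖ := one_mul _

/-- exponentials -/
noncomputable def ee : C(ℝ, C(X, ℂ)) :=
  (⟨fun p : ℝ × X => exp (I * (p.1 : ℂ) * ((p.2 : ℝ) : ℂ)), by fun_prop⟩ : C(ℝ × X, ℂ)).curry

theorem ee_apply (t : ℝ) (x : X) : ee t x = exp (I * (t : ℂ) * ((x : ℝ) : ℂ)) := rfl

theorem ee_norm (t : ℝ) (x : X) : ‖ee t x‖ = 1 := by
  rw [ee_apply]
  have : (I * t * ((x : ℝ) : ℂ) : ℂ) = ((t * x : ℝ) : ℂ) * I := by push_cast; ring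
  rw [this, norm_exp_ofReal_mul_I]

theorem ee_zero : ee 0 = 1 := by
  ext x
  rw [ee_apply]
  simp

theorem ee_add (s t : ℝ) : ee (s + t) = ee s * ee t := by
  ext x
  rw [ContinuousMap.mul_apply, ee_apply, ee_apply, ee_apply, ← exp_add]
  congr 1
  push_cast
  ring

/-- the semigroup -/
noncomputable def T (t : ℝ) : HH →L[ℂ] HH := ML (ee t)

theorem T_zero : T 0 = 1 := by
  unfold T; rw [ee_zero, ML_one]

theorem T_add (s t : ℝ) : T (s + t) = T s * T t := by
  unfold T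
  ext1 g
  rw [ee_add, ML_mul]
  rfl

theorem T_cont (g : HH) : Continuous fun t => T t g := by
  unfold T
  exact (ML.continuous.comp ee.continuous).clm_apply continuous_const

theorem T_norm (t : ℝ) : ‖T t‖ ≤ 1 := ML_norm _ fun x => (ee_norm t x).le

/-- the symbol of the cogenerator -/
noncomputable def V0 : C(X, ℂ) := ⟨fun x => v x, v_cont.comp continuous_subtype_val⟩

/-- the symbol of the resolvent -/
noncomputable def W0 : C(X, ℂ) := ⟨fun x => (1 - I * ((x : ℝ) : ℂ))⁻¹, by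
  apply Continuous.inv₀ (by fun_prop)
  intro x; exact den_ne x⟩

theorem V0_eq : V0 = 1 - (2 : ℂ) • W0 := by
  ext x
  show v x = 1 - 2 * (1 - I * ((x : ℝ) : ℂ))⁻¹
  rfl

theorem int_ee : IntegrableOn (fun t : ℝ => ((Real.exp (-t) : ℝ) : ℂ) • ee t) (Set.Ioi 0) := by
  have h : IntegrableOn (fun t : ℝ => Real.exp (-t)) (Set.Ioi 0) := by
    have := exp_neg_integrableOn_Ioi 0 (b := 1) one_pos
    simpa using this
  refine Integrable.mono' h ?_ ?_
  · apply Continuous.aestronglyMeasurable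
    have := ee.continuous
    fun_prop
  · refine Eventually.of_forall fun t => ?_
    rw [norm_smul]
    have h1 : ‖ee t‖ ≤ 1 := (ContinuousMap.norm_le _ zero_le_one).2 fun x => (ee_norm t x).le
    have h2 : ‖((Real.exp (-t) : ℝ) : ℂ)‖ = Real.exp (-t) := by
      rw [norm_real, Real.norm_eq_abs, abs_of_pos (Real.exp_pos _)]
    rw [h2]
    nlinarith [Real.exp_pos (-t)]

theorem int_W0 : ∫ t in Set.Ioi (0 : ℝ), ((Real.exp (-t) : ℝ) : ℂ) • ee t = W0 := by
  ext x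
  have h := (ContinuousMap.evalCLM ℂ x : C(X, ℂ) →L[ℂ] ℂ).integral_comp_comm int_ee
  have h2 : (ContinuousMap.evalCLM ℂ x : C(X, ℂ) →L[ℂ] ℂ)
    (∫ t in Set.Ioi (0 : ℝ), ((Real.exp (-t) : ℝ) : ℂ) • ee t) =
      (∫ t in Set.Ioi (0 : ℝ), ((Real.exp (-t) : ℝ) : ℂ) • ee t) x := rfl
  rw [← h2, ← h]
  have h3 : ∀ t : ℝ, (ContinuousMap.evalCLM ℂ x : C(X, ℂ) →L[ℂ] ℂ) (((Real.exp (-t) : ℝ) : ℂ) • ee t) =
      exp ((-1 + I * ((x : ℝ) : ℂ)) * t) := by
    intro t
    show ((Real.exp (-t) : ℝ) : ℂ) * ee t x = _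
    rw [ee_apply, ofReal_exp, ← exp_add]
    congr 1
    push_cast
    ring
  simp only [h3]
  rw [integral_exp_mul_complex_Ioi (by simp)]
  show _ = (1 - I * ((x : ℝ) : ℂ))⁻¹
  have h4 := den_ne x
  have h5 : (-1 + I * ((x : ℝ) : ℂ)) = -(1 - I * ((x : ℝ) : ℂ)) := by ring
  rw [h5]
  simp only [ofReal_zero, mul_zero, exp_zero]
  rw [neg_div_neg_eq, one_div]

theorem V_apply (z : HH) : z - (2 : ℂ) • ∫ t in Set.Ioi (0 : ℝ), ((Real.exp (-t) : ℝ) : ℂ) • T t z =
    ML V0 z := by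
  set L : C(X, ℂ) →L[ℂ] HH := (ContinuousLinearMap.apply ℂ HH z).comp ML with hL
  have h := L.integral_comp_comm int_ee
  have h1 : ∀ t : ℝ, L (((Real.exp (-t) : ℝ) : ℂ) • ee t) = ((Real.exp (-t) : ℝ) : ℂ) • T t z := by
    intro t
    rw [map_smul]
    rfl
  simp only [h1] at h
  rw [h, int_W0, V0_eq, map_sub, map_smul, ML_one]
  rfl

theorem V_iter (n : ℕ) (z : HH) : (fun z : HH => z - (2 : ℂ) •
    ∫ t in Set.Ioi (0 : ℝ), ((Real.exp (-t) : ℝ) : ℂ) • T t z)^[n] z = ML (V0 ^ n) z := by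
  induction n with
  | zero => simp [ML_one]
  | succ n ih =>
    rw [Function.iterate_succ_apply', ih, V_apply, ← ML_mul, pow_succ']

theorem V0_norm (n : ℕ) (x : X) : ‖(V0 ^ n) x‖ = 1 := by
  rw [ContinuousMap.pow_apply, norm_pow]
  show ‖v x‖ ^ n = 1
  rw [v_norm, one_pow]

theorem poly_raj (p : Polynomial ℝ) :
    Tendsto (fun n : ℕ => ∫ x : X, v x ^ n * ((p.eval (x : ℝ) : ℝ) : ℂ) ∂mm) atTop (𝓝 0) := by
  induction p using Polynomial.induction_on' with
  | add p q hp hq =>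
    have h := hp.add hq
    rw [add_zero] at h
    refine Tendsto.congr ?_ h
    intro n
    rw [← integral_add]
    · congr 1
      funext x
      rw [Polynomial.eval_add]
      push_cast
      ring
    · apply Continuous.integrable_of_hasCompactSupport _ (HasCompactSupport.of_compactSpace _)
      have := v_cont.comp (continuous_subtype_val (p := fun x : ℝ => x ∈ Set.Icc (1 : ℝ) 2))
      have h2 := p.continuous.comp (continuous_subtype_val (p := fun x : ℝ => x ∈ Set.Icc (1 : ℝ) 2))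
      exact (this.pow n).mul (continuous_ofReal.comp h2)
    · apply Continuous.integrable_of_hasCompactSupport _ (HasCompactSupport.of_compactSpace _)
      have := v_cont.comp (continuous_subtype_val (p := fun x : ℝ => x ∈ Set.Icc (1 : ℝ) 2))
      have h2 := q.continuous.comp (continuous_subtype_val (p := fun x : ℝ => x ∈ Set.Icc (1 : ℝ) 2))
      exact (this.pow n).mul (continuous_ofReal.comp h2)
  | monomial j a =>
    have h := (nu_raj j).const_mul (a : ℂ)
    rw [mul_zero] at h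
    refine Tendsto.congr ?_ h
    intro n
    rw [← MeasureTheory.integral_const_mul]
    congr 1
    funext x
    rw [Polynomial.eval_monomial]
    push_cast
    ring

theorem cont_int (n : ℕ) (f : X → ℂ) (hf : Continuous f) :
    Integrable (fun x : X => v x ^ n * f x) mm := by
  apply Continuous.integrable_of_hasCompactSupport _ (HasCompactSupport.of_compactSpace _)
  have := v_cont.comp (continuous_subtype_val (p := fun x : ℝ => x ∈ Set.Icc (1 : ℝ) 2))
  exact (this.pow n).mul hf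

theorem real_raj (f : C(X, ℝ)) :
    Tendsto (fun n : ℕ => ∫ x : X, v x ^ n * ((f x : ℝ) : ℂ) ∂mm) atTop (𝓝 0) := by
  rw [Metric.tendsto_atTop]
  intro ε hε
  set m : ℝ := mm.real Set.univ with hm
  have hm0 : 0 ≤ m := measureReal_nonneg
  obtain ⟨p, hp⟩ := exists_polynomial_near_continuousMap 1 2 f (ε / (2 * (m + 1))) (by positivity)
  have h1 := (Metric.tendsto_atTop.1 (poly_raj p)) (ε / 2) (half_pos hε)
  obtain ⟨N, hN⟩ := h1
  refine ⟨N, fun n hn => ?_⟩
  have h2 := hN n hn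
  rw [dist_zero_right] at h2 ⊢
  have hpt : ∀ x : X, |p.eval (x : ℝ) - f x| ≤ ε / (2 * (m + 1)) := by
    intro x
    have h3 := (p.toContinuousMapOn (Set.Icc (1 : ℝ) 2) - f).norm_coe_le_norm x
    exact h3.trans hp.le
  have h4 : ‖(∫ x : X, v x ^ n * ((f x : ℝ) : ℂ) ∂mm) -
      ∫ x : X, v x ^ n * ((p.eval (x : ℝ) : ℝ) : ℂ) ∂mm‖ ≤ ε / (2 * (m + 1)) * m := by
    have i1 : Integrable (fun x : X => v x ^ n * ((f x : ℝ) : ℂ)) mm :=
      cont_int n _ (continuous_ofReal.comp f.continuous)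
    have i2 : Integrable (fun x : X => v x ^ n * ((p.eval (x : ℝ) : ℝ) : ℂ)) mm :=
      cont_int n _ (continuous_ofReal.comp (p.continuous.comp continuous_subtype_val))
    rw [← integral_sub i1 i2]
    apply norm_integral_le_of_norm_le_const
    refine Eventually.of_forall fun x => ?_
    rw [← mul_sub, norm_mul, norm_pow, v_norm, one_pow, one_mul, ← ofReal_sub, norm_real,
      Real.norm_eq_abs, abs_sub_comm]
    exact hpt x
  have h5 : ε / (2 * (m + 1)) * m ≤ ε / 2 := by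
    rw [div_mul_eq_mul_div, div_le_div_iff₀ (by positivity) (by norm_num)]
    nlinarith
  calc ‖∫ x : X, v x ^ n * ((f x : ℝ) : ℂ) ∂mm‖ =
        ‖((∫ x : X, v x ^ n * ((f x : ℝ) : ℂ) ∂mm) - ∫ x : X, v x ^ n * ((p.eval (x : ℝ) : ℝ) : ℂ) ∂mm) +
          ∫ x : X, v x ^ n * ((p.eval (x : ℝ) : ℝ) : ℂ) ∂mm‖ := by congr 1; ring
    _ ≤ _ := norm_add_le _ _
    _ < ε := by linarith

theorem cpx_raj (f : C(X, ℂ)) :
    Tendsto (fun n : ℕ => ∫ x : X, v x ^ n * f x ∂mm) atTop (𝓝 0) := by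
  have h1 := real_raj ⟨fun x => (f x).re, continuous_re.comp f.continuous⟩
  have h2 := (real_raj ⟨fun x => (f x).im, continuous_im.comp f.continuous⟩).const_mul I
  have h := h1.add h2
  rw [mul_zero, add_zero] at h
  refine Tendsto.congr ?_ h
  intro n
  rw [← MeasureTheory.integral_const_mul, ← integral_add]
  · congr 1
    funext x
    show v x ^ n * (((f x).re : ℝ) : ℂ) + I * (v x ^ n * (((f x).im : ℝ) : ℂ)) = _
    conv_rhs => rw [← re_add_im (f x)]
    ring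
  · exact cont_int n _ (continuous_ofReal.comp (continuous_re.comp f.continuous))
  · exact (cont_int n _ (continuous_ofReal.comp (continuous_im.comp f.continuous))).const_mul I

theorem inner_raj (f g : C(X, ℂ)) :
    Tendsto (fun n : ℕ => inner ℂ (ML (V0 ^ n) (ContinuousMap.toLp 2 mm ℂ f))
      (ContinuousMap.toLp 2 mm ℂ g)) atTop (𝓝 0) := by
  have h := cpx_raj (f * ⟨fun x => conj (g x), Complex.continuous_conj.comp g.continuous⟩)
  have h2 := (Complex.continuous_conj.tendsto _).comp h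
  rw [map_zero] at h2
  refine Tendsto.congr ?_ h2
  intro n
  simp only [Function.comp]
  rw [L2.inner_def, ← integral_conj]
  apply integral_congr_ae
  filter_upwards [ML_coe (V0 ^ n) (ContinuousMap.toLp 2 mm ℂ f), ContinuousMap.coeFn_toLp (p := 2) (𝕜 := ℂ) mm f,
    ContinuousMap.coeFn_toLp (p := 2) (𝕜 := ℂ) mm g] with x h1 h2 h3
  rw [h1, h2, h3, RCLike.inner_apply']
  show conj (v x ^ n * (f x * conj (g x))) = conj ((V0 ^ n) x * f x) * g x
  rw [ContinuousMap.pow_apply]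
  show conj (v x ^ n * (f x * conj (g x))) = conj (v x ^ n * f x) * g x
  simp only [map_mul, conj_conj]
  ring

theorem weak_dense (S : ℕ → HH →L[ℂ] HH) (hS : ∀ n, ‖S n‖ ≤ 1)
    (h : ∀ f g : C(X, ℂ), Tendsto (fun n : ℕ => inner ℂ (S n (ContinuousMap.toLp 2 mm ℂ f))
      (ContinuousMap.toLp 2 mm ℂ g)) atTop (𝓝 0)) (x y : HH) :
    Tendsto (fun n : ℕ => inner ℂ (S n x) y) atTop (𝓝 0) := by
  rw [Metric.tendsto_atTop]
  intro ε hε
  have hd : DenseRange (ContinuousMap.toLp 2 mm ℂ : C(X, ℂ) →L[ℂ] HH) :=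
    ContinuousMap.toLp_denseRange ℂ mm ℂ (by norm_num)
  obtain ⟨f, hf⟩ := hd.exists_dist_lt x (ε := ε / (3 * (‖y‖ + 1))) (by positivity)
  obtain ⟨g, hg⟩ := hd.exists_dist_lt y (ε := ε / (3 * (‖ContinuousMap.toLp 2 mm ℂ f‖ + 1))) (by positivity)
  set F : HH := ContinuousMap.toLp 2 mm ℂ f with hF
  set G : HH := ContinuousMap.toLp 2 mm ℂ g with hG
  obtain ⟨N, hN⟩ := (Metric.tendsto_atTop.1 (h f g)) (ε / 3) (by positivity)
  refine ⟨N, fun n hn => ?_⟩
  have h1 := hN n hn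
  rw [dist_zero_right] at h1 ⊢
  rw [dist_eq_norm] at hf hg
  have hSn : ∀ z, ‖S n z‖ ≤ ‖z‖ := fun z => by
    calc ‖S n z‖ ≤ ‖S n‖ * ‖z‖ := (S n).le_opNorm z
      _ ≤ 1 * ‖z‖ := by gcongr; exact hS n
      _ = ‖z‖ := one_mul _
  have e : inner ℂ (S n x) y = inner ℂ (S n (x - F)) y + inner ℂ (S n F) (y - G) + inner ℂ (S n F) G := by
    rw [map_sub, inner_sub_left, inner_sub_right]
    ring
  have b1 : ‖inner ℂ (S n (x - F)) y‖ ≤ ε / 3 := by
    calc _ ≤ ‖S n (x - F)‖ * ‖y‖ := norm_inner_le_norm _ _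
      _ ≤ ‖x - F‖ * ‖y‖ := by gcongr; exact hSn _
      _ ≤ ε / (3 * (‖y‖ + 1)) * ‖y‖ := by gcongr
      _ ≤ ε / 3 := by
        rw [div_mul_eq_mul_div, div_le_div_iff₀ (by positivity) (by norm_num)]
        nlinarith [norm_nonneg y]
  have b2 : ‖inner ℂ (S n F) (y - G)‖ ≤ ε / 3 := by
    calc _ ≤ ‖S n F‖ * ‖y - G‖ := norm_inner_le_norm _ _
      _ ≤ ‖F‖ * (ε / (3 * (‖F‖ + 1))) := by
        apply mul_le_mul (hSn _) hg.le (norm_nonneg _) (norm_nonneg _)
      _ ≤ ε / 3 := by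
        rw [mul_div_assoc', div_le_div_iff₀ (by positivity) (by norm_num)]
        nlinarith [norm_nonneg F]
  rw [e]
  calc _ ≤ ‖inner ℂ (S n (x - F)) y + inner ℂ (S n F) (y - G)‖ + ‖inner ℂ (S n F) G‖ := norm_add_le _ _
    _ ≤ ‖inner ℂ (S n (x - F)) y‖ + ‖inner ℂ (S n F) (y - G)‖ + ‖inner ℂ (S n F) G‖ := by
      gcongr; exact norm_add_le _ _
    _ < ε := by linarith

theorem V_weak (x y : HH) : Tendsto (fun n : ℕ => inner ℂ ((fun z : HH => z - (2 : ℂ) •
    ∫ t in Set.Ioi (0 : ℝ), ((Real.exp (-t) : ℝ) : ℂ) • T t z)^[n] x) y) atTop (𝓝 0) := by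
  simp only [V_iter]
  exact weak_dense (fun n => ML (V0 ^ n)) (fun n => ML_norm _ fun x => (V0_norm n x).le) inner_raj x y

theorem T_not_weak : ¬ ∀ x y : HH, Tendsto (fun t : ℝ => inner ℂ (T t x) y) atTop (𝓝 0) := by
  intro h
  have h1 := h (ContinuousMap.toLp 2 mm ℂ 1) (ContinuousMap.toLp 2 mm ℂ 1)
  have h2 : Tendsto tt atTop atTop := tendsto_atTop_mono tt_large tendsto_natCast_atTop_atTop
  have h3 := (Complex.continuous_re.tendsto _).comp (h1.comp h2)
  have h4 : (1 : ℝ) / 4 ≤ (0 : ℂ).re := by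
    refine ge_of_tendsto' h3 fun k => ?_
    have h5 := nu_res k
    simp only [Function.comp]
    have h6 : inner ℂ (T (tt k) (ContinuousMap.toLp 2 mm ℂ 1)) (ContinuousMap.toLp 2 mm ℂ 1) =
        conj (∫ x : X, exp (I * tt k * ((x : ℝ) : ℂ)) ∂mm) := by
      rw [L2.inner_def, ← integral_conj]
      apply integral_congr_ae
      filter_upwards [ML_coe (ee (tt k)) (ContinuousMap.toLp 2 mm ℂ 1),
        ContinuousMap.coeFn_toLp (p := 2) (𝕜 := ℂ) mm (1 : C(X, ℂ))] with x h1 h2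
      unfold T
      rw [h1, h2, RCLike.inner_apply', ee_apply]
      simp
    rw [h6, conj_re]
    exact h5
  rw [zero_re] at h4
  linarith

end Pool.Agent.W352.Raj
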