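import Pool.Agent.W894.HT.Lib

/-!
# HT-CH3: `#P` is closed under `f ↦ f choose 3`
-/

set_option autoImplicit false

namespace Pool.Agent.NPC.W352HTCh3

open Pool.Agent.NPC Pool.Agent.NPC.Cnt
open Pool.Agent.W894.HT

/-- the piece number `k` of length `n` -/
def pc3 (w : List Bool) (n k : ℕ) : List Bool := (List.range n).map fun i => w.getD (k * n + i) false

theorem pc3_0 (a b : List Bool) (n : ℕ) (ha : a.length = n) : pc3 (a ++ b) n 0 = a := by
  unfold pc3
  apply List.ext_getElem
  · rw [List.length_map, List.length_range, ha]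
  · intro i h1 h2
    rw [List.getElem_map, List.getElem_range, Nat.zero_mul, Nat.zero_add,
      List.getD_eq_getElem?_getD, List.getElem?_append_left h2, List.getElem?_eq_getElem h2]
    rfl

theorem pc3_succ (a b : List Bool) (n k : ℕ) (ha : a.length = n) :
    pc3 (a ++ b) n (k + 1) = pc3 b n k := by
  unfold pc3
  apply List.map_congr_left
  intro i _
  rw [List.getD_eq_getElem?_getD, List.getD_eq_getElem?_getD,
    List.getElem?_append_right (by rw [ha, Nat.succ_mul]; omega)]
  congr 2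
  rw [ha, Nat.succ_mul]
  omega

theorem pc3_all (a b c : List Bool) (n : ℕ) (ha : a.length = n) (hb : b.length = n)
    (hc : c.length = n) : pc3 (a ++ (b ++ c)) n 0 = a ∧ pc3 (a ++ (b ++ c)) n 1 = b ∧
      pc3 (a ++ (b ++ c)) n 2 = c := by
  refine ⟨pc3_0 a _ n ha, ?_, ?_⟩
  · rw [pc3_succ a _ n 0 ha, pc3_0 b _ n hb]
  · rw [pc3_succ a _ n 1 ha, pc3_succ b _ n 0 hb]
    have h := pc3_0 c [] n hc
    rwa [List.append_nil] at h

theorem valB_inj : ∀ (a b : List Bool), a.length = b.length → valB a = valB b → a = b := by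
  intro a
  induction a with
  | nil =>
    intro b h _
    exact (List.length_eq_zero_iff.1 h.symm).symm
  | cons x a ih =>
    intro b h hv
    cases b with
    | nil => simp at h
    | cons y b =>
      rw [valB_cons, valB_cons] at hv
      have h1 : a.length = b.length := by simpa using h
      cases x <;> cases y <;> simp at hv
      · rw [ih b h1 (by omega)]
      · omega
      · omega
      · rw [ih b h1 (by omega)]

/-- the number of increasing triples -/
theorem triples {α : Type} [DecidableEq α] (S : Finset α) (v : α → ℕ)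
    (hv : ∀ a ∈ S, ∀ b ∈ S, v a = v b → a = b) :
    ((S ×ˢ (S ×ˢ S)).filter fun t => v t.1 < v t.2.1 ∧ v t.2.1 < v t.2.2).card =
      S.card.choose 3 := by
  rw [← Finset.card_powersetCard]
  refine Finset.card_bij (fun t _ => ({t.1, t.2.1, t.2.2} : Finset α)) ?_ ?_ ?_
  · rintro ⟨a, b, c⟩ h
    simp only [Finset.mem_filter, Finset.mem_product] at h
    obtain ⟨⟨ha, hb, hc⟩, h1, h2⟩ := h
    rw [Finset.mem_powersetCard]
    refine ⟨?_, ?_⟩
    · intro z hz
      simp only [Finset.mem_insert, Finset.mem_singleton] at hz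
      rcases hz with rfl | rfl | rfl
      · exact ha
      · exact hb
      · exact hc
    · have h3 : a ≠ b := fun e => by rw [e] at h1; omega
      have h4 : a ≠ c := fun e => by rw [e] at h1; omega
      have h5 : b ≠ c := fun e => by rw [e] at h2; omega
      exact Finset.card_eq_three.2 ⟨a, b, c, h3, h4, h5, rfl⟩
  · rintro ⟨a, b, c⟩ h ⟨a', b', c'⟩ h' e
    simp only [Finset.mem_filter, Finset.mem_product] at h h' e
    obtain ⟨-, h1, h2⟩ := h
    obtain ⟨-, h3, h4⟩ := h'
    have e1 : a ∈ ({a', b', c'} : Finset α) := by rw [← e]; simp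
    have e2 : b ∈ ({a', b', c'} : Finset α) := by rw [← e]; simp
    have e3 : c ∈ ({a', b', c'} : Finset α) := by rw [← e]; simp
    simp only [Finset.mem_insert, Finset.mem_singleton] at e1 e2 e3
    rcases e1 with rfl | rfl | rfl <;> rcases e2 with rfl | rfl | rfl <;>
      rcases e3 with rfl | rfl | rfl <;> first | rfl | (exfalso; omega)
  · intro U hU
    rw [Finset.mem_powersetCard] at hU
    obtain ⟨hU, h3⟩ := hU
    obtain ⟨x, y, z, hxy, hxz, hyz, rfl⟩ := Finset.card_eq_three.1 h3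
    have hx : x ∈ S := hU (by simp)
    have hy : y ∈ S := hU (by simp)
    have hz : z ∈ S := hU (by simp)
    have h1 : v x ≠ v y := fun e => hxy (hv x hx y hy e)
    have h2 : v x ≠ v z := fun e => hxz (hv x hx z hz e)
    have h4 : v y ≠ v z := fun e => hyz (hv y hy z hz e)
    have key : ∀ a ∈ S, ∀ b ∈ S, ∀ c ∈ S, v a < v b → v b < v c →
        ({a, b, c} : Finset α) = {x, y, z} →
        ∃ t, ∃ (_ : t ∈ (S ×ˢ (S ×ˢ S)).filter fun t => v t.1 < v t.2.1 ∧ v t.2.1 < v t.2.2),
          ({t.1, t.2.1, t.2.2} : Finset α) = {x, y, z} := by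
      intro a ha b hb c hc h5 h6 h7
      exact ⟨(a, b, c), by simp [ha, hb, hc, h5, h6], h7⟩
    rcases Nat.lt_or_gt_of_ne h1 with k1 | k1 <;> rcases Nat.lt_or_gt_of_ne h2 with k2 | k2 <;>
      rcases Nat.lt_or_gt_of_ne h4 with k3 | k3
    · exact key x hx y hy z hz k1 k3 rfl
    · exact key x hx z hz y hy k2 k3 (by ext w; simp; tauto)
    · omega
    · exact key z hz x hx y hy k2 k1 (by ext w; simp; tauto)
    · exact key y hy x hx z hz k1 k2 (by ext w; simp; tauto)
    · omega
    · exact key y hy z hz x hx k3 k2 (by ext w; simp; tauto)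
    · exact key z hz y hy x hx k3 k1 (by ext w; simp; tauto)

theorem pairBits_poly {α : Type} [TEnc α] {x w : α → List Bool} (hx : Poly x) (hw : Poly w) :
    Poly (fun a => pairBits (x a) (w a)) := by
  unfold pairBits
  exact Poly.append (Poly.flatMap (F := fun (_ : α) b => [true, b]) hx
    (Poly.cons (Poly.const true) (Poly.cons (Poly.snd Poly.id) (Poly.const []))))
    (Poly.cons (Poly.const false) hw)

theorem polyV {V : List Bool → List Bool} (hV : PolyTime V) {α : Type} [TEnc α]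
    {y : α → List Bool} (hy : Poly y) : Poly (fun a => V (y a)) := by
  have h0 : PC (fun x : List Bool => x) (fun x : List Bool => x) V :=
    Pool.Agent.H642R2.TMSim.polyTime_toPC hV
  have h1 : PC (bits : α → List Bool) (fun x : List Bool => x) (fun a => y a) :=
    PC.comp (g := fun x : List Bool => x) (f := y) pc_raw hy
  have h2 : PC (bits : α → List Bool) (fun x : List Bool => x) (fun a => V (y a)) :=
    PC.comp (g := V) (f := y) h0 h1
  exact PC.comp (g := fun x : List Bool => x) (f := fun a => V (y a)) PC.ofBits h2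

theorem pc3_poly {α : Type} [TEnc α] {w : α → List Bool} {n : α → ℕ} (hw : Poly w)
    (hn : UPoly n) (k : ℕ) : Poly (fun a => pc3 (w a) (n a) k) := by
  unfold pc3
  exact Poly.map (F := fun (a : α) i => (w a).getD (k * n a + i) false) hn.range
    (Poly.getD (hw.comp (Poly.fst Poly.id)) (Poly.add (Poly.mul (Poly.const k)
      (hn.toPoly.comp (Poly.fst Poly.id))) (Poly.snd Poly.id)) (Poly.const false))

theorem main : S_CH3 := by
  classical
  intro f hf
  obtain ⟨V, p, hV, hf⟩ := hf
  obtain ⟨ok, hok⟩ : ∃ ok : List Bool × List Bool → Bool,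
      ok = fun q => decide (V (pairBits q.1 q.2) = [true]) := ⟨_, rfl⟩
  have hokP : Poly ok := by
    rw [hok]
    exact Poly.decide_eq (polyV hV (pairBits_poly (Poly.fst Poly.id) (Poly.snd Poly.id)))
      (Poly.const [true])
  have hokI : ∀ x w, ok (x, w) = true ↔ V (pairBits x w) = [true] := by
    intro x w
    rw [hok]
    simp
  obtain ⟨g, hg⟩ : ∃ g : List Bool × List Bool → Bool, g = fun q =>
      (ok (q.1, pc3 q.2 (p.eval q.1.length) 0) && (ok (q.1, pc3 q.2 (p.eval q.1.length) 1) &&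
        ok (q.1, pc3 q.2 (p.eval q.1.length) 2))) &&
      (decide (valB (pc3 q.2 (p.eval q.1.length) 0) < valB (pc3 q.2 (p.eval q.1.length) 1)) &&
        decide (valB (pc3 q.2 (p.eval q.1.length) 1) < valB (pc3 q.2 (p.eval q.1.length) 2))) :=
    ⟨_, rfl⟩
  have hn : UPoly (fun q : List Bool × List Bool => p.eval q.1.length) :=
    UPoly.eval (UPoly.length (Poly.fst Poly.id)) p
  have hpc : ∀ k, Poly (fun q : List Bool × List Bool => pc3 q.2 (p.eval q.1.length) k) :=
    fun k => pc3_poly (Poly.snd Poly.id) hn k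
  have hokk : ∀ k, Poly (fun q : List Bool × List Bool =>
      ok (q.1, pc3 q.2 (p.eval q.1.length) k)) :=
    fun k => hokP.comp (Poly.pair (Poly.fst Poly.id) (hpc k))
  have hgP : Poly g := by
    rw [hg]
    exact Poly.and (Poly.and (hokk 0) (Poly.and (hokk 1) (hokk 2)))
      (Poly.and (Poly.decide_lt (Poly.valBits (hpc 0)) (Poly.valBits (hpc 1)))
        (Poly.decide_lt (Poly.valBits (hpc 1)) (Poly.valBits (hpc 2))))
  refine sharpP_of_poly g hgP (Polynomial.C 3 * p) fun x => ?_
  obtain ⟨n, hn'⟩ : ∃ n, n = p.eval x.length := ⟨_, rfl⟩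
  have hfin : {w : List Bool | w.length = n ∧ V (pairBits x w) = [true]}.Finite :=
    (List.finite_length_eq Bool n).subset fun w hw => hw.1
  obtain ⟨S, hS⟩ : ∃ S : Finset (List Bool), S = hfin.toFinset := ⟨_, rfl⟩
  have hmem : ∀ w, w ∈ S ↔ w.length = n ∧ V (pairBits x w) = [true] := by
    intro w
    rw [hS, Set.Finite.mem_toFinset]
    rfl
  have hfS : f x = S.card := by
    rw [hf x, ← hn']
    exact Nat.subtype_card S hmem
  rw [hfS, ← triples S valB fun a ha b hb h => valB_inj a b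
    ((((hmem a).1 ha).1).trans (((hmem b).1 hb).1).symm) h]
  obtain ⟨Ft, hFt⟩ : ∃ Ft : List Bool × List Bool × List Bool → List Bool,
      Ft = fun t => t.1 ++ (t.2.1 ++ t.2.2) := ⟨_, rfl⟩
  obtain ⟨U, hU⟩ : ∃ U, U = (S ×ˢ (S ×ˢ S)).filter
      fun t => valB t.1 < valB t.2.1 ∧ valB t.2.1 < valB t.2.2 := ⟨_, rfl⟩
  have hUm : ∀ t, t ∈ U ↔ (t.1 ∈ S ∧ t.2.1 ∈ S ∧ t.2.2 ∈ S) ∧
      valB t.1 < valB t.2.1 ∧ valB t.2.1 < valB t.2.2 := by
    intro t
    rw [hU, Finset.mem_filter, Finset.mem_product, Finset.mem_product]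
  have hinj : Set.InjOn Ft U := by
    intro t ht t' ht' h
    obtain ⟨⟨h1, h2, h3⟩, -⟩ := (hUm t).1 ht
    obtain ⟨⟨h1', h2', h3'⟩, -⟩ := (hUm t').1 ht'
    have k := pc3_all t.1 t.2.1 t.2.2 n ((hmem _).1 h1).1 ((hmem _).1 h2).1 ((hmem _).1 h3).1
    have k' := pc3_all t'.1 t'.2.1 t'.2.2 n ((hmem _).1 h1').1 ((hmem _).1 h2').1
      ((hmem _).1 h3').1
    have h' : t.1 ++ (t.2.1 ++ t.2.2) = t'.1 ++ (t'.2.1 ++ t'.2.2) := by
      rw [hFt] at h
      exact h
    rw [h'] at k
    exact Prod.ext (k.1.symm.trans k'.1) (Prod.ext (k.2.1.symm.trans k'.2.1)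
      (k.2.2.symm.trans k'.2.2))
  rw [← hU, ← Finset.card_image_of_injOn hinj]
  symm
  refine Nat.subtype_card _ fun w => ?_
  rw [Finset.mem_image]
  constructor
  · rintro ⟨t, ht, rfl⟩
    obtain ⟨⟨h1, h2, h3⟩, h4, h5⟩ := (hUm t).1 ht
    obtain ⟨l1, v1⟩ := (hmem _).1 h1
    obtain ⟨l2, v2⟩ := (hmem _).1 h2
    obtain ⟨l3, v3⟩ := (hmem _).1 h3
    obtain ⟨k1, k2, k3⟩ := pc3_all t.1 t.2.1 t.2.2 n l1 l2 l3
    constructor
    · rw [hFt, List.length_append, List.length_append, l1, l2, l3, Polynomial.eval_mul,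
        Polynomial.eval_C, ← hn']
      ring
    · rw [hg, hFt]
      simp only [← hn', k1, k2, k3, Bool.and_eq_true, hokI, decide_eq_true_eq]
      exact ⟨⟨v1, v2, v3⟩, h4, h5⟩
  · rintro ⟨hw, hgw⟩
    rw [Polynomial.eval_mul, Polynomial.eval_C, ← hn'] at hw
    have l1 : (w.take n).length = n := by rw [List.length_take]; omega
    have l2 : ((w.drop n).take n).length = n := by
      rw [List.length_take, List.length_drop]; omega
    have l3 : ((w.drop n).drop n).length = n := by
      rw [List.length_drop, List.length_drop]; omega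
    have hwe : w = w.take n ++ ((w.drop n).take n ++ (w.drop n).drop n) := by
      rw [List.take_append_drop, List.take_append_drop]
    obtain ⟨k1, k2, k3⟩ := pc3_all _ _ _ n l1 l2 l3
    rw [← hwe] at k1 k2 k3
    rw [hg] at hgw
    simp only [← hn', k1, k2, k3, Bool.and_eq_true, hokI, decide_eq_true_eq] at hgw
    obtain ⟨⟨v1, v2, v3⟩, h4, h5⟩ := hgw
    refine ⟨(w.take n, (w.drop n).take n, (w.drop n).drop n), ?_, ?_⟩
    · exact (hUm _).2 ⟨⟨(hmem _).2 ⟨l1, v1⟩, (hmem _).2 ⟨l2, v2⟩, (hmem _).2 ⟨l3, v3⟩⟩, h4, h5⟩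
    · rw [hFt]
      exact hwe.symm

end Pool.Agent.NPC.W352HTCh3
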