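import Pool.Agent.W894.HT.Gr

/-!
# HT-TOG: toggling a block between two consecutive elements
-/

set_option autoImplicit false

namespace Pool.Agent.W352.HTTog

open Pool.Agent.W894.HT

section

variable {N : Type}

theorem uniq {u : N} {A B A' B' : List N} (h : (A ++ u :: B).Nodup)
    (e : A ++ u :: B = A' ++ u :: B') : A = A' ∧ B = B' := by
  have h1 : u ∉ A := by
    intro hu
    rw [List.nodup_append] at h
    exact h.2.2 u hu u (List.mem_cons_self) rfl
  have h2 : u ∉ B := by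
    intro hu
    rw [List.nodup_append, List.nodup_cons] at h
    exact h.2.1.1 hu
  have h3 := (List.append_cons_inj_of_notMem h1 h2).1 e
  exact ⟨h3.1, h3.2.2⟩

theorem mixed {u v : N} {A B A' B' : List N} (h : (A ++ u :: v :: B).Nodup)
    (e : A ++ u :: v :: B = A' ++ v :: u :: B') : False := by
  have e2 : A' ++ v :: u :: B' = (A' ++ [v]) ++ u :: B' := by simp
  rw [e2] at e
  obtain ⟨h1, h2⟩ := uniq h e
  rw [h1, List.nodup_append] at h
  exact h.2.2 v (by simp) v (by simp) rfl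

open Classical in
/-- remove the elements of `w` -/
noncomputable def rem (w l : List N) : List N := l.filter (fun z => decide (z ∉ w))

theorem fil {w w' A B : List N} {u v : N} (hw' : ∀ z ∈ w', z ∈ w)
    (h : ∀ z ∈ w, z ∉ A ++ u :: v :: B) :
    rem w (A ++ u :: (w' ++ v :: B)) = A ++ u :: v :: B := by
  classical
  unfold rem
  have hA : A.filter (fun z => decide (z ∉ w)) = A :=
    List.filter_eq_self.2 fun z hz => decide_eq_true fun hw => h z hw (by simp [hz])
  have hB : B.filter (fun z => decide (z ∉ w)) = B :=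
    List.filter_eq_self.2 fun z hz => decide_eq_true fun hw => h z hw (by simp [hz])
  have hw : w'.filter (fun z => decide (z ∉ w)) = [] :=
    List.filter_eq_nil_iff.2 fun z hz => by simp [hw' z hz]
  have hu : decide (u ∉ w) = true := decide_eq_true fun hw => h u hw (by simp)
  have hv : decide (v ∉ w) = true := decide_eq_true fun hw => h v hw (by simp)
  rw [List.filter_append, hA, List.filter_cons_of_pos (p := fun z => decide (z ∉ w)) hu,
    List.filter_append, hw, List.nil_append,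
    List.filter_cons_of_pos (p := fun z => decide (z ∉ w)) hv, hB]

end

open Classical in
theorem main : S_TOG := by
  intro N Q u v w hw huv hnd H1 H2
  -- the two sets
  set P0 : List N → Prop := fun l => ([u, v] <:+: l ∨ [v, u] <:+: l) ∧ ∀ z ∈ w, z ∉ l with hP0
  set P1 : List N → Prop := fun l => u :: (w ++ [v]) <:+: l ∨ v :: (w.reverse ++ [u]) <:+: l
    with hP1
  -- description of the second set
  have hX1 : ∀ l ∈ Q, P1 l → ∃ A B : List N,
      (l = A ++ u :: (w ++ v :: B) ∧ A ++ u :: v :: B ∈ Q ∧ ∀ z ∈ w, z ∉ A ++ u :: v :: B) ∨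
      (l = A ++ v :: (w.reverse ++ u :: B) ∧ A ++ v :: u :: B ∈ Q ∧
        ∀ z ∈ w, z ∉ A ++ v :: u :: B) := by
    rintro l hl (⟨A, B, h⟩ | ⟨A, B, h⟩)
    · have h' : l = A ++ u :: (w ++ v :: B) := by
        rw [← h]
        simp
      refine ⟨A, B, Or.inl ⟨h', ?_⟩⟩
      exact (H1 A B).2 (by rw [← h']; exact hl)
    · have h' : l = A ++ v :: (w.reverse ++ u :: B) := by
        rw [← h]
        simp
      refine ⟨A, B, Or.inr ⟨h', ?_⟩⟩
      exact (H2 A B).2 (by rw [← h']; exact hl)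
  have hrev : ∀ z ∈ w.reverse, z ∈ w := fun z hz => List.mem_reverse.1 hz
  have hcard : (Q.filter P1).card = (Q.filter P0).card := by
    refine Finset.card_bij (fun l _ => rem w l) ?_ ?_ ?_
    · intro l hl
      obtain ⟨hlQ, hl1⟩ := Finset.mem_filter.1 hl
      obtain ⟨A, B, ⟨h, h3, h4⟩ | ⟨h, h3, h4⟩⟩ := hX1 l hlQ hl1
      · rw [h, fil (fun z hz => hz) h4]
        exact Finset.mem_filter.2 ⟨h3, Or.inl ⟨A, B, by simp⟩, h4⟩
      · rw [h, fil hrev h4]
        exact Finset.mem_filter.2 ⟨h3, Or.inr ⟨A, B, by simp⟩, h4⟩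
    · intro l hl l' hl' heq
      obtain ⟨hlQ, hl1⟩ := Finset.mem_filter.1 hl
      obtain ⟨hlQ', hl1'⟩ := Finset.mem_filter.1 hl'
      obtain ⟨A, B, ⟨h, h3, h4⟩ | ⟨h, h3, h4⟩⟩ := hX1 l hlQ hl1
      · obtain ⟨A', B', ⟨h', h3', h4'⟩ | ⟨h', h3', h4'⟩⟩ := hX1 l' hlQ' hl1'
        · rw [h, h', fil (fun z hz => hz) h4, fil (fun z hz => hz) h4'] at heq
          obtain ⟨e1, e2⟩ := uniq (hnd _ h3) heq
          have e3 : B = B' := (List.cons.inj e2).2
          rw [h, h', e1, e3]
        · rw [h, h', fil (fun z hz => hz) h4, fil hrev h4'] at heq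
          exact (mixed (hnd _ h3) heq).elim
      · obtain ⟨A', B', ⟨h', h3', h4'⟩ | ⟨h', h3', h4'⟩⟩ := hX1 l' hlQ' hl1'
        · rw [h, h', fil hrev h4, fil (fun z hz => hz) h4'] at heq
          exact (mixed (hnd _ h3) heq).elim
        · rw [h, h', fil hrev h4, fil hrev h4'] at heq
          obtain ⟨e1, e2⟩ := uniq (hnd _ h3) heq
          have e3 : B = B' := (List.cons.inj e2).2
          rw [h, h', e1, e3]
    · intro m hm
      obtain ⟨hmQ, h1, h2⟩ := Finset.mem_filter.1 hm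
      rcases h1 with ⟨A, B, h⟩ | ⟨A, B, h⟩
      · have h' : m = A ++ u :: v :: B := by rw [← h]; simp
        rw [h'] at hmQ h2
        have h5 := (H1 A B).1 ⟨hmQ, h2⟩
        refine ⟨A ++ u :: (w ++ v :: B), Finset.mem_filter.2 ⟨h5, Or.inl ⟨A, B, by simp⟩⟩, ?_⟩
        rw [h', fil (fun z hz => hz) h2]
      · have h' : m = A ++ v :: u :: B := by rw [← h]; simp
        rw [h'] at hmQ h2
        have h5 := (H2 A B).1 ⟨hmQ, h2⟩
        refine ⟨A ++ v :: (w.reverse ++ u :: B),
          Finset.mem_filter.2 ⟨h5, Or.inr ⟨A, B, by simp⟩⟩, ?_⟩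
        rw [h', fil hrev h2]
  -- the sets are disjoint
  obtain ⟨z0, hz0⟩ := List.exists_mem_of_ne_nil w hw
  have hdis : ∀ l, P0 l → P1 l → False := by
    rintro l ⟨-, h2⟩ (⟨A, B, h⟩ | ⟨A, B, h⟩)
    · exact h2 z0 hz0 (by rw [← h]; simp [hz0])
    · exact h2 z0 hz0 (by rw [← h]; simp [hz0])
  have hs1 : (Q.filter P0).card + (Q.filter fun l => ¬ P0 l).card = Q.card :=
    Finset.card_filter_add_card_filter_not P0
  have hs2 : ((Q.filter fun l => ¬ P0 l).filter P1).card +
      ((Q.filter fun l => ¬ P0 l).filter fun l => ¬ P1 l).card =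
      (Q.filter fun l => ¬ P0 l).card :=
    Finset.card_filter_add_card_filter_not P1
  have hs3 : (Q.filter fun l => ¬ P0 l).filter P1 = Q.filter P1 := by
    ext l
    simp only [Finset.mem_filter]
    constructor
    · rintro ⟨⟨h1, -⟩, h2⟩
      exact ⟨h1, h2⟩
    · rintro ⟨h1, h2⟩
      exact ⟨⟨h1, fun h => hdis l h h2⟩, h2⟩
  have hs4 : (Q.filter fun l => ¬ P0 l).filter (fun l => ¬ P1 l) =
      Q.filter fun l => ¬ P0 l ∧ ¬ P1 l := by
    rw [Finset.filter_filter]
  rw [hs3, hs4] at hs2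
  show Q.card % 2 = (Q.filter fun l => ¬ P0 l ∧ ¬ P1 l).card % 2
  omega

end Pool.Agent.W352.HTTog
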