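import Pool.Agent.W217.BE.Stm2

/-!
Project BE: Betti numbers and reduction modulo the regular element `X - 1`.
-/

set_option autoImplicit false

namespace Pool.Agent.W352.BEDEHOM

open Pool.Agent.W217.BE Polynomial

/-- the submodule `(X - 1) P` -/
noncomputable def Sb (C : Type) [CommRing C] (P : Type) [AddCommGroup P] [Module C[X] P] :
    Submodule C[X] P := LinearMap.range (LinearMap.lsmul C[X] P (X - 1))

/-- the quotient `P / (X - 1) P` -/
def Qt (C : Type) [CommRing C] (P : Type) [AddCommGroup P] [Module C[X] P] : Type := P ⧸ Sb C P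

section
variable (C : Type) [CommRing C] (P : Type) [AddCommGroup P] [Module C[X] P]

noncomputable instance : AddCommGroup (Qt C P) := inferInstanceAs (AddCommGroup (P ⧸ Sb C P))

noncomputable instance : Module C (Qt C P) :=
  Module.compHom (P ⧸ Sb C P) (Polynomial.C : C →+* C[X])

/-- the projection -/
noncomputable def rho : P →+ Qt C P := (Submodule.mkQ (Sb C P)).toAddMonoidHom

theorem rho_surj : Function.Surjective (rho C P) := Submodule.mkQ_surjective _

variable {C P}

theorem mem_Sb {x : P} : x ∈ Sb C P ↔ ∃ y, x = (X - 1 : C[X]) • y := by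
  unfold Sb
  rw [LinearMap.mem_range]
  constructor
  · rintro ⟨y, hy⟩
    exact ⟨y, hy.symm⟩
  · rintro ⟨y, hy⟩
    exact ⟨y, hy.symm⟩

theorem rho_zero {x : P} : rho C P x = 0 ↔ ∃ y, x = (X - 1 : C[X]) • y := by
  rw [← mem_Sb]
  exact Submodule.Quotient.mk_eq_zero _

theorem sub_eval (s : C[X]) : ∃ t : C[X], s - Polynomial.C (s.eval 1) = (X - 1) * t := by
  have h : X - Polynomial.C 1 ∣ s - Polynomial.C (s.eval 1) := by
    rw [Polynomial.dvd_iff_isRoot]
    simp [Polynomial.IsRoot]
  obtain ⟨t, ht⟩ := h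
  exact ⟨t, by rw [ht, map_one]⟩

theorem rho_smul (s : C[X]) (x : P) : rho C P (s • x) = s.eval 1 • rho C P x := by
  have h1 : s.eval 1 • rho C P x = rho C P (Polynomial.C (s.eval 1) • x) := rfl
  rw [h1, ← sub_eq_zero, ← map_sub, rho_zero]
  obtain ⟨t, ht⟩ := sub_eval s
  exact ⟨t • x, by rw [← sub_smul, ht, mul_smul]⟩

end

theorem exists_factor {A B D : Type} [AddCommGroup A] [AddCommGroup B] [AddCommGroup D]
    (f : A →+ B) (hf : Function.Surjective f) (g : A →+ D) (h : ∀ x, f x = 0 → g x = 0) :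
    ∃ g' : B →+ D, ∀ x, g' (f x) = g x :=
  ⟨f.liftOfSurjective hf ⟨g, fun x hx => h x hx⟩, fun x =>
    AddMonoidHom.liftOfRightInverse_comp_apply _ _ _ ⟨g, fun x hx => h x hx⟩ x⟩

section
variable {C : Type} [CommRing C] {P : Type} [AddCommGroup P] [Module C[X] P]

theorem factor_lin {V : Type} [AddCommGroup V] [Module C V] (g : P →+ V)
    (hg : ∀ (s : C[X]) x, g (s • x) = s.eval 1 • g x) :
    ∃ g' : Qt C P →ₗ[C] V, ∀ x, g' (rho C P x) = g x := by
  obtain ⟨g', hg'⟩ := exists_factor (rho C P) (rho_surj C P) g (fun x hx => by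
    obtain ⟨y, rfl⟩ := rho_zero.1 hx
    rw [hg]
    simp)
  refine ⟨{ g' with map_smul' := ?_ }, hg'⟩
  intro c x
  obtain ⟨y, rfl⟩ := rho_surj C P x
  have h1 : c • rho C P y = rho C P (Polynomial.C c • y) := by
    rw [rho_smul, eval_C]
  change g' (c • rho C P y) = c • g' (rho C P y)
  rw [h1, hg', hg', hg, eval_C]

/-- a `C`-module as a `C[X]`-module through evaluation at `1` -/
def Ev (V : Type) : Type := V

instance (V : Type) [h : AddCommGroup V] : AddCommGroup (Ev V) := h

noncomputable instance (V : Type) [AddCommGroup V] [h : Module C V] : Module C[X] (Ev V) :=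
  Module.compHom V (Polynomial.evalRingHom (1 : C))

/-- lifting of semilinear maps from a projective module -/
theorem lift_semi [Module.Projective C[X] P] {V W : Type} [AddCommGroup V] [Module C V]
    [AddCommGroup W] [Module C W] (f : V →ₗ[C] W) (hf : Function.Surjective f) (g : P →+ W)
    (hg : ∀ (s : C[X]) x, g (s • x) = s.eval 1 • g x) :
    ∃ h : P →+ V, (∀ (s : C[X]) x, h (s • x) = s.eval 1 • h x) ∧ ∀ x, f (h x) = g x := by
  let f' : Ev V →ₗ[C[X]] Ev W :=
    { toFun := f, map_add' := f.map_add, map_smul' := fun s v => f.map_smul (s.eval 1) v }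
  let g' : P →ₗ[C[X]] Ev W :=
    { toFun := g, map_add' := g.map_add, map_smul' := fun s x => hg s x }
  obtain ⟨h, hh⟩ := Module.projective_lifting_property f' g' hf
  refine ⟨⟨⟨h, h.map_zero⟩, h.map_add⟩, fun s x => h.map_smul s x, fun x => ?_⟩
  exact LinearMap.congr_fun hh x

theorem proj_Qt [Module.Projective C[X] P] : Module.Projective C (Qt C P) := by
  refine Module.Projective.of_lifting_property'' ?_
  intro f hf
  obtain ⟨h, h1, h2⟩ := lift_semi f hf (rho C P) rho_smul
  obtain ⟨h', hh'⟩ := factor_lin h h1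
  refine ⟨h', ?_⟩
  ext x
  obtain ⟨y, rfl⟩ := rho_surj C P x
  change f (h' (rho C P y)) = rho C P y
  rw [hh', h2]

theorem reg_proj [Module.Projective C[X] P] (x : P) (hx : (X - 1 : C[X]) • x = 0) : x = 0 := by
  obtain ⟨s, hs⟩ := (inferInstance : Module.Projective C[X] P)
  have h1 : s x = 0 := by
    ext1 i
    have h2 : (X - 1 : C[X]) * s x i = 0 := by
      have h3 : s ((X - 1 : C[X]) • x) = 0 := by rw [hx, map_zero]
      rw [map_smul] at h3
      have h4 := DFunLike.congr_fun h3 i
      simpa using h4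
    have hm : (X - 1 : C[X]).Monic := by
      have := Polynomial.monic_X_sub_C (1 : C)
      rwa [map_one] at this
    have h5 := hm.mul_right_eq_zero_iff.1 h2
    simpa using h5
  have h6 := hs x
  rw [h1, map_zero] at h6
  exact h6.symm

end

theorem main : DEHOM := by
  intro C κ _ _ χ M M' _ _ _ _ ρ b hρs hρl hρk hreg hHB P _ _ _ d ε hres i
  obtain ⟨hε, hd0, hdi⟩ := hres
  have hd' : ∀ i, ∃ g : Qt C (P (i + 1)) →ₗ[C] Qt C (P i), ∀ x,
      g (rho C (P (i + 1)) x) = rho C (P i) (d i x) := fun i =>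
    factor_lin ((rho C (P i)).comp (d i).toAddMonoidHom) (fun s x => by
      change rho C (P i) (d i (s • x)) = s.eval 1 • rho C (P i) (d i x)
      rw [map_smul, rho_smul])
  choose d' hd' using hd'
  obtain ⟨ε', hε'⟩ := factor_lin (C := C) (ρ.comp ε.toAddMonoidHom) (fun s x => by
      change ρ (ε (s • x)) = s.eval 1 • ρ (ε x)
      rw [map_smul, hρl])
  have hε'' : ∀ x, ε' (rho C (P 0) x) = ρ (ε x) := hε'
  have : ∀ i, Module.Projective C (Qt C (P i)) := fun i => proj_Qt
  have hdd0 : ∀ x, ε (d 0 x) = 0 := fun x => by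
    have : d 0 x ∈ LinearMap.ker ε := by
      rw [← hd0]
      exact ⟨x, rfl⟩
    exact this
  have hddi : ∀ i x, d i (d (i + 1) x) = 0 := fun i x => by
    have : d (i + 1) x ∈ LinearMap.ker (d i) := by
      rw [← hdi]
      exact ⟨x, rfl⟩
    exact this
  -- exactness, common part
  have key : ∀ i (x : P (i + 1)), rho C (P i) (d i x) = 0 →
      (∀ z : P i, (X - 1 : C[X]) • z = d i x → ∃ w, z = d i w) →
      rho C (P (i + 1)) x ∈ LinearMap.range (d' (i + 1)) := by
    intro i x hx hz
    obtain ⟨z, hz1⟩ := rho_zero.1 hx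
    obtain ⟨w, rfl⟩ := hz z hz1.symm
    have h1 : x - (X - 1 : C[X]) • w ∈ LinearMap.ker (d i) := by
      rw [LinearMap.mem_ker, map_sub, map_smul, hz1, sub_self]
    rw [← hdi] at h1
    obtain ⟨v, hv⟩ := h1
    refine ⟨rho C (P (i + 1 + 1)) v, ?_⟩
    rw [hd', hv, map_sub]
    have h2 : rho C (P (i + 1)) ((X - 1 : C[X]) • w) = 0 := rho_zero.2 ⟨w, rfl⟩
    rw [h2, sub_zero]
  have hres' : IsRes (P := fun i => Qt C (P i)) d' ε' := by
    refine ⟨?_, ?_, ?_⟩
    · intro m'
      obtain ⟨m, rfl⟩ := hρs m'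
      obtain ⟨x, rfl⟩ := hε m
      exact ⟨rho C (P 0) x, hε'' x⟩
    · ext x
      constructor
      · rintro ⟨v, rfl⟩
        obtain ⟨y, rfl⟩ := rho_surj C _ v
        rw [LinearMap.mem_ker, hd', hε'', hdd0, map_zero]
      · intro hx
        obtain ⟨y, rfl⟩ := rho_surj C _ x
        rw [LinearMap.mem_ker, hε''] at hx
        obtain ⟨m, hm⟩ := hρk _ hx
        obtain ⟨w, rfl⟩ := hε m
        have h1 : y - (X - 1 : C[X]) • w ∈ LinearMap.ker ε := by
          rw [LinearMap.mem_ker, map_sub, map_smul, hm, sub_self]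
        rw [← hd0] at h1
        obtain ⟨v, hv⟩ := h1
        refine ⟨rho C (P (0 + 1)) v, ?_⟩
        rw [hd', hv, map_sub]
        have h2 : rho C (P 0) ((X - 1 : C[X]) • w) = 0 := rho_zero.2 ⟨w, rfl⟩
        rw [h2, sub_zero]
    · intro i
      ext x
      constructor
      · rintro ⟨v, rfl⟩
        obtain ⟨y, rfl⟩ := rho_surj C _ v
        rw [LinearMap.mem_ker, hd', hd', hddi, map_zero]
      · intro hx
        obtain ⟨y, rfl⟩ := rho_surj C _ x
        rw [LinearMap.mem_ker, hd'] at hx
        apply key i y hx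
        intro z hz
        cases i with
        | zero =>
          have h1 : ε z = 0 := by
            apply hreg
            rw [← map_smul, hz, hdd0]
          have h2 : z ∈ LinearMap.range (d 0) := by
            rw [hd0]
            exact h1
          obtain ⟨w, hw⟩ := h2
          exact ⟨w, hw.symm⟩
        | succ i =>
          have h1 : d i z = 0 := by
            refine reg_proj (C := C) (d i z) ?_
            rw [← map_smul, hz, hddi]
          have h2 : z ∈ LinearMap.range (d (i + 1)) := by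
            rw [hdi]
            exact h1
          obtain ⟨w, hw⟩ := h2
          exact ⟨w, hw.symm⟩
  obtain ⟨z', l', hz1, hl1, hl2, hl3⟩ := hHB (fun i => Qt C (P i)) d' ε' hres' i
  have hzz : ∀ j, ∃ z, rho C (P i) z = z' j := fun j => rho_surj C _ (z' j)
  choose z hz using hzz
  refine ⟨z, fun j => (l' j).comp (rho C (P i)), ?_, ?_, ?_, ?_⟩
  · intro j
    cases i with
    | zero => trivial
    | succ k =>
      intro L hL
      obtain ⟨L', hL'⟩ := exists_factor (rho C (P k)) (rho_surj C _) L (fun x hx => by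
        obtain ⟨y, rfl⟩ := rho_zero.1 hx
        rw [hL]
        simp)
      have hF : IsF χ L' := by
        intro c x
        obtain ⟨y, rfl⟩ := rho_surj C _ x
        have h1 : c • rho C (P k) y = rho C (P k) (Polynomial.C c • y) := by
          rw [rho_smul, eval_C]
        rw [h1, hL', hL', hL]
        simp
      have h2 := hz1 j L' hF
      rw [← hz, hd', hL'] at h2
      exact h2
  · intro j s x
    change l' j (rho C (P i) (s • x)) = _ * l' j (rho C (P i) x)
    rw [rho_smul, hl1 j]
    rfl
  · intro j x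
    change l' j (rho C (P i) (d i x)) = 0
    rw [← hd', hl2]
  · intro j k
    change l' j (rho C (P i) (z k)) = _
    rw [hz, hl3]

end Pool.Agent.W352.BEDEHOM
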