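import Pool.Agent.W894.HT.Defs

/-!
# HT-EVAL: evaluation of the sums over all orders
-/

set_option autoImplicit false

namespace Pool.Agent.W352.HTEval

open Pool.Agent.W894.HT

section

variable {A : Type} [CommRing A]

/-- `finM m` only uses the coordinates below `3 * m + 3` -/
theorem finM_congr : ∀ (m u : ℕ) (κ κ' : ℕ → ℕ), (∀ c, c < 3 * m + 3 → κ c = κ' c) →
    (finM m u κ : A) = finM m u κ' := by
  intro m
  induction m with
  | zero =>
    intro u κ κ' h
    unfold finM
    rw [h 2 (by omega)]
  | succ m ih =>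
    intro u κ κ' h
    unfold finM
    rw [h (3 * m + 4) (by omega), ih u κ κ' (fun c hc => h c (by omega))]

theorem finM_itv : ∀ (m u v : ℕ) (κ : ℕ → ℕ), 3 * m + 3 ≤ v → u < v →
    (finM m v (fun w => κ w + itv u v w) : A) = finM m u κ := by
  intro m
  induction m with
  | zero =>
    intro u v κ hv huv
    unfold finM
    have h1 : κ 2 + itv u v 2 + low v 2 = κ 2 + low u 2 := by
      unfold itv low
      split_ifs <;> omega
    rw [h1]
  | succ m ih =>
    intro u v κ hv huv
    unfold finM
    have h1 : κ (3 * m + 4) + itv u v (3 * m + 4) + low v (3 * m + 4) =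
        κ (3 * m + 4) + low u (3 * m + 4) := by
      unfold itv low
      split_ifs <;> omega
    simp only [h1]
    rw [ih u v κ (by omega) huv]

theorem finM_inl (m u : ℕ) (κ : ℕ → ℕ) :
    (TrivSqZeroExt.inl (finM m u κ : A) : DualNumber A) = finM m u κ := by
  induction m with
  | zero =>
    unfold finM
    exact TrivSqZeroExt.inl_natCast _
  | succ m ih =>
    unfold finM
    split_ifs
    · exact ih
    · exact TrivSqZeroExt.inl_zero A

theorem sum_flatMap' {α β : Type} (L : List α) (f : α → List β) (g : β → A) :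
    ((L.flatMap f).map g).sum = (L.map fun l => ((f l).map g).sum).sum := by
  induction L with
  | nil => rfl
  | cons a L ih =>
    rw [List.flatMap_cons, List.map_append, List.sum_append, List.map_cons, List.sum_cons, ih]

theorem sum_fst_snd {α : Type} (L : List α) (F : α → DualNumber A) :
    ((L.map F).sum).fst + ((L.map F).sum).snd =
      (L.map fun l => (F l).fst + (F l).snd).sum := by
  induction L with
  | nil => simp
  | cons a L ih =>
    rw [List.map_cons, List.sum_cons, List.map_cons, List.sum_cons, ← ih,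
      TrivSqZeroExt.fst_add, TrivSqZeroExt.snd_add]
    ring

theorem mem_Vd : ∀ (m u : ℕ), u ∈ Vd m → u < 3 * m + 4 := by
  intro m
  induction m with
  | zero => intro u hu; exact absurd hu (List.not_mem_nil)
  | succ m ih =>
    intro u hu
    rcases List.mem_cons.1 hu with rfl | hu
    · omega
    · have := ih u hu
      omega

/-- elimination of the top vertex -/
theorem step (h1 : S_TOP) (h2 : S_DFST) (m x : ℕ) (φ : ℕ → ℕ → A) (T : List ℕ)
    (hx : x < 3 * m + 4) (hT : ∀ u ∈ T, u < 3 * m + 4) :
    PS φ (finM (m + 1)) x (Vd (m + 1) ++ T) =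
      (PS (A := DualNumber A) (dl φ (3 * m + 6)) (finM m) x (Vd m ++ T)).fst +
      (PS (A := DualNumber A) (dl φ (3 * m + 6)) (finM m) x (Vd m ++ T)).snd := by
  have e1 : (Vd (m + 1) ++ T).permutations' =
      (Vd m ++ T).permutations'.flatMap (List.permutations'Aux (3 * m + 6)) := rfl
  unfold PS
  rw [e1, sum_flatMap', sum_fst_snd]
  congr 1
  refine List.map_congr_left fun l hl => ?_
  have hl' : ∀ u ∈ l, u < 3 * m + 4 := by
    intro u hu
    have h3 := (List.mem_permutations'.1 hl).mem_iff.1 hu
    rcases List.mem_append.1 h3 with h4 | h4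
    · exact mem_Vd m u h4
    · exact hT u h4
  have key := h1 A φ (finM m) (3 * m + 6) (3 * m + 4) (by omega)
    (fun u κ κ' h => finM_congr m u κ κ' fun c hc => h c (by omega))
    (fun u κ hu => finM_itv m u (3 * m + 6) κ (by omega) hu) l x (fun _ => 0) hx hl' rfl
  have e2 : (fun u κ => TrivSqZeroExt.inl (finM m u κ : A) : ℕ → (ℕ → ℕ) → DualNumber A) =
      finM m := by
    funext u κ
    exact finM_inl m u κ
  rw [e2] at key
  have key2 := h2 A φ (finM m) (3 * m + 6) l x (fun _ => 0)
  rw [e2] at key2
  rw [key2]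
  exact key

end

theorem mainH (h1 : S_TOP) (h2 : S_DFST) (h3 : S_PSTEP) : S_EVALH := by
  intro m
  induction m with
  | zero =>
    intro A _ φ hφ
    have e1 : (Vd 0 ++ [3, 1]).permutations' = [[3, 1], [1, 3]] := rfl
    have e2 : PP φ 3 1 (Vd 0) = φ 3 1 := by
      simp [PP, Vd, wtp]
    unfold PS
    rw [e1, e2]
    simp [Rr, finM, hφ, itv, low]
    ring
  | succ m ih =>
    intro A _ φ hφ
    rw [step h1 h2 m 0 φ [3, 1] (by omega) (by
      intro u hu
      simp only [List.mem_cons, List.not_mem_nil, or_false] at hu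
      omega), ih (DualNumber A) (dl φ (3 * m + 6)) (by
      intro u
      unfold dl
      rw [hφ, hφ, zero_mul]
      simp)]
    have e3 : PP φ 3 1 (Vd (m + 1)) = PP φ 3 1 ((3 * m + 6) :: Vd m) := rfl
    rw [e3, h3, two_mul, two_mul]
    simp only [TrivSqZeroExt.fst_add, TrivSqZeroExt.snd_add, TrivSqZeroExt.fst_one,
      TrivSqZeroExt.snd_one]
    ring

theorem mainB (h1 : S_TOP) (h2 : S_DFST) (h3 : S_PSTEP) : S_EVALB := by
  intro m
  induction m with
  | zero =>
    intro A _ φ
    have e1 : (Vd 0 ++ [1]).permutations' = [[1]] := rfl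
    have e2 : PP φ 3 1 (Vd 0) = φ 3 1 := by
      simp [PP, Vd, wtp]
    unfold PS
    rw [e1, e2]
    simp [Rr, finM, low]
  | succ m ih =>
    intro A _ φ
    rw [step h1 h2 m 3 φ [1] (by omega) (by
      intro u hu
      simp only [List.mem_cons, List.not_mem_nil, or_false] at hu
      omega), ih (DualNumber A) (dl φ (3 * m + 6))]
    have e3 : PP φ 3 1 (Vd (m + 1)) = PP φ 3 1 ((3 * m + 6) :: Vd m) := rfl
    rw [e3, h3]

end Pool.Agent.W352.HTEval
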