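import Pool.Agent.W894.HT.Ex

/-!
# HT-XMAIN: the leading term of the word sum
-/

set_option autoImplicit false

namespace Pool.Agent.W352.HTXMain

open Pool.Agent.W894.HT

theorem bound {α : Type} (f : α → ℤ) (p : α → Bool) (c B : ℤ) (L : List α)
    (h : ∀ l ∈ L, |f l - (if p l = true then c else 0)| ≤ B) :
    |(L.map f).sum - ((L.filter p).length : ℤ) * c| ≤ (L.length : ℤ) * B := by
  induction L with
  | nil => simp
  | cons a L ih =>
    have h1 := h a (by simp)
    have h2 := ih fun l hl => h l (by simp [hl])
    have e : ((a :: L).map f).sum - (((a :: L).filter p).length : ℤ) * c =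
        (f a - (if p a = true then c else 0)) +
          ((L.map f).sum - ((L.filter p).length : ℤ) * c) := by
      rw [List.map_cons, List.sum_cons, List.filter_cons]
      by_cases hp : p a = true
      · rw [if_pos hp, if_pos hp, List.length_cons]
        push_cast
        ring
      · rw [if_neg hp, if_neg hp]
        ring
    rw [e, List.length_cons]
    push_cast
    have h3 := abs_add_le (f a - (if p a = true then c else 0))
      ((L.map f).sum - ((L.filter p).length : ℤ) * c)
    linarith

theorem main (h1 : S_XBD) (h2 : S_XALT) : S_XMAIN := by
  intro n M G hn hM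
  have h3 := bound (fun l => Rr (phi (Fb n M G)) (finX n M) 0 l (fun _ => 0))
    (fun l => alt n M G 0 l) (((n : ℤ) + 1) ^ M) (((4 ^ n * n ^ M : ℕ) : ℤ))
    (List.range' 1 n ++ List.range' (n + M + 1) n).permutations'
    (fun l hl => h1 n M G l hn hM (List.mem_permutations'.1 hl))
  rw [h2 n M G hn, (List.permutations_perm_permutations' _).length_eq.symm,
    List.length_permutations] at h3
  have h4 : (List.range' 1 n ++ List.range' (n + M + 1) n).length = 2 * n := by
    rw [List.length_append, List.length_range', List.length_range']
    ring
  rw [h4] at h3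
  unfold PS
  refine h3.trans (le_of_eq ?_)
  push_cast
  ring

end Pool.Agent.W352.HTXMain
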