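import Mathlib

set_option autoImplicit false

namespace Pool.Agent.W352.Heis

attribute [local instance 100] LieRing.ofAssociativeRing

/-- The Heisenberg Lie algebra over the field with three elements. -/
structure H : Type where
  x : ZMod 3
  y : ZMod 3
  z : ZMod 3
  deriving DecidableEq

@[ext] theorem H.ext' {a b : H} (h1 : a.x = b.x) (h2 : a.y = b.y) (h3 : a.z = b.z) : a = b := by
  cases a; cases b; simp_all

instance : Zero H := ⟨⟨0, 0, 0⟩⟩
instance : Add H := ⟨fun a b => ⟨a.x + b.x, a.y + b.y, a.z + b.z⟩⟩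
instance : Neg H := ⟨fun a => ⟨-a.x, -a.y, -a.z⟩⟩
instance : Sub H := ⟨fun a b => ⟨a.x - b.x, a.y - b.y, a.z - b.z⟩⟩

@[simp] theorem zero_x : (0 : H).x = 0 := rfl
@[simp] theorem zero_y : (0 : H).y = 0 := rfl
@[simp] theorem zero_z : (0 : H).z = 0 := rfl
@[simp] theorem add_x (a b : H) : (a + b).x = a.x + b.x := rfl
@[simp] theorem add_y (a b : H) : (a + b).y = a.y + b.y := rfl
@[simp] theorem add_z (a b : H) : (a + b).z = a.z + b.z := rfl
@[simp] theorem neg_x (a : H) : (-a).x = -a.x := rfl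
@[simp] theorem neg_y (a : H) : (-a).y = -a.y := rfl
@[simp] theorem neg_z (a : H) : (-a).z = -a.z := rfl
@[simp] theorem sub_x (a b : H) : (a - b).x = a.x - b.x := rfl
@[simp] theorem sub_y (a b : H) : (a - b).y = a.y - b.y := rfl
@[simp] theorem sub_z (a b : H) : (a - b).z = a.z - b.z := rfl

instance : AddCommGroup H where
  add_assoc a b c := by ext <;> simp [add_assoc]
  zero_add a := by ext <;> simp
  add_zero a := by ext <;> simp
  nsmul := nsmulRec
  zsmul := zsmulRec
  neg_add_cancel a := by ext <;> simp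
  add_comm a b := by ext <;> simp [add_comm]
  sub_eq_add_neg a b := by ext <;> simp [sub_eq_add_neg]

instance : SMul (ZMod 3) H := ⟨fun c a => ⟨c * a.x, c * a.y, c * a.z⟩⟩
@[simp] theorem smul_x (c : ZMod 3) (a : H) : (c • a).x = c * a.x := rfl
@[simp] theorem smul_y (c : ZMod 3) (a : H) : (c • a).y = c * a.y := rfl
@[simp] theorem smul_z (c : ZMod 3) (a : H) : (c • a).z = c * a.z := rfl

instance : Module (ZMod 3) H where
  one_smul a := by ext <;> simp
  mul_smul c d a := by ext <;> simp [mul_assoc]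
  smul_zero c := by ext <;> simp
  smul_add c a b := by ext <;> simp [mul_add]
  add_smul c d a := by ext <;> simp [add_mul]
  zero_smul a := by ext <;> simp

instance : Bracket H H := ⟨fun a b => ⟨0, 0, a.x * b.y - a.y * b.x⟩⟩
@[simp] theorem br_x (a b : H) : (⁅a, b⁆).x = 0 := rfl
@[simp] theorem br_y (a b : H) : (⁅a, b⁆).y = 0 := rfl
@[simp] theorem br_z (a b : H) : (⁅a, b⁆).z = a.x * b.y - a.y * b.x := rfl

instance : LieRing H where
  add_lie a b c := by ext <;> simp; ring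
  lie_add a b c := by ext <;> simp; ring
  lie_self a := by ext <;> simp; ring
  leibniz_lie a b c := by ext <;> simp

instance : LieAlgebra (ZMod 3) H where
  lie_smul c a b := by ext <;> simp; ring

/-- the `p`-map -/
def f (a : H) : H := ⟨0, 0, a.z⟩

theorem f_smul (a : ZMod 3) (x : H) : f (a • x) = a ^ 3 • f x := by
  have h : a ^ 3 = a := by revert a; decide
  rw [h]
  ext <;> simp [f]

theorem f_ad (x y : H) : (LieAlgebra.ad (ZMod 3) H x ^ 3) y = ⁅f x, y⁆ := by
  rw [pow_succ, pow_succ, pow_one]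
  simp only [Module.End.mul_apply, LieAlgebra.ad_apply]
  ext <;> simp [f]

theorem f_add (x y : H) : f (x + y) - f x - f y = 0 := by
  ext <;> simp [f]

/-- cubes in an algebra over the field with three elements -/
theorem cube {A : Type*} [Ring A] (h3 : (3 : A) = 0) (a b c : A) (hc : a * b = b * a + c)
    (hca : c * a = a * c) (hcb : c * b = b * c) : (a + b) ^ 3 - a ^ 3 - b ^ 3 = 0 := by
  have e1 : (a + b) ^ 3 - a ^ 3 - b ^ 3 =
      a * (a * b) + (a * b) * a + b * a * a + (a * b) * b + b * (a * b) + b * b * a := by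
    noncomm_ring
  rw [e1, hc]
  have e2 : a * (b * a + c) = b * a * a + a * c + a * c := by
    rw [mul_add, ← mul_assoc, hc, add_mul, hca]
  have e3 : (b * a + c) * b = b * b * a + b * c + b * c := by
    rw [add_mul, mul_assoc, hc, mul_add, hcb, ← mul_assoc]
  rw [e2, e3, add_mul, hca, mul_add]
  have : b * a * a + a * c + a * c + (b * a * a + a * c) + b * a * a + (b * b * a + b * c + b * c)
      + (b * (b * a) + b * c) + b * b * a = 3 * (b * a * a + a * c + b * b * a + b * c) := by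
    noncomm_ring
  rw [this, h3, zero_mul]

open UniversalEnvelopingAlgebra in
theorem hbr (u v : H) : ι (ZMod 3) u * ι (ZMod 3) v =
    ι (ZMod 3) v * ι (ZMod 3) u + ι (ZMod 3) ⁅u, v⁆ := by
  rw [LieHom.map_lie, LieRing.of_associative_ring_bracket]
  abel

open UniversalEnvelopingAlgebra in
theorem f_cube (x y : H) :
    ι (ZMod 3) (f (x + y)) - ι (ZMod 3) (f x) - ι (ZMod 3) (f y)
      = (ι (ZMod 3) x + ι (ZMod 3) y) ^ 3 - ι (ZMod 3) x ^ 3 - ι (ZMod 3) y ^ 3 := by
  have h3 : (3 : UniversalEnvelopingAlgebra (ZMod 3) H) = 0 := by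
    have : algebraMap (ZMod 3) (UniversalEnvelopingAlgebra (ZMod 3) H) 3 = 0 := by
      rw [show (3 : ZMod 3) = 0 from rfl, map_zero]
    rw [← this, map_ofNat]
  have hl : ι (ZMod 3) (f (x + y)) - ι (ZMod 3) (f x) - ι (ZMod 3) (f y) = 0 := by
    rw [← map_sub, ← map_sub, f_add, map_zero]
  rw [hl]
  symm
  apply cube h3 _ _ (ι (ZMod 3) ⁅x, y⁆) (hbr x y)
  · rw [hbr]
    have : ⁅⁅x, y⁆, x⁆ = (0 : H) :=
      H.ext' rfl rfl (by show (0 : ZMod 3) * x.y - 0 * x.x = 0; ring)
    rw [this, map_zero, add_zero]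
  · rw [hbr]
    have : ⁅⁅x, y⁆, y⁆ = (0 : H) :=
      H.ext' rfl rfl (by show (0 : ZMod 3) * y.y - 0 * y.x = 0; ring)
    rw [this, map_zero, add_zero]

/-- The restricted enveloping algebra. -/
abbrev U : Type := RingQuot (fun a b : UniversalEnvelopingAlgebra (ZMod 3) H =>
        ∃ x : H, a = UniversalEnvelopingAlgebra.ι (ZMod 3) x ^ 3 ∧ b = UniversalEnvelopingAlgebra.ι (ZMod 3) (f x))

/-- the quotient map -/
noncomputable def q : UniversalEnvelopingAlgebra (ZMod 3) H →ₐ[ZMod 3] U :=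
  RingQuot.mkAlgHom (ZMod 3) _

/-- the images of the elements of the Lie algebra -/
noncomputable def j (x : H) : U := q (UniversalEnvelopingAlgebra.ι (ZMod 3) x)

theorem j_cube (x : H) : j x ^ 3 = j (f x) := by
  have h : q (UniversalEnvelopingAlgebra.ι (ZMod 3) x ^ 3) =
      q (UniversalEnvelopingAlgebra.ι (ZMod 3) (f x)) :=
    RingQuot.mkAlgHom_rel (ZMod 3) ⟨x, rfl, rfl⟩
  rw [map_pow] at h
  exact h

theorem j_br (u v : H) : j u * j v = j v * j u + j ⁅u, v⁆ := by
  have h := congrArg q (hbr u v)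
  rw [map_add q, map_mul q, map_mul q] at h
  exact h

theorem j_zero : j 0 = 0 := by
  unfold j
  rw [map_zero, map_zero]

/-- generators -/
noncomputable def X : U := j ⟨1, 0, 0⟩
noncomputable def Y : U := j ⟨0, 1, 0⟩
noncomputable def Z : U := j ⟨0, 0, 1⟩

theorem X3 : X ^ 3 = 0 := by
  unfold X; rw [j_cube]; exact j_zero
theorem Y3 : Y ^ 3 = 0 := by
  unfold Y; rw [j_cube]; exact j_zero
theorem Z3 : Z ^ 3 = Z := by
  unfold Z; rw [j_cube]; rfl
theorem XY : X * Y = Y * X + Z := j_br _ _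
theorem XZ : X * Z = Z * X := by
  have h := j_br ⟨1, 0, 0⟩ ⟨0, 0, 1⟩
  have h0 : ⁅(⟨1, 0, 0⟩ : H), (⟨0, 0, 1⟩ : H)⁆ = 0 := rfl
  rw [h0, j_zero, add_zero] at h
  exact h
theorem YZ : Y * Z = Z * Y := by
  have h := j_br ⟨0, 1, 0⟩ ⟨0, 0, 1⟩
  have h0 : ⁅(⟨0, 1, 0⟩ : H), (⟨0, 0, 1⟩ : H)⁆ = 0 := rfl
  rw [h0, j_zero, add_zero] at h
  exact h

theorem three : (3 : U) = 0 := by
  have : algebraMap (ZMod 3) U 3 = 0 := by
    rw [show (3 : ZMod 3) = 0 from rfl, map_zero]
  rw [← this, map_ofNat]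

/-- the Lie homomorphism to matrices -/
def rep : H →ₗ⁅ZMod 3⁆ Matrix (Fin 3) (Fin 3) (ZMod 3) where
  toFun a := !![a.z, a.x, 0; a.y * 1, a.z, 2 * a.x; 0, a.y, a.z]
  map_add' a b := by
    ext i k; fin_cases i <;> fin_cases k <;> simp <;> ring
  map_smul' c a := by
    ext i k; fin_cases i <;> fin_cases k <;> simp <;> ring
  map_lie' {a b} := by
    rw [LieRing.of_associative_ring_bracket]
    obtain ⟨a1, a2, a3⟩ := a
    obtain ⟨b1, b2, b3⟩ := b
    revert a1 a2 a3 b1 b2 b3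
    decide

end Pool.Agent.W352.Heis
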