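import Pool.Agent.W352.Heis

set_option autoImplicit false

namespace Pool.Agent.W352.Heis

attribute [local instance 100] LieRing.ofAssociativeRing

abbrev M3 := Matrix (Fin 3) (Fin 3) (ZMod 3)
abbrev M2 := Matrix (Fin 2) (Fin 2) (ZMod 3)

theorem rep_cube (a : H) : rep a ^ 3 = rep (f a) := by
  obtain ⟨a1, a2, a3⟩ := a
  show (!![a3, a1, 0; a2 * 1, a3, 2 * a1; 0, a2, a3] : M3) ^ 3 =
    !![a3, 0, 0; 0 * 1, a3, 2 * 0; 0, 0, a3]
  revert a1 a2 a3
  decide

/-- the representation of `U` -/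
noncomputable def repU : U →ₐ[ZMod 3] M3 :=
  RingQuot.liftAlgHom (ZMod 3) ⟨UniversalEnvelopingAlgebra.lift (ZMod 3) rep, by
    rintro a b ⟨x, rfl, rfl⟩
    rw [map_pow, UniversalEnvelopingAlgebra.lift_ι_apply, UniversalEnvelopingAlgebra.lift_ι_apply,
      rep_cube]⟩

theorem repU_j (x : H) : repU (j x) = rep x := by
  unfold repU j q
  rw [RingQuot.liftAlgHom_mkAlgHom_apply, UniversalEnvelopingAlgebra.lift_ι_apply]

section abstract

variable {A : Type*} [Ring A] {x y e : A}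

theorem xE0 (hx3 : x ^ 3 = 0) : x * -(x ^ 2 * y ^ 2) = 0 := by
  have : x * -(x ^ 2 * y ^ 2) = -(x ^ 3 * y ^ 2) := by noncomm_ring
  rw [this, hx3, zero_mul, neg_zero]

theorem Ey0 (hy3 : y ^ 3 = 0) : -(x ^ 2 * y ^ 2) * y = 0 := by
  have : -(x ^ 2 * y ^ 2) * y = -(x ^ 2 * y ^ 3) := by noncomm_ring
  rw [this, hy3, mul_zero, neg_zero]

theorem eE (hex : e * x = x) : e * -(x ^ 2 * y ^ 2) = -(x ^ 2 * y ^ 2) := by
  rw [mul_neg, ← mul_assoc, pow_two, ← mul_assoc, hex]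

theorem xyE (hx3 : x ^ 3 = 0) (hex : e * x = x) (hxy : x * y = y * x + e) :
    x * (y * -(x ^ 2 * y ^ 2)) = -(x ^ 2 * y ^ 2) := by
  rw [← mul_assoc, hxy, add_mul, mul_assoc, xE0 hx3, mul_zero, zero_add, eE hex]

theorem EE (h3 : (3 : A) = 0) (hx3 : x ^ 3 = 0) (hex : e * x = x) (hey : e * y = y)
    (hxy : x * y = y * x + e) :
    -(x ^ 2 * y ^ 2) * -(x ^ 2 * y ^ 2) = -(x ^ 2 * y ^ 2) := by
  have h4' : ∀ w : A, -(x ^ 2 * y ^ 2) * w = -(x * (x * (y * (y * w)))) := by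
    intro w; noncomm_ring
  set E := -(x ^ 2 * y ^ 2) with hE
  have h0 : x * E = 0 := xE0 hx3
  have h1 : x * (y * E) = E := xyE hx3 hex hxy
  have h2 : x * (y * (y * E)) = y * E + y * E := by
    rw [← mul_assoc x y, hxy, add_mul, mul_assoc, h1, ← mul_assoc e y, hey]
  have h4 : E * E = -(x * (x * (y * (y * E)))) := h4' E
  rw [h4, h2, mul_add, h1]
  have : E + E + E = 0 := by
    have : E + E + E = 3 * E := by noncomm_ring
    rw [this, h3, zero_mul]
  have h5 : -(E + E) = E - (E + E + E) := by abel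
  rw [h5, this, sub_zero]

end abstract

/-- the central idempotent -/
noncomputable def e : U := -(Z ^ 2 + Z)

theorem Ze : Z * e = e := by
  unfold e
  have : Z * -(Z ^ 2 + Z) = -(Z ^ 3 + Z ^ 2) := by noncomm_ring
  rw [this, Z3, add_comm]

theorem ee : e * e = e := by
  have h' : ∀ w : U, e * w = -(Z * (Z * w) + Z * w) := by
    intro w; unfold e; noncomm_ring
  have h : e * e = -(Z * (Z * e) + Z * e) := h' e
  rw [h, Ze, Ze]
  have : (e : U) + e + e = 0 := by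
    have : (e : U) + e + e = 3 * e := by noncomm_ring
    rw [this, three, zero_mul]
  have h5 : -((e : U) + e) = e - (e + e + e) := by abel
  rw [h5, this, sub_zero]

theorem Xe : X * e = e * X := by
  unfold e
  have h : X * Z ^ 2 = Z ^ 2 * X := by
    rw [pow_two, ← mul_assoc, XZ, mul_assoc, XZ, ← mul_assoc]
  rw [mul_neg, mul_add, h, XZ, neg_mul, add_mul]

theorem Ye : Y * e = e * Y := by
  unfold e
  have h : Y * Z ^ 2 = Z ^ 2 * Y := by
    rw [pow_two, ← mul_assoc, YZ, mul_assoc, YZ, ← mul_assoc]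
  rw [mul_neg, mul_add, h, YZ, neg_mul, add_mul]

noncomputable def x : U := e * X
noncomputable def y : U := e * Y

theorem ex : e * x = x := by unfold x; rw [← mul_assoc, ee]
theorem ey : e * y = y := by unfold y; rw [← mul_assoc, ee]
theorem xe : x * e = x := by unfold x; rw [mul_assoc, Xe, ← mul_assoc, ee]
theorem ye : y * e = y := by unfold y; rw [mul_assoc, Ye, ← mul_assoc, ee]

theorem pow_aux (a b : U) (hab : b * a = a * b) (ha : a * a = a) : (a * b) ^ 3 = a * b ^ 3 := by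
  have h : (a * b) ^ 3 = a * (b * a) * (b * a) * b := by noncomm_ring
  rw [h, hab]
  have h2 : a * (a * b) * (a * b) * b = (a * a) * (b * a) * (b * b) := by noncomm_ring
  rw [h2, ha, hab]
  have h3 : a * (a * b) * (b * b) = (a * a) * b ^ 3 := by noncomm_ring
  rw [h3, ha]

theorem x3 : x ^ 3 = 0 := by
  unfold x; rw [pow_aux _ _ Xe ee, X3, mul_zero]
theorem y3 : y ^ 3 = 0 := by
  unfold y; rw [pow_aux _ _ Ye ee, Y3, mul_zero]
theorem xy : x * y = y * x + e := by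
  have h1 : x * y = e * (X * e) * Y := by unfold x y; noncomm_ring
  have h2 : y * x = e * (Y * e) * X := by unfold x y; noncomm_ring
  rw [h1, h2, Xe, Ye]
  have h3 : e * (e * X) * Y = (e * e) * (X * Y) := by noncomm_ring
  have h4 : e * (e * Y) * X = (e * e) * (Y * X) := by noncomm_ring
  rw [h3, h4, ee, XY, mul_add]
  have : e * Z = e := by
    have : e * Z = Z * e := by unfold e; noncomm_ring
    rw [this, Ze]
  rw [this]

/-- the matrix unit -/
noncomputable def E : U := -(x ^ 2 * y ^ 2)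

theorem xE : x * E = 0 := xE0 x3
theorem Ey : E * y = 0 := Ey0 y3
theorem xyE' : x * (y * E) = E := xyE x3 ex xy
theorem EE' : E * E = E := EE three x3 ex ey xy

theorem E_ne : E ≠ 0 := by
  intro h
  have h1 := congrArg repU h
  have hX : repU X = rep ⟨1, 0, 0⟩ := repU_j _
  have hY : repU Y = rep ⟨0, 1, 0⟩ := repU_j _
  have hZ : repU Z = rep ⟨0, 0, 1⟩ := repU_j _
  simp only [E, x, y, e, map_neg, map_mul, map_pow, map_add, map_zero, hX, hY, hZ] at h1
  revert h1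
  show ¬ (-((-((!![1, 0, 0; 0 * 1, 1, 2 * 0; 0, 0, 1] : M3) ^ 2 +
    (!![1, 0, 0; 0 * 1, 1, 2 * 0; 0, 0, 1] : M3)) *
    (!![0, 1, 0; 0 * 1, 0, 2 * 1; 0, 0, 0] : M3)) ^ 2 *
    (-((!![1, 0, 0; 0 * 1, 1, 2 * 0; 0, 0, 1] : M3) ^ 2 +
    (!![1, 0, 0; 0 * 1, 1, 2 * 0; 0, 0, 1] : M3)) *
    (!![0, 0, 0; 1 * 1, 0, 2 * 0; 0, 1, 0] : M3)) ^ 2) = 0)
  decide

end Pool.Agent.W352.Heis
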