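import Mathlib

set_option autoImplicit false

open MeasureTheory intervalIntegral Complex Filter Topology

namespace Pool.Agent.W352.Raj

/-- the symbol of the cogenerator -/
noncomputable def v (x : ℝ) : ℂ := 1 - 2 * (1 - I * x)⁻¹

theorem den_ne (x : ℝ) : (1 - I * x : ℂ) ≠ 0 := by
  intro h; have := congrArg Complex.re h; simp at this

theorem den_ne' (x : ℝ) : (1 + I * x : ℂ) ≠ 0 := by
  intro h; have := congrArg Complex.re h; simp at this

theorem v_eq (x : ℝ) : v x = -(1 + I * x) / (1 - I * x) := by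
  unfold v
  have := den_ne x
  field_simp
  ring

theorem v_norm (x : ℝ) : ‖v x‖ = 1 := by
  rw [v_eq, norm_div, norm_neg]
  have : ‖(1 + I * x : ℂ)‖ = ‖(1 - I * x : ℂ)‖ := by
    rw [← Complex.norm_conj (1 + I * x : ℂ)]
    congr 1
    simp [sub_eq_add_neg]
  rw [this, div_self]
  exact norm_ne_zero_iff.2 (den_ne x)

theorem v_deriv (x : ℝ) : HasDerivAt v (v x * (I * ((2 / (1 + x ^ 2) : ℝ) : ℂ))) x := by
  have h1 : HasDerivAt (fun y : ℝ => (1 - I * y : ℂ)) (-I) x := by
    have := ((hasDerivAt_id x).ofReal_comp.const_mul I).const_sub 1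
    simpa using this
  have h2 := (h1.inv (den_ne x)).const_mul (2 : ℂ)
  have h3 := h2.const_sub (1 : ℂ)
  have he : (-(2 * (-(-I) / (1 - I * x) ^ 2)) : ℂ) = v x * (I * ((2 / (1 + x ^ 2) : ℝ) : ℂ)) := by
    rw [v_eq]
    have a1 := den_ne x
    have a2 := den_ne' x
    have a3 : ((1 + x ^ 2 : ℝ) : ℂ) = (1 - I * x) * (1 + I * x) := by
      push_cast
      ring_nf
      rw [I_sq]; ring
    rw [ofReal_div, a3]
    push_cast
    field_simp
  rw [← he]
  exact h3

/-- the oscillating factor -/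
noncomputable def E (n : ℕ) (l : ℝ) (x : ℝ) : ℂ := v x ^ n * exp (I * l * x)

theorem E_norm (n : ℕ) (l x : ℝ) : ‖E n l x‖ = 1 := by
  unfold E
  rw [norm_mul, norm_pow, v_norm, one_pow, one_mul]
  have : (I * l * x : ℂ) = ((l * x : ℝ) : ℂ) * I := by push_cast; ring
  rw [this, norm_exp_ofReal_mul_I]

/-- the derivative of the phase -/
noncomputable def psi (n : ℕ) (l : ℝ) (x : ℝ) : ℝ := n * (2 / (1 + x ^ 2)) + l

theorem E_deriv (n : ℕ) (l x : ℝ) : HasDerivAt (E n l) (I * (psi n l x : ℂ) * E n l x) x := by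
  have h1 := (v_deriv x).pow n
  have h2 : HasDerivAt (fun y : ℝ => exp (I * l * y)) (exp (I * l * x) * (I * l)) x := by
    have := ((hasDerivAt_id x).ofReal_comp.const_mul (I * l)).cexp
    simpa using this
  have h3 := h1.mul h2
  have he : (n * v x ^ (n - 1) * (v x * (I * ((2 / (1 + x ^ 2) : ℝ) : ℂ))) * exp (I * l * x) +
      v x ^ n * (exp (I * l * x) * (I * l)) : ℂ) = I * (psi n l x : ℂ) * E n l x := by
    unfold psi E
    rcases n with _ | n
    · simp; ring
    · simp only [Nat.add_sub_cancel]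
      rw [pow_succ]
      push_cast
      ring
  rw [← he]
  exact h3

theorem psi_deriv (n : ℕ) (l x : ℝ) :
    HasDerivAt (psi n l) (-(n * (4 * x / (1 + x ^ 2) ^ 2))) x := by
  have h0 : (1 + x ^ 2 : ℝ) ≠ 0 := by positivity
  have h1 : HasDerivAt (fun y : ℝ => 1 + y ^ 2) (2 * x) x := by
    have := ((hasDerivAt_id x).pow 2).const_add 1
    simpa using this
  have h2 := (((h1.inv h0).const_mul (2 : ℝ)).const_mul (n : ℝ)).add_const l
  have h3 : (fun y : ℝ => (n : ℝ) * (2 * (1 + y ^ 2)⁻¹) + l) = psi n l := by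
    funext y; unfold psi; rw [div_eq_mul_inv]
  have h4 : HasDerivAt (fun y : ℝ => (n : ℝ) * (2 * (1 + y ^ 2)⁻¹) + l)
      ((n : ℝ) * (2 * (-(2 * x) / (1 + x ^ 2) ^ 2))) x := h2
  rw [h3] at h4
  convert h4 using 1
  ring

theorem psi_cont (n : ℕ) (l : ℝ) : Continuous (psi n l) :=
  continuous_iff_continuousAt.2 fun x => (psi_deriv n l x).continuousAt

theorem E_cont (n : ℕ) (l : ℝ) : Continuous (E n l) :=
  continuous_iff_continuousAt.2 fun x => (E_deriv n l x).continuousAt

/-- The basic estimate (second derivative test). -/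
theorem vdc (n : ℕ) (hn : 1 ≤ n) (l D G : ℝ) (hD : 0 < D) (g g' : ℝ → ℝ)
    (hg : ∀ x, HasDerivAt g (g' x) x) (hg' : Continuous g')
    (hG : ∀ x ∈ Set.Icc (1 : ℝ) 2, |g x| ≤ G) (hG' : ∀ x ∈ Set.Icc (1 : ℝ) 2, |g' x| ≤ G) :
    ‖∫ x in (1 : ℝ)..2, E n l x * (g x : ℂ)‖ ≤
      G / D + G * (2 * n / D ^ 2 + 1 / (2 * D)) + G * (25 * D / (4 * n) * Real.pi) := by
  have hG0 : 0 ≤ G := le_trans (abs_nonneg _) (hG 1 ⟨le_refl _, by norm_num⟩)
  have hgc : Continuous g := continuous_iff_continuousAt.2 fun x => (hg x).continuousAt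
  have hpos : ∀ x, 0 < psi n l x ^ 2 + D ^ 2 := fun x => by positivity
  set p' : ℝ → ℝ := fun x => -(n * (4 * x / (1 + x ^ 2) ^ 2)) with hp'
  have hp'c : Continuous p' := by
    rw [hp']
    apply Continuous.neg
    apply Continuous.mul continuous_const
    apply Continuous.div (by fun_prop) (by fun_prop)
    intro x; positivity
  set w : ℝ → ℝ := fun x => psi n l x / (psi n l x ^ 2 + D ^ 2) with hw
  set w' : ℝ → ℝ := fun x => p' x * (D ^ 2 - psi n l x ^ 2) / (psi n l x ^ 2 + D ^ 2) ^ 2 with hw'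
  have hwd : ∀ x, HasDerivAt w (w' x) x := by
    intro x
    have h1 := (psi_deriv n l x).pow 2
    have h2 := h1.add_const (D ^ 2)
    have h3 := (psi_deriv n l x).div h2 (hpos x).ne'
    have e : (-(n * (4 * x / (1 + x ^ 2) ^ 2)) * ((psi n l ^ 2) x + D ^ 2) -
        psi n l x * ((2 : ℕ) * psi n l x ^ (2 - 1) * -(n * (4 * x / (1 + x ^ 2) ^ 2)))) /
      ((psi n l ^ 2) x + D ^ 2) ^ 2 = w' x := by
      simp only [hw', hp', Pi.pow_apply, Nat.cast_ofNat]
      congr 1
      ring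
    rw [← e]
    exact h3
  have hpc := psi_cont n l
  have hEc := E_cont n l
  have hwc : Continuous w := continuous_iff_continuousAt.2 fun x => (hwd x).continuousAt
  have hw'c : Continuous w' := by
    rw [hw']
    apply Continuous.div (by fun_prop) (by fun_prop)
    intro x
    have := hpos x
    positivity
  -- the antiderivative
  set F : ℝ → ℂ := fun x => E n l x * ((w x * g x : ℝ) : ℂ) with hF
  have hFd : ∀ x, HasDerivAt F (I * (psi n l x : ℂ) * E n l x * ((w x * g x : ℝ) : ℂ) +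
      E n l x * ((w' x * g x + w x * g' x : ℝ) : ℂ)) x := by
    intro x
    exact (E_deriv n l x).mul ((hwd x).mul (hg x)).ofReal_comp
  have key : ∀ x, E n l x * (g x : ℂ) =
      -I * (I * (psi n l x : ℂ) * E n l x * ((w x * g x : ℝ) : ℂ) +
      E n l x * ((w' x * g x + w x * g' x : ℝ) : ℂ)) +
      (I * (E n l x * ((w' x * g x + w x * g' x : ℝ) : ℂ)) +
        E n l x * ((g x * (D ^ 2 / (psi n l x ^ 2 + D ^ 2)) : ℝ) : ℂ)) := by
    intro x
    have h1 : (g x : ℝ) = psi n l x * (w x * g x) + g x * (D ^ 2 / (psi n l x ^ 2 + D ^ 2)) := by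
      have := (hpos x).ne'
      simp only [hw]
      field_simp
    have h2 : (g x : ℂ) = (psi n l x : ℂ) * ((w x * g x : ℝ) : ℂ) +
      ((g x * (D ^ 2 / (psi n l x ^ 2 + D ^ 2)) : ℝ) : ℂ) := by
      conv_lhs => rw [h1]
      rw [ofReal_add, ofReal_mul (psi n l x)]
    have hI : (-I * I : ℂ) = 1 := by
      have := I_mul_I
      rw [neg_mul, this, neg_neg]
    calc E n l x * (g x : ℂ) = (1 : ℂ) * ((psi n l x : ℂ) * E n l x * ((w x * g x : ℝ) : ℂ)) +
          E n l x * ((g x * (D ^ 2 / (psi n l x ^ 2 + D ^ 2)) : ℝ) : ℂ) := by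
            rw [h2]; ring
      _ = _ := by rw [← hI]; ring
  have c1 : Continuous fun x => (I * (psi n l x : ℂ) * E n l x * ((w x * g x : ℝ) : ℂ) +
      E n l x * ((w' x * g x + w x * g' x : ℝ) : ℂ)) := by fun_prop
  have c2 : Continuous fun x => (I * (E n l x * ((w' x * g x + w x * g' x : ℝ) : ℂ))) := by fun_prop
  have c3' : Continuous fun x => D ^ 2 / (psi n l x ^ 2 + D ^ 2) := by
    apply Continuous.div (by fun_prop) (by fun_prop)
    intro x; exact (hpos x).ne'
  have c3 : Continuous fun x => E n l x * ((g x * (D ^ 2 / (psi n l x ^ 2 + D ^ 2)) : ℝ) : ℂ) := by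
    fun_prop
  have hint : ∫ x in (1 : ℝ)..2, E n l x * (g x : ℂ) =
      -I * (F 2 - F 1) + ((∫ x in (1 : ℝ)..2, I * (E n l x * ((w' x * g x + w x * g' x : ℝ) : ℂ))) +
        ∫ x in (1 : ℝ)..2, E n l x * ((g x * (D ^ 2 / (psi n l x ^ 2 + D ^ 2)) : ℝ) : ℂ)) := by
    rw [intervalIntegral.integral_congr (g := fun x => -I * (I * (psi n l x : ℂ) * E n l x * ((w x * g x : ℝ) : ℂ) +
      E n l x * ((w' x * g x + w x * g' x : ℝ) : ℂ)) +
      (I * (E n l x * ((w' x * g x + w x * g' x : ℝ) : ℂ)) +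
        E n l x * ((g x * (D ^ 2 / (psi n l x ^ 2 + D ^ 2)) : ℝ) : ℂ))) fun x _ => key x]
    have i1 : IntervalIntegrable (fun x => -I * (I * (psi n l x : ℂ) * E n l x * ((w x * g x : ℝ) : ℂ) +
      E n l x * ((w' x * g x + w x * g' x : ℝ) : ℂ))) volume 1 2 :=
      (continuous_const.mul c1).intervalIntegrable _ _
    have i2 : IntervalIntegrable (fun x => I * (E n l x * ((w' x * g x + w x * g' x : ℝ) : ℂ)))
      volume 1 2 := c2.intervalIntegrable _ _
    have i3 : IntervalIntegrable (fun x => E n l x * ((g x * (D ^ 2 / (psi n l x ^ 2 + D ^ 2)) : ℝ) : ℂ))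
      volume 1 2 := c3.intervalIntegrable _ _
    rw [intervalIntegral.integral_add i1 (i2.add i3), intervalIntegral.integral_const_mul,
      integral_eq_sub_of_hasDerivAt (fun x _ => hFd x) (c1.intervalIntegrable _ _),
      intervalIntegral.integral_add i2 i3]
  -- bounds
  have bw : ∀ x, |w x| ≤ 1 / (2 * D) := by
    intro x
    rw [hw, abs_div, abs_of_pos (hpos x), div_le_div_iff₀ (hpos x) (by positivity)]
    nlinarith [sq_nonneg (|psi n l x| - D), sq_abs (psi n l x)]
  have bp' : ∀ x ∈ Set.Icc (1 : ℝ) 2, |p' x| ≤ 2 * n := by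
    intro x hx
    have h0 : 0 ≤ 4 * x / (1 + x ^ 2) ^ 2 := by
      have := hx.1
      positivity
    have h1 : 4 * x / (1 + x ^ 2) ^ 2 ≤ 2 := by
      rw [div_le_iff₀ (by positivity)]
      nlinarith [hx.1, hx.2]
    rw [hp', abs_neg, abs_of_nonneg (by positivity)]
    nlinarith [h1, (Nat.cast_nonneg n : (0 : ℝ) ≤ n)]
  have bw' : ∀ x ∈ Set.Icc (1 : ℝ) 2, |w' x| ≤ 2 * n / D ^ 2 := by
    intro x hx
    have h1 : |D ^ 2 - psi n l x ^ 2| ≤ psi n l x ^ 2 + D ^ 2 := by
      rw [abs_le]; constructor <;> nlinarith [sq_nonneg (psi n l x), sq_nonneg D]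
    have h2 := bp' x hx
    have h3 : |w' x| = |p' x| * |D ^ 2 - psi n l x ^ 2| / (psi n l x ^ 2 + D ^ 2) ^ 2 := by
      rw [hw', abs_div, abs_mul, abs_of_pos (a := (psi n l x ^ 2 + D ^ 2) ^ 2) (by have := hpos x; positivity)]
    rw [h3, div_le_div_iff₀ (by have := hpos x; positivity) (by positivity)]
    have h4 := hpos x
    have h5 : D ^ 2 ≤ psi n l x ^ 2 + D ^ 2 := by nlinarith [sq_nonneg (psi n l x)]
    calc |p' x| * |D ^ 2 - psi n l x ^ 2| * D ^ 2
        ≤ (2 * n) * (psi n l x ^ 2 + D ^ 2) * (psi n l x ^ 2 + D ^ 2) := by gcongr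
      _ = 2 * n * (psi n l x ^ 2 + D ^ 2) ^ 2 := by ring
  have bF : ∀ x ∈ Set.Icc (1 : ℝ) 2, ‖F x‖ ≤ G / (2 * D) := by
    intro x hx
    rw [hF, norm_mul, E_norm, one_mul, norm_real, Real.norm_eq_abs, abs_mul]
    calc |w x| * |g x| ≤ (1 / (2 * D)) * G := by
          apply mul_le_mul (bw x) (hG x hx) (abs_nonneg _) (by positivity)
      _ = G / (2 * D) := by ring
  have b1 : ‖-I * (F 2 - F 1)‖ ≤ G / D := by
    rw [norm_mul, norm_neg, norm_I, one_mul]
    calc ‖F 2 - F 1‖ ≤ ‖F 2‖ + ‖F 1‖ := norm_sub_le _ _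
      _ ≤ G / (2 * D) + G / (2 * D) := add_le_add (bF 2 ⟨by norm_num, le_refl _⟩)
          (bF 1 ⟨le_refl _, by norm_num⟩)
      _ = G / D := by field_simp; ring
  have b2 : ‖∫ x in (1 : ℝ)..2, I * (E n l x * ((w' x * g x + w x * g' x : ℝ) : ℂ))‖ ≤
      G * (2 * n / D ^ 2 + 1 / (2 * D)) := by
    have := intervalIntegral.norm_integral_le_of_norm_le_const (a := (1 : ℝ)) (b := 2)
      (C := G * (2 * n / D ^ 2 + 1 / (2 * D)))
      (f := fun x => I * (E n l x * ((w' x * g x + w x * g' x : ℝ) : ℂ))) (by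
        intro x hx
        rw [Set.uIoc_of_le (by norm_num)] at hx
        have hx' : x ∈ Set.Icc (1 : ℝ) 2 := ⟨hx.1.le, hx.2⟩
        rw [norm_mul, norm_mul, E_norm, norm_I, one_mul, one_mul, norm_real, Real.norm_eq_abs]
        calc |w' x * g x + w x * g' x| ≤ |w' x * g x| + |w x * g' x| := abs_add_le _ _
          _ = |w' x| * |g x| + |w x| * |g' x| := by rw [abs_mul, abs_mul]
          _ ≤ (2 * n / D ^ 2) * G + (1 / (2 * D)) * G := by
              apply add_le_add
              · exact mul_le_mul (bw' x hx') (hG x hx') (abs_nonneg _) (by positivity)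
              · exact mul_le_mul (bw x) (hG' x hx') (abs_nonneg _) (by positivity)
          _ = G * (2 * n / D ^ 2 + 1 / (2 * D)) := by ring)
    calc _ ≤ G * (2 * n / D ^ 2 + 1 / (2 * D)) * |(2 : ℝ) - 1| := this
      _ = _ := by norm_num
  have b3 : ‖∫ x in (1 : ℝ)..2, E n l x * ((g x * (D ^ 2 / (psi n l x ^ 2 + D ^ 2)) : ℝ) : ℂ)‖ ≤
      G * (25 * D / (4 * n) * Real.pi) := by
    set a : ℝ → ℝ := fun x => Real.arctan (psi n l x / D) with ha
    set a' : ℝ → ℝ := fun x => p' x * D / (psi n l x ^ 2 + D ^ 2) with ha'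
    have had : ∀ x, HasDerivAt a (a' x) x := by
      intro x
      have h1 := ((psi_deriv n l x).div_const D).arctan
      convert h1 using 1
      rw [ha']
      have := (hpos x).ne'
      have hD' := hD.ne'
      have h2 : (1 + (psi n l x / D) ^ 2 : ℝ) ≠ 0 := by positivity
      simp only [hp']
      field_simp
      ring
    have ha'c : Continuous a' := by
      rw [ha']
      apply Continuous.div (by fun_prop) (by fun_prop)
      intro x; exact (hpos x).ne'
    have hn0 : (0 : ℝ) < n := by exact_mod_cast hn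
    have hint2 : ∫ x in (1 : ℝ)..2, (-(a' x)) = a 1 - a 2 := by
      rw [intervalIntegral.integral_neg, integral_eq_sub_of_hasDerivAt (fun x _ => had x)
        (ha'c.intervalIntegrable _ _)]
      ring
    have hpi : a 1 - a 2 ≤ Real.pi := by
      have h1 := Real.arctan_lt_pi_div_two (psi n l 1 / D)
      have h2 := Real.neg_pi_div_two_lt_arctan (psi n l 2 / D)
      simp only [ha]
      linarith
    calc ‖∫ x in (1 : ℝ)..2, E n l x * ((g x * (D ^ 2 / (psi n l x ^ 2 + D ^ 2)) : ℝ) : ℂ)‖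
        ≤ ∫ x in (1 : ℝ)..2, G * (25 * D / (4 * n)) * (-(a' x)) := by
          apply intervalIntegral.norm_integral_le_of_norm_le (by norm_num)
          · apply Filter.Eventually.of_forall
            intro x hx
            have hx' : x ∈ Set.Icc (1 : ℝ) 2 := ⟨hx.1.le, hx.2⟩
            rw [norm_mul, E_norm, one_mul, norm_real, Real.norm_eq_abs, abs_mul,
              abs_of_nonneg (a := D ^ 2 / (psi n l x ^ 2 + D ^ 2)) (by have := hpos x; positivity)]
            have h1 : (4 : ℝ) / 25 ≤ 4 * x / (1 + x ^ 2) ^ 2 := by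
              rw [div_le_div_iff₀ (by norm_num) (by positivity)]
              nlinarith [hx'.1, hx'.2, mul_nonneg (sub_nonneg.2 hx'.1) (sub_nonneg.2 hx'.2),
                sq_nonneg (x ^ 2 - 4), mul_nonneg (mul_nonneg (sub_nonneg.2 hx'.1) (sub_nonneg.2 hx'.2)) (sq_nonneg x)]
            have h2 : D ^ 2 / (psi n l x ^ 2 + D ^ 2) ≤ 25 * D / (4 * n) * (-(a' x)) := by
              have e1 : 25 * D / (4 * n) * (-(a' x)) =
                  (25 / 4 * (4 * x / (1 + x ^ 2) ^ 2)) * (D ^ 2 / (psi n l x ^ 2 + D ^ 2)) := by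
                simp only [ha', hp']
                have := (hpos x).ne'
                field_simp
              rw [e1]
              have h3 : (1 : ℝ) ≤ 25 / 4 * (4 * x / (1 + x ^ 2) ^ 2) := by linarith
              have h4 : 0 ≤ D ^ 2 / (psi n l x ^ 2 + D ^ 2) := by have := hpos x; positivity
              nlinarith
            calc |g x| * (D ^ 2 / (psi n l x ^ 2 + D ^ 2))
                ≤ G * (25 * D / (4 * n) * (-(a' x))) :=
                  mul_le_mul (hG x hx') h2 (by have := hpos x; positivity) hG0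
              _ = G * (25 * D / (4 * n)) * (-(a' x)) := by ring
          · exact (continuous_const.mul ha'c.neg).intervalIntegrable _ _
      _ = G * (25 * D / (4 * n)) * (a 1 - a 2) := by
          rw [intervalIntegral.integral_const_mul, hint2]
      _ ≤ G * (25 * D / (4 * n)) * Real.pi := by
          apply mul_le_mul_of_nonneg_left hpi (by positivity)
      _ = _ := by ring
  rw [hint]
  calc _ ≤ ‖-I * (F 2 - F 1)‖ + ‖(∫ x in (1 : ℝ)..2, I * (E n l x * ((w' x * g x + w x * g' x : ℝ) : ℂ))) +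
        ∫ x in (1 : ℝ)..2, E n l x * ((g x * (D ^ 2 / (psi n l x ^ 2 + D ^ 2)) : ℝ) : ℂ)‖ := norm_add_le _ _
    _ ≤ ‖-I * (F 2 - F 1)‖ + (‖∫ x in (1 : ℝ)..2, I * (E n l x * ((w' x * g x + w x * g' x : ℝ) : ℂ))‖ +
        ‖∫ x in (1 : ℝ)..2, E n l x * ((g x * (D ^ 2 / (psi n l x ^ 2 + D ^ 2)) : ℝ) : ℂ)‖) := by
          gcongr; exact norm_add_le _ _
    _ ≤ _ := by linarith

end Pool.Agent.W352.Raj
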