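import Pool.Agent.W352.Raj1

set_option autoImplicit false

open MeasureTheory intervalIntegral Complex Filter Topology

namespace Pool.Agent.W352.Raj

theorem rl (n : ℕ) (g : ℝ → ℝ) (ε : ℝ) (hε : 0 < ε) :
    ∃ L : ℝ, ∀ l : ℝ, L ≤ |l| → ‖∫ x in (1 : ℝ)..2, E n l x * (g x : ℂ)‖ ≤ ε := by
  set f : ℝ → ℂ := Set.indicator (Set.Ioc (1 : ℝ) 2) (fun x => v x ^ n * (g x : ℂ)) with hf
  have h := Real.tendsto_integral_exp_smul_cocompact f
  have h2 : ∀ᶠ w in cocompact ℝ, ‖∫ x : ℝ, (Real.fourierChar (-(x * w))) • f x‖ < ε := by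
    have h3 := h.norm
    rw [norm_zero] at h3
    exact h3.eventually (gt_mem_nhds hε)
  rw [← Metric.cobounded_eq_cocompact, (hasBasis_cobounded_norm (E := ℝ)).eventually_iff] at h2
  obtain ⟨i, -, hi⟩ := h2
  refine ⟨2 * Real.pi * i, fun l hl => ?_⟩
  have hw : -l / (2 * Real.pi) ∈ {x : ℝ | i ≤ ‖x‖} := by
    show i ≤ ‖-l / (2 * Real.pi)‖
    rw [norm_div, norm_neg, Real.norm_eq_abs, Real.norm_eq_abs, abs_of_pos (a := 2 * Real.pi) (by positivity),
      le_div_iff₀ (by positivity)]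
    linarith
  have h4 := (hi hw).le
  have h5 : ∫ x : ℝ, (Real.fourierChar (-(x * (-l / (2 * Real.pi))))) • f x =
      ∫ x in (1 : ℝ)..2, E n l x * (g x : ℂ) := by
    rw [intervalIntegral.integral_of_le (by norm_num), ← MeasureTheory.integral_indicator measurableSet_Ioc]
    congr 1
    funext x
    rw [hf]
    by_cases hx : x ∈ Set.Ioc (1 : ℝ) 2
    · rw [Set.indicator_of_mem hx, Set.indicator_of_mem hx]
      rw [Circle.smul_def, Real.fourierChar_apply, smul_eq_mul]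
      unfold E
      have : (2 * Real.pi * (-(x * (-l / (2 * Real.pi)))) : ℝ) = l * x := by
        field_simp
      rw [this]
      have : (((l * x : ℝ) : ℂ) * I) = I * l * x := by push_cast; ring
      rw [this]
      ring
    · rw [Set.indicator_of_notMem hx, Set.indicator_of_notMem hx, smul_zero]
  rw [h5] at h4
  exact h4

theorem big_n (g g' : ℝ → ℝ) (hg : ∀ x, HasDerivAt g (g' x) x) (hg' : Continuous g')
    (ε : ℝ) (hε : 0 < ε) :
    ∃ N : ℕ, ∀ n : ℕ, N ≤ n → ∀ l : ℝ, ‖∫ x in (1 : ℝ)..2, E n l x * (g x : ℂ)‖ ≤ ε := by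
  have hgc : Continuous g := continuous_iff_continuousAt.2 fun x => (hg x).continuousAt
  obtain ⟨G1, hG1⟩ := isCompact_Icc.exists_bound_of_continuousOn (s := Set.Icc (1 : ℝ) 2) hgc.continuousOn
  obtain ⟨G2, hG2⟩ := isCompact_Icc.exists_bound_of_continuousOn (s := Set.Icc (1 : ℝ) 2) hg'.continuousOn
  set G : ℝ := max 1 (max G1 G2) with hG
  have hG0 : 0 < G := lt_of_lt_of_le one_pos (le_max_left _ _)
  have b1 : ∀ x ∈ Set.Icc (1 : ℝ) 2, |g x| ≤ G := fun x hx =>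
    (hG1 x hx).trans ((le_max_left _ _).trans (le_max_right _ _))
  have b2 : ∀ x ∈ Set.Icc (1 : ℝ) 2, |g' x| ≤ G := fun x hx =>
    (hG2 x hx).trans ((le_max_right _ _).trans (le_max_right _ _))
  set d : ℝ := ε / (2 * G * (25 / 4 * Real.pi)) with hd
  have hd0 : 0 < d := by positivity
  obtain ⟨N, hN⟩ := exists_nat_ge ((G / d + G * (2 / d ^ 2 + 1 / (2 * d))) / (ε / 2))
  refine ⟨max 1 N, fun n hn l => ?_⟩
  have hn1 : 1 ≤ n := (le_max_left _ _).trans hn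
  have hn0 : (0 : ℝ) < n := by exact_mod_cast hn1
  have hNn : (N : ℝ) ≤ n := by exact_mod_cast (le_max_right _ _).trans hn
  have h := vdc n hn1 l (d * n) G (by positivity) g g' hg hg' b1 b2
  refine h.trans ?_
  have e1 : G / (d * n) + G * (2 * n / (d * n) ^ 2 + 1 / (2 * (d * n))) =
      (G / d + G * (2 / d ^ 2 + 1 / (2 * d))) / n := by
    field_simp
  have e2 : G * (25 * (d * n) / (4 * n) * Real.pi) = ε / 2 := by
    rw [hd]
    field_simp
  rw [e1, e2]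
  have h3 : (G / d + G * (2 / d ^ 2 + 1 / (2 * d))) / n ≤ ε / 2 := by
    rw [div_le_iff₀ hn0]
    rw [div_le_iff₀ (by positivity)] at hN
    nlinarith
  linarith

theorem fin_bound (L : ℕ → ℝ) (N : ℕ) : ∃ M : ℝ, ∀ n < N, L n ≤ M := by
  induction N with
  | zero => exact ⟨0, fun n hn => absurd hn (by omega)⟩
  | succ N ih =>
    obtain ⟨M, hM⟩ := ih
    refine ⟨max M (L N), fun n hn => ?_⟩
    rcases Nat.lt_succ_iff_lt_or_eq.1 hn with h | rfl
    · exact (hM n h).trans (le_max_left _ _)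
    · exact le_max_right _ _

theorem unif (g g' : ℝ → ℝ) (hg : ∀ x, HasDerivAt g (g' x) x) (hg' : Continuous g')
    (ε : ℝ) (hε : 0 < ε) :
    ∃ L : ℝ, ∀ (n : ℕ) (l : ℝ), L ≤ |l| → ‖∫ x in (1 : ℝ)..2, E n l x * (g x : ℂ)‖ ≤ ε := by
  obtain ⟨N, hN⟩ := big_n g g' hg hg' ε hε
  choose L hL using fun n => rl n g ε hε
  obtain ⟨M, hM⟩ := fin_bound L N
  refine ⟨M, fun n l hl => ?_⟩
  by_cases hn : N ≤ n
  · exact hN n hn l
  · exact hL n l ((hM n (by omega)).trans hl)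

theorem step (P : ℝ → ℝ) (hP : ContDiff ℝ 1 P) (K : ℕ) (τ : ℝ) :
    ∃ t : ℝ, τ ≤ t ∧ ∀ j ≤ K, ∀ (n : ℕ) (l : ℝ), t / 2 ≤ |l| →
      ‖∫ x in (1 : ℝ)..2, E n l x * ((x ^ j * P x : ℝ) : ℂ)‖ ≤ (1 / 2) ^ (K + 5) := by
  have h : ∀ j : ℕ, ∃ L : ℝ, ∀ (n : ℕ) (l : ℝ), L ≤ |l| →
      ‖∫ x in (1 : ℝ)..2, E n l x * ((x ^ j * P x : ℝ) : ℂ)‖ ≤ (1 / 2) ^ (K + 5) := by
    intro j
    have hc : ContDiff ℝ 1 (fun x : ℝ => x ^ j * P x) := by fun_prop
    exact unif (fun x : ℝ => x ^ j * P x) (deriv (fun x : ℝ => x ^ j * P x))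
      (fun x => (hc.differentiable one_ne_zero x).hasDerivAt) (hc.continuous_deriv (le_refl _)) _ (by positivity)
  choose L hL using h
  obtain ⟨M, hM⟩ := fin_bound L (K + 1)
  refine ⟨max τ (2 * M), le_max_left _ _, fun j hj n l hl => hL j n l ?_⟩
  have h1 := hM j (by omega)
  have h2 : 2 * M ≤ max τ (2 * M) := le_max_right _ _
  linarith

/-- states of the recursion -/
structure St where
  P : ℝ → ℝ
  hP : ContDiff ℝ 1 P
  nn : ∀ x, 0 ≤ P x
  t : ℝ

/-- one step -/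
noncomputable def next (K : ℕ) (s : St) : St where
  P := fun x => s.P x * (1 + Real.cos ((step s.P s.hP K (2 * s.t)).choose * x))
  hP := by
    have := s.hP
    fun_prop
  nn := fun x => mul_nonneg (s.nn x) (by linarith [Real.neg_one_le_cos ((step s.P s.hP K (2 * s.t)).choose * x)])
  t := (step s.P s.hP K (2 * s.t)).choose

/-- the sequence of states -/
noncomputable def sq : ℕ → St
  | 0 => ⟨fun _ => 1, contDiff_const, fun _ => zero_le_one, 1⟩
  | K + 1 => next K (sq K)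

/-- densities -/
noncomputable def P (K : ℕ) : ℝ → ℝ := (sq K).P

/-- frequencies -/
noncomputable def tt (K : ℕ) : ℝ := (sq (K + 1)).t

theorem P_zero (x : ℝ) : P 0 x = 1 := rfl

theorem P_succ (K : ℕ) (x : ℝ) : P (K + 1) x = P K x * (1 + Real.cos (tt K * x)) := rfl

theorem P_smooth (K : ℕ) : ContDiff ℝ 1 (P K) := (sq K).hP

theorem P_nonneg (K : ℕ) (x : ℝ) : 0 ≤ P K x := (sq K).nn x

theorem tt_zero : 2 ≤ tt 0 := by
  have h := (step (sq 0).P (sq 0).hP 0 (2 * (sq 0).t)).choose_spec.1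
  have h1 : (sq 0).t = 1 := rfl
  have h2 : tt 0 = (step (sq 0).P (sq 0).hP 0 (2 * (sq 0).t)).choose := rfl
  rw [h2]
  linarith

theorem tt_succ (K : ℕ) : 2 * tt K ≤ tt (K + 1) :=
  (step (sq (K + 1)).P (sq (K + 1)).hP (K + 1) (2 * (sq (K + 1)).t)).choose_spec.1

theorem tt_est (K j : ℕ) (hj : j ≤ K) (n : ℕ) (l : ℝ) (hl : tt K / 2 ≤ |l|) :
    ‖∫ x in (1 : ℝ)..2, E n l x * ((x ^ j * P K x : ℝ) : ℂ)‖ ≤ (1 / 2) ^ (K + 5) :=
  (step (sq K).P (sq K).hP K (2 * (sq K).t)).choose_spec.2 j hj n l hl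

theorem tt_pos (K : ℕ) : 2 ≤ tt K := by
  induction K with
  | zero => exact tt_zero
  | succ K ih => linarith [tt_succ K]

theorem tt_mono {k K : ℕ} (h : k < K) : 2 * tt k ≤ tt K := by
  induction K with
  | zero => omega
  | succ K ih =>
    rcases Nat.lt_succ_iff_lt_or_eq.1 h with h | rfl
    · linarith [ih h, tt_succ K, tt_pos K]
    · exact tt_succ _

theorem tt_large (K : ℕ) : (K : ℝ) ≤ tt K := by
  induction K with
  | zero => have := tt_pos 0; push_cast; linarith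
  | succ K ih => have := tt_pos K; push_cast; linarith [tt_succ K]

/-- the basic integrals -/
noncomputable def J (n : ℕ) (l : ℝ) (j K : ℕ) : ℂ :=
  ∫ x in (1 : ℝ)..2, E n l x * ((x ^ j * P K x : ℝ) : ℂ)

theorem J_cont (n : ℕ) (l : ℝ) (j K : ℕ) :
    Continuous fun x : ℝ => E n l x * ((x ^ j * P K x : ℝ) : ℂ) := by
  have h1 := E_cont n l
  have h2 := (P_smooth K).continuous
  fun_prop

theorem E_add (n : ℕ) (l t x : ℝ) : E n l x * ((Real.cos (t * x) : ℝ) : ℂ) =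
    (1 / 2 : ℂ) * E n (l + t) x + (1 / 2 : ℂ) * E n (l - t) x := by
  unfold E
  rw [ofReal_cos, Complex.cos]
  have h1 : exp (I * ((l + t : ℝ) : ℂ) * x) = exp (I * l * x) * exp (((t * x : ℝ) : ℂ) * I) := by
    rw [← exp_add]; congr 1; push_cast; ring
  have h2 : exp (I * ((l - t : ℝ) : ℂ) * x) = exp (I * l * x) * exp (-((t * x : ℝ) : ℂ) * I) := by
    rw [← exp_add]; congr 1; push_cast; ring
  rw [h1, h2]
  ring

theorem J_succ (n : ℕ) (l : ℝ) (j K : ℕ) :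
    J n l j (K + 1) = J n l j K + (1 / 2 : ℂ) * J n (l + tt K) j K + (1 / 2 : ℂ) * J n (l - tt K) j K := by
  unfold J
  have i1 : IntervalIntegrable (fun x : ℝ => E n l x * ((x ^ j * P K x : ℝ) : ℂ)) volume 1 2 :=
    (J_cont n l j K).intervalIntegrable _ _
  have i2 : IntervalIntegrable (fun x : ℝ => (1 / 2 : ℂ) * (E n (l + tt K) x * ((x ^ j * P K x : ℝ) : ℂ)))
    volume 1 2 := (continuous_const.mul (J_cont n (l + tt K) j K)).intervalIntegrable _ _
  have i3 : IntervalIntegrable (fun x : ℝ => (1 / 2 : ℂ) * (E n (l - tt K) x * ((x ^ j * P K x : ℝ) : ℂ)))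
    volume 1 2 := (continuous_const.mul (J_cont n (l - tt K) j K)).intervalIntegrable _ _
  rw [← intervalIntegral.integral_const_mul, ← intervalIntegral.integral_const_mul,
    ← intervalIntegral.integral_add i1 i2, ← intervalIntegral.integral_add (i1.add i2) i3]
  · apply intervalIntegral.integral_congr
    intro x _
    simp only
    have h : ((x ^ j * P (K + 1) x : ℝ) : ℂ) = ((x ^ j * P K x : ℝ) : ℂ) +
      ((Real.cos (tt K * x) : ℝ) : ℂ) * ((x ^ j * P K x : ℝ) : ℂ) := by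
      rw [P_succ]; push_cast; ring
    rw [h, mul_add, ← mul_assoc, E_add]
    ring

theorem J_diff (n j K : ℕ) (hj : j ≤ K) (l : ℝ) (h1 : tt K / 2 ≤ |l + tt K|) (h2 : tt K / 2 ≤ |l - tt K|) :
    ‖J n l j (K + 1) - J n l j K‖ ≤ (1 / 2) ^ (K + 5) := by
  rw [J_succ]
  have e : J n l j K + (1 / 2 : ℂ) * J n (l + tt K) j K + (1 / 2 : ℂ) * J n (l - tt K) j K - J n l j K =
    (1 / 2 : ℂ) * J n (l + tt K) j K + (1 / 2 : ℂ) * J n (l - tt K) j K := by ring
  rw [e]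
  have b1 := tt_est K j hj n (l + tt K) h1
  have b2 := tt_est K j hj n (l - tt K) h2
  have n1 : ‖(1 / 2 : ℂ) * J n (l + tt K) j K‖ ≤ 1 / 2 * (1 / 2) ^ (K + 5) := by
    rw [norm_mul]
    have : ‖(1 / 2 : ℂ)‖ = 1 / 2 := by simp
    rw [this]
    exact mul_le_mul_of_nonneg_left b1 (by norm_num)
  have n2 : ‖(1 / 2 : ℂ) * J n (l - tt K) j K‖ ≤ 1 / 2 * (1 / 2) ^ (K + 5) := by
    rw [norm_mul]
    have : ‖(1 / 2 : ℂ)‖ = 1 / 2 := by simp
    rw [this]
    exact mul_le_mul_of_nonneg_left b2 (by norm_num)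
  calc _ ≤ _ := norm_add_le _ _
    _ ≤ 1 / 2 * (1 / 2) ^ (K + 5) + 1 / 2 * (1 / 2) ^ (K + 5) := add_le_add n1 n2
    _ = _ := by ring

theorem J_sum (n j : ℕ) (l : ℝ) (K M : ℕ) (hKM : K ≤ M) (hj : j ≤ K)
    (h : ∀ i, K ≤ i → tt i / 2 ≤ |l + tt i| ∧ tt i / 2 ≤ |l - tt i|) :
    ‖J n l j M - J n l j K‖ ≤ (1 / 2) ^ (K + 4) - (1 / 2) ^ (M + 4) := by
  induction M, hKM using Nat.le_induction with
  | base => simp
  | succ M hM ih =>
    have h1 := J_diff n j M (hj.trans hM) l (h M hM).1 (h M hM).2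
    calc ‖J n l j (M + 1) - J n l j K‖ = ‖(J n l j (M + 1) - J n l j M) + (J n l j M - J n l j K)‖ := by
          congr 1; ring
      _ ≤ _ := norm_add_le _ _
      _ ≤ (1 / 2) ^ (M + 5) + ((1 / 2) ^ (K + 4) - (1 / 2) ^ (M + 4)) := add_le_add h1 ih
      _ = _ := by ring

theorem J_zero_freq (n j K M : ℕ) (hKM : K ≤ M) (hj : j ≤ K) :
    ‖J n 0 j M - J n 0 j K‖ ≤ (1 / 2) ^ (K + 4) := by
  have h := J_sum n j 0 K M hKM hj (fun i _ => by
    have := tt_pos i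
    rw [zero_add, zero_sub, abs_neg, abs_of_pos (by linarith)]
    constructor <;> linarith)
  have : (0 : ℝ) ≤ (1 / 2) ^ (M + 4) := by positivity
  linarith

theorem J_mass (K : ℕ) : ‖J 0 0 0 K - 1‖ ≤ 1 / 16 := by
  have h := J_zero_freq 0 0 0 K (Nat.zero_le _) (le_refl _)
  have h0 : J 0 0 0 0 = 1 := by
    unfold J
    have : ∀ x : ℝ, E 0 0 x * ((x ^ 0 * P 0 x : ℝ) : ℂ) = 1 := by
      intro x
      unfold E
      rw [P_zero]
      simp
    simp only [this]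
    simp
    norm_num
  rw [h0] at h
  calc _ ≤ _ := h
    _ = _ := by norm_num

theorem J_res (k M : ℕ) (hM : k + 1 ≤ M) : 1 / 4 ≤ (J 0 (tt k) 0 M).re := by
  have h1 := J_sum 0 0 (tt k) (k + 1) M hM (Nat.zero_le _) (fun i hi => by
    have h2 := tt_mono (show k < i by omega)
    have h3 := tt_pos k
    have h4 := tt_pos i
    rw [abs_of_pos (by linarith : 0 < tt k + tt i), abs_of_neg (by linarith : tt k - tt i < 0)]
    constructor <;> linarith)
  have h2 := J_succ 0 (tt k) 0 k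
  rw [sub_self] at h2
  have h3 := tt_pos k
  have b1 := tt_est k 0 (Nat.zero_le _) 0 (tt k) (by rw [abs_of_pos (by linarith)]; linarith)
  have b2 := tt_est k 0 (Nat.zero_le _) 0 (tt k + tt k) (by rw [abs_of_pos (by linarith)]; linarith)
  have b3 := J_mass k
  change ‖J 0 (tt k) 0 k‖ ≤ _ at b1
  change ‖J 0 (tt k + tt k) 0 k‖ ≤ _ at b2
  have p1 : ((1 : ℝ) / 2) ^ (k + 5) ≤ 1 / 32 := by
    calc ((1 : ℝ) / 2) ^ (k + 5) ≤ (1 / 2) ^ 5 :=
          pow_le_pow_of_le_one (by norm_num) (by norm_num) (by omega)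
      _ = 1 / 32 := by norm_num
  have p2 : ((1 : ℝ) / 2) ^ (k + 1 + 4) ≤ 1 / 32 := p1
  have p3 : (0 : ℝ) ≤ (1 / 2) ^ (M + 4) := by positivity
  have r1 := (abs_le.1 ((Complex.abs_re_le_norm _).trans h1)).1
  have r2 := (abs_le.1 ((Complex.abs_re_le_norm _).trans b1)).1
  have r3 := (abs_le.1 ((Complex.abs_re_le_norm _).trans b2)).1
  have r4 := (abs_le.1 ((Complex.abs_re_le_norm _).trans b3)).1
  have h5 := congrArg Complex.re h2
  have q : ∀ z : ℂ, ((1 / 2 : ℂ) * z).re = 1 / 2 * z.re := by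
    intro z
    have : (1 / 2 : ℂ) = ((1 / 2 : ℝ) : ℂ) := by push_cast; rfl
    rw [this, Complex.re_ofReal_mul]
  rw [add_re, add_re, q, q] at h5
  rw [sub_re] at r1 r4
  rw [one_re] at r4
  linarith

end Pool.Agent.W352.Raj
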