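import Pool.Agent.W352.Raj2

set_option autoImplicit false

open MeasureTheory intervalIntegral Complex Filter Topology
open scoped NNReal ENNReal BoundedContinuousFunction

namespace Pool.Agent.W352.Raj

/-- The underlying space. -/
abbrev X : Type := Set.Icc (1 : ℝ) 2

theorem P_cont (K : ℕ) : Continuous (P K) := (P_smooth K).continuous

/-- Lebesgue measure on the space -/
noncomputable def volX : Measure X := (volume : Measure ℝ).comap Subtype.val

/-- The density measures. -/
noncomputable def muM (K : ℕ) : Measure X :=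
  volX.withDensity fun x => ENNReal.ofReal (P K x)

theorem muM_integral (K : ℕ) (f : ℝ → ℂ) :
    ∫ x : X, f x ∂(muM K) = ∫ x in (1 : ℝ)..2, f x * (P K x : ℂ) := by
  unfold muM
  rw [integral_withDensity_eq_integral_toReal_smul]
  · have h1 : ∀ x : X, (ENNReal.ofReal (P K x)).toReal • f x = f x * (P K x : ℂ) := by
      intro x
      rw [ENNReal.toReal_ofReal (P_nonneg K x), real_smul, mul_comm]
    simp only [h1]
    unfold volX
    rw [integral_subtype_comap measurableSet_Icc (fun x : ℝ => f x * (P K x : ℂ)),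
      integral_Icc_eq_integral_Ioc, intervalIntegral.integral_of_le (by norm_num)]
  · exact (ENNReal.measurable_ofReal.comp ((P_cont K).measurable.comp measurable_subtype_coe))
  · exact Eventually.of_forall fun x => ENNReal.ofReal_lt_top

theorem vol_X : volX Set.univ = 1 := by
  unfold volX
  rw [(MeasurableEmbedding.subtype_coe measurableSet_Icc).comap_apply, Set.image_univ,
    Subtype.range_coe, Real.volume_Icc]
  norm_num

instance : IsFiniteMeasure volX := ⟨by rw [vol_X]; exact ENNReal.one_lt_top⟩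

instance (K : ℕ) : IsFiniteMeasure (muM K) := by
  unfold muM
  apply isFiniteMeasure_withDensity_ofReal
  have hc : Continuous fun x : X => P K x := (P_cont K).comp continuous_subtype_val
  have : Integrable (fun x : X => P K x) volX :=
    hc.integrable_of_hasCompactSupport (HasCompactSupport.of_compactSpace _)
  exact this.hasFiniteIntegral

/-- as finite measures -/
noncomputable def mu (K : ℕ) : FiniteMeasure X := ⟨muM K, inferInstance⟩

theorem mu_mass (K : ℕ) : (mu K).mass ≤ 2 := by
  have h1 : ((mu K).mass : ℝ) = ∫ _ : X, (1 : ℝ) ∂(muM K) := by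
    rw [MeasureTheory.integral_const, smul_eq_mul, mul_one]
    rfl
  have h2 : ((∫ _ : X, (1 : ℝ) ∂(muM K) : ℝ) : ℂ) = J 0 0 0 K := by
    rw [← integral_complex_ofReal]
    have h3 := muM_integral K (fun _ => ((1 : ℝ) : ℂ))
    refine Eq.trans h3 ?_
    unfold J
    apply intervalIntegral.integral_congr
    intro x _
    simp [E]
  have h3 := J_mass K
  rw [← h2, ← h1] at h3
  have h4 := (abs_le.1 ((Complex.abs_re_le_norm _).trans h3)).2
  rw [sub_re, ofReal_re, one_re] at h4
  have h5 : ((mu K).mass : ℝ) ≤ 2 := by linarith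
  exact_mod_cast h5

theorem exists_limit : ∃ ν : FiniteMeasure X, Tendsto mu (hyperfilter ℕ : Filter ℕ) (𝓝 ν) := by
  have hc := isCompact_setOfPred_finiteMeasure_le_of_compactSpace X 2
  rw [isCompact_iff_ultrafilter_le_nhds] at hc
  obtain ⟨ν, -, hν⟩ := hc (Ultrafilter.map mu (hyperfilter ℕ)) (by
    rw [le_principal_iff]
    exact Eventually.of_forall (f := (hyperfilter ℕ : Filter ℕ)) fun K => mu_mass K)
  exact ⟨ν, hν⟩

/-- the singular measure -/
noncomputable def nu : FiniteMeasure X := exists_limit.choose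

theorem nu_lim (f : ℝ → ℂ) (hf : Continuous f) :
    Tendsto (fun K => ∫ x in (1 : ℝ)..2, f x * (P K x : ℂ)) (hyperfilter ℕ : Filter ℕ)
      (𝓝 (∫ x : X, f x ∂(nu : Measure X))) := by
  have h := exists_limit.choose_spec
  rw [FiniteMeasure.tendsto_iff_forall_integral_rclike_tendsto ℂ] at h
  have h2 := h (BoundedContinuousFunction.mkOfCompact ⟨fun x : X => f x, hf.comp continuous_subtype_val⟩)
  refine (Tendsto.congr ?_ h2)
  intro K
  exact muM_integral K f

theorem ev_ge (K : ℕ) : ∀ᶠ M in (hyperfilter ℕ : Filter ℕ), K ≤ M := by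
  have h : (hyperfilter ℕ : Filter ℕ) ≤ cofinite := hyperfilter_le_cofinite
  rw [Nat.cofinite_eq_atTop] at h
  exact h (eventually_ge_atTop K)

theorem v_cont : Continuous v :=
  continuous_iff_continuousAt.2 fun x => (v_deriv x).continuousAt

theorem nu_pow (n j K : ℕ) (hj : j ≤ K) :
    ‖∫ x : X, v x ^ n * ((x : ℝ) : ℂ) ^ j ∂(nu : Measure X)‖ ≤ ‖J n 0 j K‖ + (1 / 2) ^ (K + 4) := by
  have hc : Continuous fun x : ℝ => v x ^ n * ((x : ℝ) : ℂ) ^ j := by
    have := v_cont
    fun_prop
  have h := (nu_lim _ hc).norm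
  refine le_of_tendsto h ?_
  filter_upwards [ev_ge K] with M hM
  have e : ∫ x in (1 : ℝ)..2, v x ^ n * ((x : ℝ) : ℂ) ^ j * (P M x : ℂ) = J n 0 j M := by
    unfold J
    apply intervalIntegral.integral_congr
    intro x _
    simp only [E]
    push_cast
    simp
    ring
  rw [e]
  have h1 := J_zero_freq n j K M hM hj
  calc ‖J n 0 j M‖ = ‖J n 0 j K + (J n 0 j M - J n 0 j K)‖ := by congr 1; ring
    _ ≤ _ := norm_add_le _ _
    _ ≤ _ := by gcongr

theorem nu_raj (j : ℕ) : Tendsto (fun n : ℕ => ∫ x : X, v x ^ n * ((x : ℝ) : ℂ) ^ j ∂(nu : Measure X))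
    atTop (𝓝 0) := by
  rw [Metric.tendsto_atTop]
  intro ε hε
  have h1 : Tendsto (fun K : ℕ => ((1 : ℝ) / 2) ^ (K + 4)) atTop (𝓝 0) :=
    (tendsto_pow_atTop_nhds_zero_of_lt_one (by norm_num) (by norm_num)).comp (tendsto_add_atTop_nat 4)
  obtain ⟨K, hK, hK2⟩ := ((h1.eventually (gt_mem_nhds (half_pos hε))).and (eventually_ge_atTop j)).exists
  have hc : ContDiff ℝ 1 (fun x : ℝ => x ^ j * P K x) := by
    have := P_smooth K
    fun_prop
  obtain ⟨N, hN⟩ := big_n (fun x : ℝ => x ^ j * P K x) (deriv (fun x : ℝ => x ^ j * P K x))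
      (fun x => (hc.differentiable one_ne_zero x).hasDerivAt) (hc.continuous_deriv (le_refl _))
      (ε / 2) (half_pos hε)
  refine ⟨N, fun n hn => ?_⟩
  rw [dist_zero_right]
  have h2 := nu_pow n j K hK2
  have h3 : ‖J n 0 j K‖ ≤ ε / 2 := hN n hn 0
  linarith

theorem nu_res (k : ℕ) : 1 / 4 ≤ (∫ x : X, exp (I * tt k * ((x : ℝ) : ℂ)) ∂(nu : Measure X)).re := by
  have hc : Continuous fun x : ℝ => exp (I * tt k * ((x : ℝ) : ℂ)) := by fun_prop
  have h := (Complex.continuous_re.tendsto _).comp (nu_lim _ hc)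
  refine ge_of_tendsto h ?_
  filter_upwards [ev_ge (k + 1)] with M hM
  have e : ∫ x in (1 : ℝ)..2, exp (I * tt k * ((x : ℝ) : ℂ)) * (P M x : ℂ) = J 0 (tt k) 0 M := by
    unfold J
    apply intervalIntegral.integral_congr
    intro x _
    simp [E]
  simp only [Function.comp]
  rw [e]
  exact J_res k M hM

end Pool.Agent.W352.Raj
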