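import Pool.Agent.W921.VP.DefsC

set_option autoImplicit false

/-!
Project VP, part PR1: the profile of a suitable tuple determines the finite reduct.
-/

namespace Pool.Agent.W352.VPPR1

open Set Pool.Agent.W921.VP

/-- Two countable sets with the same `encard` are in bijection, and the bijection may extend a
given finite partial injection. -/
theorem extSet {ι : Type} [Finite ι] (A A' : Set ℕ) (hcard : A.encard = A'.encard)
    (c c' : ι → ℕ) (hmem : ∀ i, c i ∈ A ↔ c' i ∈ A') (heq : ∀ i j, c i = c j ↔ c' i = c' j) :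
    ∃ g : ℕ → ℕ, BijOn g A A' ∧ ∀ i, c i ∈ A → g (c i) = c' i := by
  classical
  -- the finite part
  let s : Set A := {x | ∃ i, c i = (x : ℕ)}
  have hs : ∀ x : s, ∃ i, c i = ((x : A) : ℕ) := fun x => x.2
  choose j hj using hs
  have hj' : ∀ x : s, c' (j x) ∈ A' := fun x => (hmem _).1 (by rw [hj]; exact (x : A).2)
  let f : s ↪ A' :=
    { toFun := fun x => ⟨c' (j x), hj' x⟩
      inj' := by
        intro x y hxy
        have h1 : c' (j x) = c' (j y) := congrArg Subtype.val hxy
        have h2 := (heq _ _).2 h1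
        rw [hj, hj] at h2
        exact Subtype.ext (Subtype.ext h2) }
  have hsfin : s.Finite := by
    have : (Subtype.val '' s).Finite := by
      refine (Set.finite_range c).subset ?_
      rintro _ ⟨x, ⟨i, hi⟩, rfl⟩
      exact ⟨i, hi⟩
    exact Set.Finite.of_finite_image this Subtype.val_injective.injOn
  have hne : Nonempty (A ≃ A') := by
    have h1 : Cardinal.mk A = Cardinal.mk A' := by
      refine Cardinal.toENat_injOn (Cardinal.mk_le_aleph0) (Cardinal.mk_le_aleph0) ?_
      exact hcard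
    exact Cardinal.eq.1 h1
  have hext : ∃ g : A ≃ A', ∀ x : s, g x = f x := by
    by_cases hA : Finite A
    · exact Cardinal.extend_function_finite f hne
    · have : Infinite A := not_finite_iff_infinite.1 hA
      have : Finite s := hsfin
      refine Cardinal.extend_function_of_lt f ?_ hne
      exact lt_of_lt_of_le (Cardinal.lt_aleph0_of_finite s) (Cardinal.aleph0_le_mk A)
  obtain ⟨g, hg⟩ := hext
  refine ⟨fun x => if hx : x ∈ A then (g ⟨x, hx⟩ : ℕ) else 0, ⟨?_, ?_, ?_⟩, ?_⟩
  · intro x hx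
    simp only [dif_pos hx]
    exact (g ⟨x, hx⟩).2
  · intro x hx y hy hxy
    simp only [dif_pos hx, dif_pos hy] at hxy
    have := g.injective (Subtype.ext hxy)
    exact congrArg Subtype.val this
  · intro y hy
    refine ⟨g.symm ⟨y, hy⟩, (g.symm ⟨y, hy⟩).2, ?_⟩
    simp
  · intro i hi
    simp only [dif_pos hi]
    have hmem' : (⟨c i, hi⟩ : A) ∈ s := ⟨i, rfl⟩
    have h1 := hg ⟨⟨c i, hi⟩, hmem'⟩
    have h2 : (g ⟨c i, hi⟩ : ℕ) = c' (j ⟨⟨c i, hi⟩, hmem'⟩) := congrArg Subtype.val h1
    rw [h2]
    exact (heq _ _).1 (hj ⟨⟨c i, hi⟩, hmem'⟩)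

/-- The bijection of `ℕ` given by a correspondence of classes with equal sizes. -/
theorem extEquiv {ι : Type} [Finite ι] (T T' : Setoid ℕ) (c c' : ι → ℕ)
    (heq : ∀ i j, c i = c j ↔ c' i = c' j) (htw : ∀ i j, T (c i) (c j) ↔ T' (c' i) (c' j))
    (hsize : ∀ i, Set.encard {x | T x (c i)} = Set.encard {x | T' x (c' i)})
    (hcov : ∀ x, ∃ i, T x (c i)) (hcov' : ∀ x, ∃ i, T' x (c' i)) :
    ∃ e : ℕ ≃ ℕ, (∀ i, e (c i) = c' i) ∧ ∀ x i, T x (c i) → T' (e x) (c' i) := by
  classical
  have key : ∀ i, ∃ g : ℕ → ℕ, BijOn g {x | T x (c i)} {x | T' x (c' i)} ∧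
      ∀ j, c j ∈ {x | T x (c i)} → g (c j) = c' j := fun i =>
    extSet _ _ (hsize i) c c' (fun j => htw j i) heq
  choose g hg hgc using key
  have hq : ∀ q : Quotient T, ∃ i, Quotient.mk T (c i) = q := by
    intro q
    induction q using Quotient.ind with
    | _ x =>
      obtain ⟨i, hi⟩ := hcov x
      exact ⟨i, Quotient.sound (T.symm hi)⟩
  choose idx hidx using hq
  let w : ℕ → ι := fun x => idx (Quotient.mk T x)
  have hw : ∀ x, T x (c (w x)) := fun x => Quotient.exact (hidx (Quotient.mk T x)).symm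
  have hww : ∀ x y, T x y → w x = w y := fun x y hxy => congrArg idx (Quotient.sound hxy)
  let e : ℕ → ℕ := fun x => g (w x) x
  have he' : ∀ x, T' (e x) (c' (w x)) := fun x => (hg (w x)).mapsTo (hw x)
  have hinj : Function.Injective e := by
    intro x y hxy
    have h1 : T' (c' (w x)) (c' (w y)) := by
      have h2 := he' x
      have h3 := he' y
      rw [← hxy] at h3
      exact T'.trans (T'.symm h2) h3
    have h4 : T x y := T.trans (T.trans (hw x) ((htw _ _).2 h1)) (T.symm (hw y))
    have h5 := hww x y h4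
    have h6 : g (w x) x = g (w x) y := by
      have : g (w x) x = g (w y) y := hxy
      rw [this, h5]
    refine (hg (w x)).injOn (hw x) ?_ h6
    change T y (c (w x))
    rw [h5]
    exact hw y
  have hsurj : Function.Surjective e := by
    intro y
    obtain ⟨i, hi⟩ := hcov' y
    have h1 : T (c i) (c (w (c i))) := hw (c i)
    have h2 : T' y (c' (w (c i))) := T'.trans hi ((htw _ _).1 h1)
    obtain ⟨x, hx, hxy⟩ := (hg (w (c i))).surjOn h2
    refine ⟨x, ?_⟩
    have h3 : T x (c i) := T.trans hx (T.symm h1)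
    change g (w x) x = y
    rw [hww x (c i) h3]
    exact hxy
  refine ⟨Equiv.ofBijective e ⟨hinj, hsurj⟩, ?_, ?_⟩
  · intro i
    exact hgc (w (c i)) i (hw (c i))
  · intro x i hxi
    change T' (e x) (c' i)
    have h1 : T (c (w x)) (c i) := T.trans (T.symm (hw x)) hxi
    exact T'.trans (he' x) ((htw _ _).1 h1)

/-- The equivalence relation `TwF S F`. -/
def twSet (h : S_SW) {L : FirstOrder.Language.{0, 0}} {M : Type} (S : L.Structure M)
    (F : Finset (Sym L)) : Setoid M where
  r := TwF S F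
  iseqv :=
    { refl := fun x R _ => (h L M S R.1 R.2).1.refl x
      symm := fun hxy R hR => (h L M S R.1 R.2).1.symm (hxy R hR)
      trans := fun hxy hyz R hR => (h L M S R.1 R.2).1.trans (hxy R hR) (hyz R hR) }

theorem twSet_iff (h : S_SW) {L : FirstOrder.Language.{0, 0}} {M : Type} (S : L.Structure M)
    (F : Finset (Sym L)) (x y : M) : (twSet h S F) x y ↔ TwF S F x y := Iff.rfl

/-- `TwF S F` has finitely many classes. -/
theorem finite_quot (h : S_SW) {L : FirstOrder.Language.{0, 0}} {M : Type} (S : L.Structure M)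
    (F : Finset (Sym L)) (hF : ∀ R ∈ F, FinInd S R) : Finite (Quotient (twSet h S F)) := by
  classical
  have h1 : ∀ R : F, ∃ D : Finset M, ∀ x, ∃ d ∈ D, Tw S (R : Sym L).2 x d := fun R => hF R R.2
  choose D hD using h1
  choose d hd1 hd2 using hD
  -- the map to the product of the finite sets
  let φ : M → (∀ R : F, D R) := fun x R => ⟨d R x, hd1 R x⟩
  have hφ : ∀ x y, φ x = φ y → TwF S F x y := by
    intro x y hxy R hR
    have h2 : d ⟨R, hR⟩ x = d ⟨R, hR⟩ y := congrArg Subtype.val (congrFun hxy ⟨R, hR⟩)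
    have h3 := hd2 ⟨R, hR⟩ x
    have h4 := hd2 ⟨R, hR⟩ y
    rw [← h2] at h4
    exact (h L M S R.1 R.2).1.trans h3 ((h L M S R.1 R.2).1.symm h4)
  refine Finite.of_injective (fun q : Quotient (twSet h S F) => φ q.out) ?_
  intro q q' hqq
  have h5 := hφ _ _ hqq
  have h6 : Quotient.mk (twSet h S F) q.out = Quotient.mk (twSet h S F) q'.out :=
    Quotient.sound h5
  rw [Quotient.out_eq, Quotient.out_eq] at h6
  exact h6

/-- A bound for the finite sizes of the classes. -/
theorem exists_bound {M : Type} (T : Setoid M) [Finite (Quotient T)] :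
    ∃ k : ℕ, ∀ x : M, Set.encard {y | T y x} < (k : ℕ∞) ∨ Set.encard {y | T y x} = ⊤ := by
  classical
  have h1 : ∀ q : Quotient T, ∃ k : ℕ, Set.encard {y | T y q.out} < (k : ℕ∞) ∨
      Set.encard {y | T y q.out} = ⊤ := by
    intro q
    by_cases hq : Set.encard {y | T y q.out} = ⊤
    · exact ⟨0, Or.inr hq⟩
    · obtain ⟨l, hl⟩ := ENat.ne_top_iff_exists.1 hq
      refine ⟨l + 1, Or.inl ?_⟩
      rw [← hl]
      exact_mod_cast Nat.lt_succ_self l
  choose K hK using h1
  have := Fintype.ofFinite (Quotient T)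
  refine ⟨Finset.univ.sup K, fun x => ?_⟩
  have h2 : {y | T y x} = {y | T y (Quotient.mk T x).out} := by
    ext y
    have h3 : T (Quotient.mk T x).out x := Quotient.exact (Quotient.out_eq _)
    exact ⟨fun hy => T.trans hy (T.symm h3), fun hy => T.trans hy h3⟩
  rw [h2]
  rcases hK (Quotient.mk T x) with h4 | h4
  · left
    refine lt_of_lt_of_le h4 ?_
    exact_mod_cast Finset.le_sup (f := K) (Finset.mem_univ _)
  · right
    exact h4

/-- A finite set which contains every small class, and many elements of every large class. -/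
theorem exists_big {M : Type} (T : Setoid M) [Finite (Quotient T)] (r : ℕ) :
    ∃ B : Finset M, ∀ x : M, {y | T y x} ⊆ (B : Set M) ∨
      (r : ℕ∞) ≤ Set.encard ((B : Set M) ∩ {y | T y x}) := by
  classical
  have h1 : ∀ q : Quotient T, ∃ B : Finset M, (B : Set M) ⊆ {y | T y q.out} ∧
      ({y | T y q.out} ⊆ (B : Set M) ∨ r ≤ B.card) := by
    intro q
    by_cases hq : {y | T y q.out}.Finite
    · refine ⟨hq.toFinset, ?_, Or.inl ?_⟩
      · rw [hq.coe_toFinset]
      · rw [hq.coe_toFinset]
    · obtain ⟨B, hB, hc⟩ := Set.Infinite.exists_subset_card_eq (s := {y | T y q.out}) hq r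
      exact ⟨B, hB, Or.inr hc.ge⟩
  choose B hB hB' using h1
  have := Fintype.ofFinite (Quotient T)
  refine ⟨Finset.univ.biUnion B, fun x => ?_⟩
  have h2 : {y | T y x} = {y | T y (Quotient.mk T x).out} := by
    ext y
    have h3 : T (Quotient.mk T x).out x := Quotient.exact (Quotient.out_eq _)
    exact ⟨fun hy => T.trans hy (T.symm h3), fun hy => T.trans hy h3⟩
  rw [h2]
  have h5 : (B (Quotient.mk T x) : Set M) ⊆ (Finset.univ.biUnion B : Set M) := by
    intro y hy
    simp only [Finset.coe_biUnion, Finset.coe_univ, Set.mem_univ, Set.iUnion_true, Set.mem_iUnion]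
    exact ⟨_, hy⟩
  rcases hB' (Quotient.mk T x) with h4 | h4
  · left
    exact h4.trans (by simpa using h5)
  · right
    have h6 : (r : ℕ∞) ≤ Set.encard (B (Quotient.mk T x) : Set M) := by
      rw [Set.encard_coe_eq_coe_finsetCard]
      exact_mod_cast h4
    refine h6.trans (Set.encard_le_encard ?_)
    exact Set.subset_inter (by simpa using h5) (hB _)

/-- Represent the entries of a tuple by elements of a big set. -/
theorem exists_repr {M : Type} (T : Setoid M) (r : ℕ) (B : Finset M)
    (hB : ∀ x : M, {y | T y x} ⊆ (B : Set M) ∨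
      (r : ℕ∞) ≤ Set.encard ((B : Set M) ∩ {y | T y x})) {p : ℕ} (hp : p ≤ r) (s : Fin p → M) :
    ∃ s0 : Fin p → M, (∀ i, s0 i ∈ B) ∧ (∀ i, T (s i) (s0 i)) ∧
      ∀ i j, s i = s j ↔ s0 i = s0 j := by
  classical
  have hex : ∀ q : Quotient T, ∃ f : M → M,
      (range s ∩ {y | T y q.out}) ⊆ f ⁻¹' ((B : Set M) ∩ {y | T y q.out}) ∧
      InjOn f (range s ∩ {y | T y q.out}) := by
    intro q
    have hne : Nonempty M := ⟨q.out⟩
    refine Set.Finite.exists_injOn_of_encard_le ((Set.finite_range s).inter_of_left _) ?_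
    rcases hB q.out with h1 | h1
    · refine Set.encard_le_encard ?_
      exact fun y hy => ⟨h1 hy.2, hy.2⟩
    · refine le_trans (Set.encard_le_encard Set.inter_subset_left) (le_trans ?_ h1)
      have h2 : (range s).encard ≤ (p : ℕ∞) := by
        have h3 : (range s).encard ≤ (univ : Set (Fin p)).encard := by
          rw [← Set.image_univ]
          exact Set.encard_image_le s univ
        refine h3.trans ?_
        rw [Set.encard_univ]
        simp
      refine h2.trans ?_
      exact_mod_cast hp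
  choose f hf1 hf2 using hex
  have hout : ∀ x : M, T x (Quotient.mk T x).out := fun x =>
    T.symm (Quotient.exact (Quotient.out_eq _))
  let g : M → M := fun x => f (Quotient.mk T x) x
  have hg : ∀ i, g (s i) ∈ (B : Set M) ∩ {y | T y (Quotient.mk T (s i)).out} := fun i =>
    hf1 (Quotient.mk T (s i)) ⟨⟨i, rfl⟩, hout (s i)⟩
  have hgT : ∀ i, T (s i) (g (s i)) := fun i => T.trans (hout (s i)) (T.symm (hg i).2)
  refine ⟨fun i => g (s i), fun i => (hg i).1, hgT, fun i j => ⟨fun hij => ?_, fun hij => ?_⟩⟩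
  · exact congrArg g hij
  · have hij' : g (s i) = g (s j) := hij
    have h1 : T (s i) (s j) := by
      have h2 := hgT i
      rw [hij'] at h2
      exact T.trans h2 (T.symm (hgT j))
    have h3 : Quotient.mk T (s i) = Quotient.mk T (s j) := Quotient.sound h1
    have h4 : f (Quotient.mk T (s j)) (s i) = f (Quotient.mk T (s j)) (s j) := by
      have h5 : f (Quotient.mk T (s i)) (s i) = f (Quotient.mk T (s j)) (s j) := hij
      rw [h3] at h5
      exact h5
    refine hf2 (Quotient.mk T (s j)) ⟨⟨i, rfl⟩, ?_⟩ ⟨⟨j, rfl⟩, hout (s j)⟩ h4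
    exact T.trans h1 (hout (s j))

/-- Sizes which agree below a bound agree. -/
theorem size_eq {x y : ℕ∞} {k : ℕ} (hx : x < (k : ℕ∞) ∨ x = ⊤) (hy : y < (k : ℕ∞) ∨ y = ⊤)
    (hxy : ∀ l ≤ k, ((l : ℕ∞) ≤ x ↔ (l : ℕ∞) ≤ y)) : x = y := by
  rcases hx with hx | hx
  · rcases hy with hy | hy
    · obtain ⟨a, rfl⟩ := ENat.ne_top_iff_exists.1 (ne_top_of_lt hx)
      obtain ⟨b, rfl⟩ := ENat.ne_top_iff_exists.1 (ne_top_of_lt hy)
      have hx' : a < k := by exact_mod_cast hx
      have hy' : b < k := by exact_mod_cast hy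
      have h1 := (hxy a hx'.le).1 le_rfl
      have h2 := (hxy b hy'.le).2 le_rfl
      have h1' : a ≤ b := by exact_mod_cast h1
      have h2' : b ≤ a := by exact_mod_cast h2
      rw [le_antisymm h1' h2']
    · exfalso
      have h1 := (hxy k le_rfl).2 (by rw [hy]; exact le_top)
      exact absurd h1 (not_le.2 hx)
  · rcases hy with hy | hy
    · exfalso
      have h1 := (hxy k le_rfl).1 (by rw [hx]; exact le_top)
      exact absurd h1 (not_le.2 hy)
    · rw [hx, hy]

theorem task (h : S_SW) : S_PR1 := by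
  classical
  intro L S F hF n a
  have hfin := finite_quot h S F hF
  -- the arities
  let r : ℕ := F.sup (fun R => R.1) + 1
  obtain ⟨B, hB⟩ := exists_big (twSet h S F) r
  let m : ℕ := B.card
  let en : Fin m ≃ B := B.equivFin.symm
  let b : Fin m → ℕ := fun i => (en i : ℕ)
  have hbB : ∀ x ∈ B, ∃ i, b i = x := by
    intro x hx
    refine ⟨en.symm ⟨x, hx⟩, ?_⟩
    change ((en (en.symm ⟨x, hx⟩) : B) : ℕ) = x
    rw [Equiv.apply_symm_apply]
  refine ⟨m, b, ?_⟩
  intro S' a' hF'
  have hfin' := finite_quot h S' F hF'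
  obtain ⟨k1, hk1⟩ := exists_bound (twSet h S F)
  obtain ⟨k2, hk2⟩ := exists_bound (twSet h S' F)
  refine ⟨max k1 k2, ?_⟩
  intro b' hP
  -- coverings
  have hcov : ∀ x, ∃ i, TwF S F x (Fin.append a b i) := by
    intro x
    have h1 : ∃ y ∈ B, TwF S F y x := by
      rcases hB x with h2 | h2
      · exact ⟨x, h2 ((twSet h S F).refl x), (twSet h S F).refl x⟩
      · have h3 : (((B : Set ℕ) ∩ {y | (twSet h S F) y x})).Nonempty := by
          rw [← Set.encard_pos]
          refine lt_of_lt_of_le ?_ h2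
          exact_mod_cast Nat.succ_pos _
        obtain ⟨y, hy1, hy2⟩ := h3
        exact ⟨y, hy1, hy2⟩
    obtain ⟨y, hy, hyx⟩ := h1
    obtain ⟨i, hi⟩ := hbB y hy
    refine ⟨Fin.natAdd n i, ?_⟩
    rw [Fin.append_right, hi]
    exact (twSet h S F).symm hyx
  have hcov' := hP.cov.1 hcov
  have hsize : ∀ i, Set.encard {x | (twSet h S F) x (Fin.append a b i)} =
      Set.encard {x | (twSet h S' F) x (Fin.append a' b' i)} := by
    intro i
    refine size_eq (k := max k1 k2) ?_ ?_ (hP.size i)
    · rcases hk1 (Fin.append a b i) with h1 | h1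
      · left
        refine lt_of_lt_of_le h1 ?_
        exact_mod_cast le_max_left _ _
      · exact Or.inr h1
    · rcases hk2 (Fin.append a' b' i) with h1 | h1
      · left
        refine lt_of_lt_of_le h1 ?_
        exact_mod_cast le_max_right _ _
      · exact Or.inr h1
  obtain ⟨e, he1, he2⟩ := extEquiv (twSet h S F) (twSet h S' F) (Fin.append a b)
    (Fin.append a' b') hP.eq hP.tw hsize hcov hcov'
  refine ⟨e, ?_, ?_⟩
  · intro i
    have h1 := he1 (Fin.castAdd m i)
    rw [Fin.append_left, Fin.append_left] at h1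
    exact h1
  · intro R hR s
    have hp : R.1 ≤ r := (Finset.le_sup (f := fun R : Sym L => R.1) hR).trans (Nat.le_succ _)
    obtain ⟨s0, hs0B, hs0T, hs0e⟩ := exists_repr (twSet h S F) r B hB hp s
    choose w hw using fun i => hbB (s0 i) (hs0B i)
    let v : Fin R.1 → Fin (n + m) := fun i => Fin.natAdd n (w i)
    have hv : ∀ i, Fin.append a b (v i) = s0 i := by
      intro i
      change Fin.append a b (Fin.natAdd n (w i)) = s0 i
      rw [Fin.append_right, hw]
    have h1 : S.RelMap R.2 s ↔ S.RelMap R.2 (fun i => Fin.append a b (v i)) := by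
      refine (h L ℕ S R.1 R.2).2 s _ (fun i j => ?_) (fun i => ?_)
      · rw [hv, hv]
        exact hs0e i j
      · rw [hv]
        exact hs0T i R hR
    have h2 := hP.rel R hR v
    have h3 : S'.RelMap R.2 (fun i => Fin.append a' b' (v i)) ↔
        S'.RelMap R.2 (fun i => e (s i)) := by
      refine (h L ℕ S' R.1 R.2).2 _ _ (fun i j => ?_) (fun i => ?_)
      · rw [← hP.eq, hv, hv, ← hs0e]
        exact e.injective.eq_iff.symm
      · have h4 : (twSet h S' F) (e (s i)) (Fin.append a' b' (v i)) := by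
          refine he2 _ _ ?_
          rw [hv]
          exact hs0T i
        exact (twSet h S' F).symm h4 R hR
    exact h1.trans (h2.trans h3)

end Pool.Agent.W352.VPPR1
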